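import Pool.Agent.JohnsonSp.Glue

/-!
Abstract form of Johnson's theorem: finite-dimensional decomposition and the uniform
approximation property.
-/

set_option autoImplicit false
open Filter Topology

namespace Pool.Agent.JohnsonSp

theorem uap_of (hLift : Stmt_Lift) (hCompl : Stmt_Compl) (Y : Type) [NormedAddCommGroup Y]
    [NormedSpace ℝ Y] (Z : ℕ → Submodule ℝ Y) (K N : ℕ → ℕ)
    (hZc : ∀ n, IsClosed (Z n : Set Y)) (hZf : ∀ n, FiniteDimensional ℝ (Y ⧸ Z n))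
    (hZK : ∀ n, Module.finrank ℝ (Y ⧸ Z n) ≤ K n) (hHF : ∀ n, HF (Z n) (N n))
    (hN : ∀ n, n + 5 ^ K n ≤ N n) : HasUAP Y := by
  refine ⟨11, fun g => g + 5 ^ K g, fun G hG => ?_⟩
  set g := Module.finrank ℝ G with hg
  obtain ⟨B, hBf, hBd, hB⟩ := hLift Y (Z g) (K g) (hZc g) (hZf g) (hZK g)
  have hHf : FiniteDimensional ℝ (G ⊔ B : Submodule ℝ Y) := inferInstance
  have hHd : Module.finrank ℝ (G ⊔ B : Submodule ℝ Y) ≤ g + 5 ^ K g :=
    (Submodule.finrank_add_le_finrank_add_finrank G B).trans (by omega)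
  -- the intersection with `Z g`
  let W : Submodule ℝ (Z g) := (G ⊔ B).comap (Z g).subtype
  let f : W →ₗ[ℝ] (G ⊔ B : Submodule ℝ Y) :=
    ((Z g).subtype.comp W.subtype).codRestrict (G ⊔ B) (fun x => x.2)
  have hf : Function.Injective f := by
    intro x y hxy
    have := congrArg Subtype.val hxy
    exact Subtype.ext (Subtype.ext this)
  have hWf : FiniteDimensional ℝ W := FiniteDimensional.of_injective f hf
  have hWd : Module.finrank ℝ W ≤ N g :=
    ((LinearMap.finrank_le_finrank_of_injective hf).trans hHd).trans (hN g)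
  obtain ⟨P, hPW, hPid, hPn⟩ := hCompl (Z g) (N g) (hHF g) W hWf hWd
  obtain ⟨T, hT, hTn⟩ := glue (Z g) B P 2 (by norm_num) hB
    (fun z hz => hPid z (Submodule.mem_sup_right (S := G) hz)) hPn
  have hrange : LinearMap.range (T : Y →ₗ[ℝ] Y) ≤ G ⊔ B := by
    rintro _ ⟨y, rfl⟩
    obtain ⟨b, hb, hyb, -⟩ := hB y
    rw [ContinuousLinearMap.coe_coe, hT y b hb hyb]
    exact Submodule.add_mem _ (Submodule.mem_sup_right hb) (hPW ⟨y - b, hyb⟩)
  refine ⟨T, ?_, ?_, ?_, ?_⟩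
  · intro x hx
    obtain ⟨b, hb, hyb, -⟩ := hB x
    rw [hT x b hb hyb]
    have hmem : (⟨x - b, hyb⟩ : Z g) ∈ W := by
      change x - b ∈ G ⊔ B
      exact Submodule.sub_mem _ (Submodule.mem_sup_left hx) (Submodule.mem_sup_right hb)
    rw [hPid _ hmem]
    simp
  · refine ContinuousLinearMap.opNorm_le_bound _ (by norm_num) fun x => ?_
    refine (hTn x).trans_eq ?_
    norm_num
  · exact Submodule.finiteDimensional_of_le hrange
  · exact (Submodule.finrank_mono hrange).trans hHd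

/-- The properties of the projections in the recursion. -/
def Good {Y : Type} [NormedAddCommGroup Y] [NormedSpace ℝ Y] (K : ℕ → ℕ) (n : ℕ)
    (T : Y →L[ℝ] Y) : Prop :=
  (∀ y, T (T y) = T y) ∧ FiniteDimensional ℝ (LinearMap.range (T : Y →ₗ[ℝ] Y)) ∧
    Module.finrank ℝ (LinearMap.range (T : Y →ₗ[ℝ] Y)) ≤ hseq K n ∧ ∀ y, ‖T y‖ ≤ 100 * ‖y‖

theorem A (hStep : Stmt_Step) (hFDD : Stmt_FDD) (hLift : Stmt_Lift) (hCompl : Stmt_Compl) :
    Stmt_A := by
  intro Y _ _ _ Z K N hZc hZf hZK hHF h5 hh hN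
  refine ⟨?_, uap_of hLift hCompl Y Z K N hZc hZf hZK hHF hN⟩
  classical
  let x : ℕ → Y := TopologicalSpace.denseSeq Y
  have hx : DenseRange x := TopologicalSpace.denseRange_denseSeq Y
  have hstep : ∀ n (T : Y →L[ℝ] Y), Good K n T → ∃ T' : Y →L[ℝ] Y, Good K (n + 1) T' ∧
      (∀ y, T' (T y) = T y) ∧ (∀ y, T (T' y) = T y) ∧ T' (x n) = x n := by
    rintro n T ⟨hT1, hT2, hT3, -⟩
    obtain ⟨T', a1, a2, a3, a4, a5, a6, a7⟩ := hStep Y T (Z (n + 1)) (hseq K n) (K (n + 1))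
      (N (n + 1)) (x n) hT1 hT2 hT3 (hZc _) (hZf _) (hZK _) (hHF _) (h5 n) (hh n)
    exact ⟨T', ⟨a1, a2, a3, a7⟩, a4, a5, a6⟩
  have hzero : Good K 0 (0 : Y →L[ℝ] Y) := by
    have hr : LinearMap.range ((0 : Y →L[ℝ] Y) : Y →ₗ[ℝ] Y) = ⊥ := by
      rw [ContinuousLinearMap.toLinearMap_zero, LinearMap.range_zero]
    refine ⟨fun y => by simp, ?_, ?_, fun y => ?_⟩
    · rw [hr]; infer_instance
    · rw [hr]; simp
    · simp only [zero_apply, norm_zero]
      positivity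
  choose! nxt hnxt using hstep
  let T : ℕ → Y →L[ℝ] Y := fun n => Nat.rec 0 (fun n T => nxt n T) n
  have hTs : ∀ n, T (n + 1) = nxt n (T n) := fun n => rfl
  have hgood : ∀ n, Good K n (T n) := by
    intro n
    induction n with
    | zero => exact hzero
    | succ n ih =>
      rw [hTs]
      exact (hnxt n (T n) ih).1
  have hprop : ∀ n, (∀ y, T (n + 1) (T n y) = T n y) ∧ (∀ y, T n (T (n + 1) y) = T n y) ∧
      T (n + 1) (x n) = x n := by
    intro n
    rw [hTs]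
    exact (hnxt n (T n) (hgood n)).2
  refine hFDD Y T 100 (fun n => (hgood n).1) (fun n => (hprop n).1) (fun n => (hprop n).2.1)
    (fun n => (hgood n).2.1) (fun n => (hgood n).2.2.2) ?_
  intro y ε hε
  obtain ⟨n, hn⟩ := hx.exists_dist_lt y hε
  exact ⟨n + 1, x n, (hprop n).2.2, by rwa [dist_eq_norm] at hn⟩

end Pool.Agent.JohnsonSp
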