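import Pool.Agent.JohnsonSp.Defs

set_option autoImplicit false

namespace Pool.Agent.JohnsonSp

theorem vnorm_nonneg {m k : ℕ} (q : ℝ) (g : Fin k → Eu m) (x : Eu m) : 0 ≤ vnorm q g x :=
  Real.rpow_nonneg (Finset.sum_nonneg fun _ _ => Real.rpow_nonneg (abs_nonneg _) _) _

/-- Each coordinate is bounded by the norm. -/
theorem abs_inner_le_vnorm {m k : ℕ} {q : ℝ} (hq : 0 < q) (g : Fin k → Eu m) (x : Eu m)
    (i : Fin k) : |inner ℝ (g i) x| ≤ vnorm q g x := by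
  unfold vnorm
  have h1 : |inner ℝ (g i) x| ^ q ≤ ∑ i, |inner ℝ (g i) x| ^ q :=
    Finset.single_le_sum (f := fun i => |inner ℝ (g i) x| ^ q)
      (fun j _ => Real.rpow_nonneg (abs_nonneg _) _) (Finset.mem_univ i)
  calc |inner ℝ (g i) x| = (|inner ℝ (g i) x| ^ q) ^ (1 / q) := by
        rw [one_div, Real.rpow_rpow_inv (abs_nonneg _) hq.ne']
    _ ≤ _ := Real.rpow_le_rpow (Real.rpow_nonneg (abs_nonneg _) _) h1 (by positivity)

/-- `ℓ_q ≤ ℓ_2` for `q ≥ 2`. -/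
theorem lq_le_l2 {k : ℕ} {q : ℝ} (hq : 2 ≤ q) (a : Fin k → ℝ) :
    (∑ i, |a i| ^ q) ^ (1 / q) ≤ Real.sqrt (∑ i, a i ^ 2) := by
  set N := Real.sqrt (∑ i, a i ^ 2) with hN
  have hN0 : 0 ≤ N := Real.sqrt_nonneg _
  have hsq : N ^ 2 = ∑ i, a i ^ 2 := Real.sq_sqrt (Finset.sum_nonneg fun _ _ => sq_nonneg _)
  have hq0 : 0 < q := by linarith
  have hle : ∀ i, |a i| ≤ N := by
    intro i
    rw [hN]
    apply Real.abs_le_sqrt
    exact Finset.single_le_sum (f := fun i => a i ^ 2) (fun j _ => sq_nonneg _)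
      (Finset.mem_univ i)
  have hterm : ∀ i, |a i| ^ q ≤ N ^ (q - 2) * a i ^ 2 := by
    intro i
    rcases eq_or_lt_of_le (abs_nonneg (a i)) with h0 | h0
    · rw [← h0, Real.zero_rpow hq0.ne']
      exact mul_nonneg (Real.rpow_nonneg hN0 _) (sq_nonneg _)
    · have : |a i| ^ q = |a i| ^ (q - 2) * a i ^ 2 := by
        rw [← sq_abs (a i), ← Real.rpow_natCast (|a i|) 2, ← Real.rpow_add h0]
        norm_num
      rw [this]
      exact mul_le_mul_of_nonneg_right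
        (Real.rpow_le_rpow h0.le (hle i) (by linarith)) (sq_nonneg _)
  have hsum : ∑ i, |a i| ^ q ≤ N ^ q := by
    calc ∑ i, |a i| ^ q ≤ ∑ i, N ^ (q - 2) * a i ^ 2 := Finset.sum_le_sum fun i _ => hterm i
      _ = N ^ (q - 2) * N ^ 2 := by rw [← Finset.mul_sum, hsq]
      _ = N ^ q := by
        rcases eq_or_lt_of_le hN0 with h0 | h0
        · rw [← h0, Real.zero_rpow hq0.ne']; simp
        · rw [← Real.rpow_natCast N 2, ← Real.rpow_add h0]
          norm_num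
  calc (∑ i, |a i| ^ q) ^ (1 / q) ≤ (N ^ q) ^ (1 / q) :=
        Real.rpow_le_rpow (Finset.sum_nonneg fun _ _ => Real.rpow_nonneg (abs_nonneg _) _) hsum
          (by positivity)
    _ = N := by rw [one_div, Real.rpow_rpow_inv hN0 hq0.ne']

/-- Upper bound for `vnorm`. -/
theorem vnorm_le {m k : ℕ} {q R : ℝ} (hq : 2 ≤ q) (hR : 0 ≤ R) (g : Fin k → Eu m)
    (hg : OpB g R) (x : Eu m) : vnorm q g x ≤ R * ‖x‖ := by
  have h1 : vnorm q g x ≤ Real.sqrt (∑ i, (inner ℝ (g i) x) ^ 2) := lq_le_l2 hq _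
  refine h1.trans ?_
  set N := Real.sqrt (∑ i, (inner ℝ (g i) x) ^ 2) with hN
  have hN0 : 0 ≤ N := Real.sqrt_nonneg _
  have hsq : N ^ 2 = ∑ i, (inner ℝ (g i) x) ^ 2 :=
    Real.sq_sqrt (Finset.sum_nonneg fun _ _ => sq_nonneg _)
  have h2 : N ^ 2 ≤ R * N * ‖x‖ := by
    have h3 := hg (fun i => inner ℝ (g i) x)
    have h4 : inner ℝ (∑ i, (inner ℝ (g i) x : ℝ) • g i) x = N ^ 2 := by
      rw [sum_inner, hsq]
      refine Finset.sum_congr rfl fun i _ => ?_
      rw [real_inner_smul_left, sq]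
    rw [← h4]
    exact (real_inner_le_norm _ _).trans (mul_le_mul_of_nonneg_right h3 (norm_nonneg _))
  rcases eq_or_lt_of_le hN0 with h0 | h0
  · rw [← h0]; positivity
  · nlinarith

theorem Adj : Stmt_Adj := by
  intro m k q K g T S hq hK hk hg hST hT
  have hq0 : (0 : ℝ) < q := by linarith
  have hkpos : (0 : ℝ) < k := by exact_mod_cast hk
  have hsk : 0 < Real.sqrt k := Real.sqrt_pos.2 hkpos
  have second : ∀ i x, inner ℝ (S (g i)) x ≤ K * vnorm q g x := by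
    intro i x
    rw [hST]
    exact ((le_abs_self _).trans (abs_inner_le_vnorm hq0 g (T x) i)).trans (hT x)
  refine ⟨?_, second⟩
  have hj : ∀ j : Fin m, ‖S (EuclideanSpace.single j 1)‖ ^ 2 ≤ (11 * K) ^ 2 := by
    intro j
    obtain ⟨i, hi⟩ := hg.1 j
    set y := S (EuclideanSpace.single j 1) with hy
    have h1 : Real.sqrt k * ‖y‖ ^ 2 ≤ K * (11 * Real.sqrt k * ‖y‖) := by
      have h2 := second i y
      rw [hi, map_smul, real_inner_smul_left, real_inner_self_eq_norm_sq] at h2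
      exact h2.trans (mul_le_mul_of_nonneg_left (vnorm_le hq (by positivity) g hg.2 y) hK)
    have h3 : ‖y‖ ^ 2 ≤ 11 * K * ‖y‖ := by
      have : Real.sqrt k * ‖y‖ ^ 2 ≤ Real.sqrt k * (11 * K * ‖y‖) := by linarith
      exact le_of_mul_le_mul_left this hsk
    have h4 : ‖y‖ ≤ 11 * K := by
      rcases eq_or_lt_of_le (norm_nonneg y) with h0 | h0
      · rw [← h0]; positivity
      · nlinarith
    exact pow_le_pow_left₀ (norm_nonneg _) h4 2
  calc hs S ≤ ∑ _j : Fin m, (11 * K) ^ 2 := Finset.sum_le_sum fun j _ => hj j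
    _ = (11 * K) ^ 2 * m := by simp [mul_comm]

end Pool.Agent.JohnsonSp
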