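import Mathlib

/-!
Definitions and exact module statements for the proof of the frozen statement S06184
(MP_cd3d85_an: a Johnson space with a closed subspace without Schauder basis).
Paper proof and hints: MP_cd3d85_PROOF.md in the team store.
-/

set_option autoImplicit false
open Filter Topology MeasureTheory ProbabilityTheory

namespace Pool.Agent.JohnsonSp

/-! ### Part A: elementary Johnson theorem -/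

/-- Net lemma. -/
def Stmt_Net : Prop :=
  ∀ (G : Type) [NormedAddCommGroup G] [NormedSpace ℝ G] [FiniteDimensional ℝ G],
    ∃ s : Finset G, s.card ≤ 5 ^ Module.finrank ℝ G ∧ (∀ y ∈ s, ‖y‖ ≤ 1) ∧
      ∀ x : G, ∃ c : G → ℝ, (∑ y ∈ s, |c y|) ≤ 2 * ‖x‖ ∧ ∑ y ∈ s, c y • y = x

/-- Lifting lemma. -/
def Stmt_Lift : Prop :=
  ∀ (Y : Type) [NormedAddCommGroup Y] [NormedSpace ℝ Y] (Y0 : Submodule ℝ Y) (d : ℕ),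
    IsClosed (Y0 : Set Y) → FiniteDimensional ℝ (Y ⧸ Y0) → Module.finrank ℝ (Y ⧸ Y0) ≤ d →
    ∃ B : Submodule ℝ Y, FiniteDimensional ℝ B ∧ Module.finrank ℝ B ≤ 5 ^ d ∧
      ∀ y : Y, ∃ b ∈ B, y - b ∈ Y0 ∧ ‖b‖ ≤ 3 * ‖y‖

/-- A good form for the subspace `G` of `Z`. -/
def GoodForm {Z : Type} [NormedAddCommGroup Z] [NormedSpace ℝ Z] (G : Submodule ℝ Z)
    (B : Z →ₗ[ℝ] Z →ₗ[ℝ] ℝ) : Prop :=
  (∀ x y, B x y = B y x) ∧ (∀ x, 0 ≤ B x x) ∧ (∀ x, B x x ≤ ‖x‖ ^ 2) ∧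
    ∀ x ∈ G, ‖x‖ ^ 2 ≤ 2 * B x x

/-- Every subspace of dimension at most `N` of `Z` has a good form. -/
def HF (Z : Type) [NormedAddCommGroup Z] [NormedSpace ℝ Z] (N : ℕ) : Prop :=
  ∀ G : Submodule ℝ Z, FiniteDimensional ℝ G → Module.finrank ℝ G ≤ N →
    ∃ B : Z →ₗ[ℝ] Z →ₗ[ℝ] ℝ, GoodForm G B

/-- Complementation. -/
def Stmt_Compl : Prop :=
  ∀ (Z : Type) [NormedAddCommGroup Z] [NormedSpace ℝ Z] (N : ℕ), HF Z N →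
    ∀ G : Submodule ℝ Z, FiniteDimensional ℝ G → Module.finrank ℝ G ≤ N →
      ∃ P : Z →L[ℝ] Z, (∀ x, P x ∈ G) ∧ (∀ x ∈ G, P x = x) ∧ ∀ x, ‖P x‖ ≤ 2 * ‖x‖

/-- Projection with prescribed kernel of finite codimension. -/
def Stmt_KerProj : Prop :=
  ∀ (Z : Type) [NormedAddCommGroup Z] [NormedSpace ℝ Z] (N d : ℕ), HF Z N → 5 ^ d ≤ N →
    ∀ Y' : Submodule ℝ Z, IsClosed (Y' : Set Z) → FiniteDimensional ℝ (Z ⧸ Y') →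
      Module.finrank ℝ (Z ⧸ Y') ≤ d →
      ∃ P : Z →L[ℝ] Z, (∀ x, P (P x) = P x) ∧ (∀ x, P x = 0 ↔ x ∈ Y') ∧ ∀ x, ‖P x‖ ≤ 5 * ‖x‖

/-- The inductive step for the finite-dimensional decomposition. -/
def Stmt_Step : Prop :=
  ∀ (Y : Type) [NormedAddCommGroup Y] [NormedSpace ℝ Y] (T : Y →L[ℝ] Y) (Y1 : Submodule ℝ Y)
    (h K N : ℕ) (x0 : Y),
    (∀ y, T (T y) = T y) → FiniteDimensional ℝ (LinearMap.range (T : Y →ₗ[ℝ] Y)) →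
    Module.finrank ℝ (LinearMap.range (T : Y →ₗ[ℝ] Y)) ≤ h →
    IsClosed (Y1 : Set Y) → FiniteDimensional ℝ (Y ⧸ Y1) → Module.finrank ℝ (Y ⧸ Y1) ≤ K →
    HF Y1 N → 5 ^ h ≤ N → 2 * h + 5 ^ K + 1 ≤ N →
    ∃ T' : Y →L[ℝ] Y, (∀ y, T' (T' y) = T' y) ∧
      FiniteDimensional ℝ (LinearMap.range (T' : Y →ₗ[ℝ] Y)) ∧
      Module.finrank ℝ (LinearMap.range (T' : Y →ₗ[ℝ] Y)) ≤ 2 * h + 5 ^ K + 1 ∧
      (∀ y, T' (T y) = T y) ∧ (∀ y, T (T' y) = T y) ∧ T' x0 = x0 ∧ ∀ y, ‖T' y‖ ≤ 100 * ‖y‖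

/-- Finite-dimensional decomposition in the sense of the frozen statement. -/
def HasFDD (E : Type) [NormedAddCommGroup E] [NormedSpace ℝ E] : Prop :=
  ∃ F : ℕ → Submodule ℝ E, (∀ n, FiniteDimensional ℝ (F n)) ∧
    ∀ x : E, ∃! y : ℕ → E, (∀ n, y n ∈ F n) ∧
      Tendsto (fun N => ∑ i ∈ Finset.range N, y i) atTop (𝓝 x)

/-- Uniform approximation property in the sense of the frozen statement. -/
def HasUAP (E : Type) [NormedAddCommGroup E] [NormedSpace ℝ E] : Prop :=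
  ∃ (C : ℝ) (f : ℕ → ℕ), ∀ G : Submodule ℝ E, FiniteDimensional ℝ G →
    ∃ T : E →L[ℝ] E, (∀ x ∈ G, T x = x) ∧ ‖T‖ ≤ C ∧
      FiniteDimensional ℝ (LinearMap.range (T : E →ₗ[ℝ] E)) ∧
      Module.finrank ℝ (LinearMap.range (T : E →ₗ[ℝ] E)) ≤ f (Module.finrank ℝ G)

/-- From commuting projections to an FDD. -/
def Stmt_FDD : Prop :=
  ∀ (Y : Type) [NormedAddCommGroup Y] [NormedSpace ℝ Y] (T : ℕ → Y →L[ℝ] Y) (C : ℝ),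
    (∀ n y, T n (T n y) = T n y) → (∀ n y, T (n + 1) (T n y) = T n y) →
    (∀ n y, T n (T (n + 1) y) = T n y) →
    (∀ n, FiniteDimensional ℝ (LinearMap.range (T n : Y →ₗ[ℝ] Y))) →
    (∀ n y, ‖T n y‖ ≤ C * ‖y‖) →
    (∀ y : Y, ∀ ε > 0, ∃ n z, T n z = z ∧ ‖y - z‖ < ε) → HasFDD Y

/-- Dimensions in the inductive construction. -/
def hseq (K : ℕ → ℕ) : ℕ → ℕ
  | 0 => 0
  | n + 1 => 2 * hseq K n + 5 ^ K (n + 1) + 1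

/-- Abstract form of Johnson's theorem. -/
def Stmt_A : Prop :=
  ∀ (Y : Type) [NormedAddCommGroup Y] [NormedSpace ℝ Y] [TopologicalSpace.SeparableSpace Y]
    (Z : ℕ → Submodule ℝ Y) (K N : ℕ → ℕ),
    (∀ n, IsClosed (Z n : Set Y)) → (∀ n, FiniteDimensional ℝ (Y ⧸ Z n)) →
    (∀ n, Module.finrank ℝ (Y ⧸ Z n) ≤ K n) → (∀ n, HF (Z n) (N n)) →
    (∀ n, 5 ^ hseq K n ≤ N (n + 1)) → (∀ n, hseq K (n + 1) ≤ N (n + 1)) →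
    (∀ n, n + 5 ^ K n ≤ N n) → HasFDD Y ∧ HasUAP Y

/-- The space of the frozen statement with exponents `ofReal (q n)`. -/
abbrev XS (k : ℕ → ℕ) (q : ℕ → ℝ) [∀ n, Fact (1 ≤ ENNReal.ofReal (q n))] : Type :=
  lp (fun n : ℕ => PiLp (ENNReal.ofReal (q n)) (fun _ : Fin (k n) => ℝ)) 2

/-- Tail subspaces. -/
def tail (k : ℕ → ℕ) (q : ℕ → ℝ) [∀ n, Fact (1 ≤ ENNReal.ofReal (q n))] (n : ℕ) :
    Submodule ℝ (XS k q) where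
  carrier := {x | ∀ l, l < n → x l = 0}
  add_mem' := by
    intro a b ha hb l hl
    simp [ha l hl, hb l hl]
  zero_mem' := by intro l hl; simp
  smul_mem' := by
    intro c a ha l hl
    simp [ha l hl]

/-- Good forms for subspaces of the tails. -/
def Stmt_Form : Prop :=
  ∀ (k : ℕ → ℕ) (q : ℕ → ℝ) [∀ n, Fact (1 ≤ ENNReal.ofReal (q n))] (n N : ℕ),
    (∀ l, 2 ≤ q l) → (∀ l, n ≤ l → (1 - 2 / q l) * (8 * 25 ^ N) ≤ 1) →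
    ∀ G : Submodule ℝ (XS k q), G ≤ tail k q n → FiniteDimensional ℝ G →
      Module.finrank ℝ G ≤ N → ∃ B : XS k q →ₗ[ℝ] XS k q →ₗ[ℝ] ℝ, GoodForm G B

/-- Separability of the concrete spaces. -/
def Stmt_Sep : Prop :=
  ∀ (k : ℕ → ℕ) (q : ℕ → ℝ) [∀ n, Fact (1 ≤ ENNReal.ofReal (q n))],
    TopologicalSpace.SeparableSpace (XS k q)

/-- Johnson's theorem for the concrete spaces. -/
def Stmt_Johnson : Prop :=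
  ∀ (k : ℕ → ℕ) (q : ℕ → ℝ) [∀ n, Fact (1 ≤ ENNReal.ofReal (q n))] (N : ℕ → ℕ),
    (∀ l, 2 ≤ q l) → (∀ n l, n ≤ l → (1 - 2 / q l) * (8 * 25 ^ N n) ≤ 1) →
    (∀ n, 5 ^ hseq (fun j => ∑ l ∈ Finset.range j, k l) n ≤ N (n + 1)) →
    (∀ n, hseq (fun j => ∑ l ∈ Finset.range j, k l) (n + 1) ≤ N (n + 1)) →
    (∀ n, n + 5 ^ (∑ l ∈ Finset.range n, k l) ≤ N n) →
    ∀ E : Submodule ℝ (XS k q), IsClosed (E : Set (XS k q)) → HasFDD E ∧ HasUAP E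

/-! ### Part B: bases and the reduction to finite dimensions -/

/-- Data coming from a Schauder basis: uniformly bounded partial sum projections. -/
def PartialSums {E : Type} [NormedAddCommGroup E] [NormedSpace ℝ E] (P : ℕ → E →L[ℝ] E)
    (C : ℝ) : Prop :=
  (∀ n x, ‖P n x‖ ≤ C * ‖x‖) ∧ P 0 = 0 ∧ (∀ n x, P n (P n x) = P n x) ∧
    (∀ n, ∃ (f : E →L[ℝ] ℝ) (u : E), ∀ x, P (n + 1) x = P n x + f x • u) ∧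
    ∀ x, Tendsto (fun n => P n x) atTop (𝓝 x)

/-- Boundedness of the partial sums of a basis (frozen form of a basis). -/
def Stmt_Basis : Prop :=
  ∀ (E : Type) [NormedAddCommGroup E] [NormedSpace ℝ E] [CompleteSpace E] (e : ℕ → E),
    (∀ x : E, ∃! a : ℕ → ℝ,
      Tendsto (fun N => ∑ i ∈ Finset.range N, a i • e i) atTop (𝓝 x)) →
    ∃ (P : ℕ → E →L[ℝ] E) (C : ℝ), PartialSums P C

/-- Subspaces of a space isomorphic to `ℓ²` have a basis. -/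
def Stmt_Hilb : Prop :=
  ∀ (X : Type) [NormedAddCommGroup X] [NormedSpace ℝ X]
    (_ : X ≃L[ℝ] lp (fun _ : ℕ => ℝ) 2) (E : Submodule ℝ X), IsClosed (E : Set X) →
    ¬ FiniteDimensional ℝ E →
    ∃ e : ℕ → E, ∀ x : E, ∃! a : ℕ → ℝ,
      Tendsto (fun N => ∑ i ∈ Finset.range N, a i • e i) atTop (𝓝 x)

abbrev Eu (m : ℕ) : Type := EuclideanSpace ℝ (Fin m)

/-- The norm of `(⟨g_i, x⟩)_i` in `ℓ_q`. -/
noncomputable def vnorm {m k : ℕ} (q : ℝ) (g : Fin k → Eu m) (x : Eu m) : ℝ :=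
  (∑ i, |inner ℝ (g i) x| ^ q) ^ (1 / q)

/-- The configuration that has to be excluded. -/
def Bad {m k : ℕ} (K : ℝ) (d : ℕ) (q : ℝ) (g : Fin k → Eu m) : Prop :=
  ∃ (s : ℕ) (T R : Eu m →ₗ[ℝ] Eu m) (a : Eu m →ₗ[ℝ] Eu s) (b : Eu s →ₗ[ℝ] Eu m),
    (∀ x, vnorm q g (T x) ≤ K * vnorm q g x) ∧
    |LinearMap.trace ℝ (Eu m) T - m / 2| ≤ 2 * K ∧
    (∀ x, T x - T (T x) = R x + b (a x)) ∧ Module.finrank ℝ (LinearMap.range R) ≤ d ∧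
    (∀ x, ‖a x‖ ≤ K * vnorm q g x) ∧ ∀ z, vnorm q g (b z) ≤ 2 * K * ‖z‖

/-- The subspace without basis. -/
def ESub (k m : ℕ → ℕ) (q : ℕ → ℝ) [∀ n, Fact (1 ≤ ENNReal.ofReal (q n))]
    (g : ∀ n, Fin (k n) → Eu (m n)) : Submodule ℝ (XS k q) where
  carrier := {x | ∀ n, ∃ y : Eu (m n), ∀ i, (x n) i = inner ℝ (g n i) y}
  add_mem' := by
    intro a b ha hb n
    obtain ⟨y, hy⟩ := ha n
    obtain ⟨z, hz⟩ := hb n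
    refine ⟨y + z, fun i => ?_⟩
    rw [inner_add_right, ← hy, ← hz]
    simp
  zero_mem' := by
    intro n
    exact ⟨0, fun i => by simp⟩
  smul_mem' := by
    intro c a ha n
    obtain ⟨y, hy⟩ := ha n
    refine ⟨c • y, fun i => ?_⟩
    rw [inner_smul_right, ← hy]
    simp

/-- `ESub` is closed and infinite-dimensional. -/
def Stmt_ESub : Prop :=
  ∀ (k m : ℕ → ℕ) (q : ℕ → ℝ) [∀ n, Fact (1 ≤ ENNReal.ofReal (q n))]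
    (g : ∀ n, Fin (k n) → Eu (m n)), (∀ n, 1 ≤ m n) →
    (∀ n x, (∀ i, inner ℝ (g n i) x = 0) → x = 0) →
    IsClosed (ESub k m q g : Set (XS k q)) ∧ ¬ FiniteDimensional ℝ (ESub k m q g)

/-- Reduction: a basis of `ESub` produces a bad configuration. -/
def Stmt_Red : Prop :=
  ∀ (k m : ℕ → ℕ) (q : ℕ → ℝ) [∀ n, Fact (1 ≤ ENNReal.ofReal (q n))]
    (g : ∀ n, Fin (k n) → Eu (m n)) (n d : ℕ) (K : ℝ), 0 ≤ K → (∀ l, 2 ≤ q l) →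
    (∀ l x, (∀ i, inner ℝ (g l i) x = 0) → x = 0) →
    (∀ G : Submodule ℝ (XS k q), G ≤ tail k q (n + 1) → FiniteDimensional ℝ G →
      Module.finrank ℝ G ≤ m n → ∃ B : XS k q →ₗ[ℝ] XS k q →ₗ[ℝ] ℝ, GoodForm G B) →
    (∑ l ∈ Finset.range n, m l) ≤ d →
    ∀ P : ℕ → ESub k m q g →L[ℝ] ESub k m q g, PartialSums P K → Bad K d (q n) (g n)

/-! ### Part C: the finite-dimensional theorem -/

/-- Operator norm bound of the matrix with columns `g`. -/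
def OpB {m k : ℕ} (g : Fin k → Eu m) (R : ℝ) : Prop :=
  ∀ c : Fin k → ℝ, ‖∑ i, c i • g i‖ ≤ R * Real.sqrt (∑ i, c i ^ 2)

/-- Square of the Hilbert-Schmidt norm. -/
noncomputable def hs {m s : ℕ} (S : Eu m →ₗ[ℝ] Eu s) : ℝ :=
  ∑ j, ‖S (EuclideanSpace.single j 1)‖ ^ 2

/-- Triangular pairs of orthonormal families. -/
def Tri {m : ℕ} (r : ℕ) (η : ℝ) (S : Eu m →ₗ[ℝ] Eu m) : Prop :=
  ∃ h v : Fin r → Eu m, Orthonormal ℝ h ∧ Orthonormal ℝ v ∧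
    (∀ i j, inner ℝ (h i) (v j) = 0) ∧
    (∀ i j, j < i → inner ℝ (v i) (S (h j)) = 0) ∧ ∀ i, η ≤ inner ℝ (v i) (S (h i))

/-- Hilbert-Schmidt norm and orthonormal families. -/
def Stmt_HS : Prop :=
  ∀ (m s n : ℕ) (S : Eu m →ₗ[ℝ] Eu s) (f : Fin n → Eu m), Orthonormal ℝ f →
    ∑ i, ‖S (f i)‖ ^ 2 ≤ hs S

/-- Greedy lemma. -/
def Stmt_Greedy : Prop :=
  ∀ (m r : ℕ) (η : ℝ) (S : Eu m →ₗ[ℝ] Eu m), 0 < η → Tri r η S ∨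
    ∃ L : Submodule ℝ (Eu m), Module.finrank ℝ L ≤ 2 * r ∧
      ∀ x ∈ Lᗮ, ‖x‖ = 1 → ∀ y ∈ Lᗮ,
        |inner ℝ (S x) y - inner ℝ (S x) x * inner ℝ x y| ≤ η * ‖y‖

/-- An operator for which all unit vectors are nearly eigenvectors is nearly scalar. -/
def Stmt_Near : Prop :=
  ∀ (m : ℕ) (η : ℝ) (S : Eu m →ₗ[ℝ] Eu m) (L : Submodule ℝ (Eu m)), 0 < η →
    3 ≤ Module.finrank ℝ (Lᗮ : Submodule ℝ (Eu m)) →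
    (∀ x ∈ Lᗮ, ‖x‖ = 1 → ∀ y ∈ Lᗮ,
        |inner ℝ (S x) y - inner ℝ (S x) x * inner ℝ x y| ≤ η * ‖y‖) →
    ∃ lam : ℝ, ∀ x ∈ Lᗮ, ∀ y ∈ Lᗮ,
      |inner ℝ (S x) y - lam * inner ℝ x y| ≤ 15 * η * ‖x‖ * ‖y‖

/-- Trace estimates. -/
def Stmt_Trace : Prop :=
  ∀ (m l d : ℕ) (η lam R τ : ℝ) (S R1 W : Eu m →ₗ[ℝ] Eu m) (L : Submodule ℝ (Eu m)),
    0 < η → 15 * η ≤ 1 → 0 ≤ R → 1 ≤ m → Module.finrank ℝ L ≤ l → 4 * l + 2 * d ≤ m →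
    hs S ≤ R ^ 2 * m →
    (∀ x ∈ Lᗮ, ∀ y ∈ Lᗮ, |inner ℝ (S x) y - lam * inner ℝ x y| ≤ 15 * η * ‖x‖ * ‖y‖) →
    (∀ x, S x - S (S x) = R1 x + W x) → Module.finrank ℝ (LinearMap.range R1) ≤ d →
    (∀ (n : ℕ) (f : Fin n → Eu m), Orthonormal ℝ f → |∑ i, inner ℝ (W (f i)) (f i)| ≤ τ * m) →
    |lam - lam ^ 2| ≤ 2 * τ + 15 * η * (4 * R + 4) ∧
    |LinearMap.trace ℝ (Eu m) S - lam * m| ≤ 15 * η * m + |lam| * l + R * Real.sqrt (l * m)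

/-- Geometry of the columns: `g` contains `√k e_j` and has operator norm at most `11 √k`. -/
def Cols {m k : ℕ} (g : Fin k → Eu m) : Prop :=
  (∀ j : Fin m, ∃ i, g i = Real.sqrt k • EuclideanSpace.single j 1) ∧
    OpB g (11 * Real.sqrt k)

/-- Hilbert-Schmidt bound for operators from `vnorm` to a Hilbert space. -/
def Stmt_HSa : Prop :=
  ∀ (m k s : ℕ) (q D K : ℝ) (g : Fin k → Eu m) (a : Eu m →ₗ[ℝ] Eu s), 2 ≤ q → q ≤ 4 → 0 < D →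
    0 ≤ K → (k : ℝ) ^ (1 / 2 - 1 / q) = D → Cols g → (∀ x, ‖a x‖ ≤ K * vnorm q g x) →
    hs a ≤ Real.sqrt 3 * 121 * K ^ 2 * k ^ 2 / D ^ 2

/-- Hilbert-Schmidt bounds for adjoints. -/
def Stmt_HSb : Prop :=
  ∀ (m k s : ℕ) (q K : ℝ) (g : Fin k → Eu m) (b : Eu s →ₗ[ℝ] Eu m) (bt : Eu m →ₗ[ℝ] Eu s),
    2 ≤ q → 0 ≤ K → 1 ≤ k → Cols g → (∀ x z, inner ℝ (bt x) z = inner ℝ x (b z)) →
    (∀ z, vnorm q g (b z) ≤ 2 * K * ‖z‖) → hs bt ≤ 4 * K ^ 2 * m / k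

/-- The properties of the adjoint operator. -/
def BadS {m k : ℕ} (K : ℝ) (q : ℝ) (g : Fin k → Eu m) (S : Eu m →ₗ[ℝ] Eu m) : Prop :=
  hs S ≤ (11 * K) ^ 2 * m ∧ ∀ i x, inner ℝ (S (g i)) x ≤ K * vnorm q g x

/-- Bounds for the adjoint of a bounded operator. -/
def Stmt_Adj : Prop :=
  ∀ (m k : ℕ) (q K : ℝ) (g : Fin k → Eu m) (T S : Eu m →ₗ[ℝ] Eu m), 2 ≤ q → 0 ≤ K → 1 ≤ k →
    Cols g → (∀ x y, inner ℝ (S x) y = inner ℝ x (T y)) →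
    (∀ x, vnorm q g (T x) ≤ K * vnorm q g x) → BadS K q g S

/-- Deterministic part. -/
def Stmt_Det : Prop :=
  ∀ K : ℝ, 1 ≤ K → ∃ δ η : ℝ, 0 < δ ∧ δ ≤ 1 / 16 ∧ 0 < η ∧ ∀ A : ℕ, 1 ≤ A →
    ∃ D0 : ℝ, 1 < D0 ∧ ∀ D ≥ D0, ∀ d : ℕ, ∃ m0 : ℕ, ∀ m ≥ m0, ∀ q : ℝ, 2 < q → q ≤ 4 →
      ((A * m : ℕ) : ℝ) ^ (1 / 2 - 1 / q) = D → ∀ g : Fin (A * m) → Eu m, Cols g →
      Bad K d q g → ∃ S : Eu m →ₗ[ℝ] Eu m, Tri ⌊δ * m⌋₊ η S ∧ BadS K q g S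

/-- Duality. -/
def Stmt_Dual : Prop :=
  ∀ (m k : ℕ) (q q' K : ℝ) (g : Fin k → Eu m) (z : Eu m), 2 ≤ q → 1 / q + 1 / q' = 1 → 0 ≤ K →
    (∀ x, inner ℝ z x ≤ K * vnorm q g x) →
    ∃ c : Fin k → ℝ, (∑ i, |c i| ^ q') ≤ 1 ∧ z = K • ∑ i, c i • g i

/-- Nets inside subsets of Euclidean balls. -/
def Stmt_NetE : Prop :=
  ∀ (ι : Type) [Fintype ι] (A : Set (EuclideanSpace ℝ ι)) (R ε : ℝ), 0 ≤ R → 0 < ε →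
    (∀ x ∈ A, ‖x‖ ≤ R) →
    ∃ s : Finset (EuclideanSpace ℝ ι), (s : Set (EuclideanSpace ℝ ι)) ⊆ A ∧
      (s.card : ℝ) ≤ (1 + 2 * R / ε) ^ Fintype.card ι ∧ ∀ x ∈ A, ∃ y ∈ s, ‖x - y‖ ≤ ε

/-- Nets for sets of operators in Hilbert-Schmidt norm. -/
def Stmt_NetHS : Prop :=
  ∀ (m : ℕ) (𝒜 : Set (Eu m →ₗ[ℝ] Eu m)) (R ε : ℝ), 0 ≤ R → 0 < ε → (∀ S ∈ 𝒜, hs S ≤ R ^ 2) →
    ∃ s : Finset (Eu m →ₗ[ℝ] Eu m), (s : Set (Eu m →ₗ[ℝ] Eu m)) ⊆ 𝒜 ∧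
      (s.card : ℝ) ≤ (1 + 2 * R / ε) ^ (m * m) ∧ ∀ S ∈ 𝒜, ∃ S' ∈ s, hs (S - S') ≤ ε ^ 2

/-- Covering of the unit ball of `ℓ_{q'}^k` by few Euclidean balls. -/
def Stmt_Cover : Prop :=
  ∀ (k t : ℕ) (q q' D : ℝ), 1 ≤ t → t ≤ k → 2 ≤ q → 1 / q + 1 / q' = 1 → 1 ≤ D →
    (k : ℝ) ^ (1 / 2 - 1 / q) = D → ((k : ℝ) / t) ^ (1 / 2 - 1 / q) ≤ 2 →
    ∃ s : Finset (Fin k → ℝ), (s.card : ℝ) ≤ 2 ^ k * (3 * D) ^ t ∧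
      ∀ c : Fin k → ℝ, (∑ i, |c i| ^ q') ≤ 1 →
        ∃ c' ∈ s, Real.sqrt (∑ i, (c i - c' i) ^ 2) ≤ 3 / D

/-- The law of a Gaussian matrix (as a sequence of independent standard Gaussian columns). -/
noncomputable def gm (m n : ℕ) : Measure (Fin n → Eu m) := Measure.pi fun _ => stdGaussian (Eu m)

/-- Operator norm of a Gaussian matrix. -/
def Stmt_OpNorm : Prop :=
  ∀ m n : ℕ, 1 ≤ m → 1 ≤ n →
    gm m n {G | ¬ OpB G (10 * Real.sqrt (m + n))} ≤ 1 / 2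

/-- Small ball estimate. -/
def Stmt_Ball : Prop :=
  ∀ (m n r : ℕ) (η ρ : ℝ) (S : Eu m →ₗ[ℝ] Eu m) (I : Finset (Fin n)) (c : Fin n → Fin n → ℝ)
    (z : Fin n → Eu m), 1 ≤ r → 0 < η → 0 < ρ → Tri r η S →
    gm m n {G | ∀ i ∈ I, ‖S (G i) - (∑ j, c i j • G j) - z i‖ ≤ ρ} ≤
      ENNReal.ofReal ((Real.sqrt (Real.exp 1) * ρ / (η * Real.sqrt r)) ^ (r * I.card))

/-- Probabilistic part. -/
def Stmt_Prob : Prop :=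
  ∀ K δ η : ℝ, 1 ≤ K → 0 < δ → δ ≤ 1 / 16 → 0 < η → ∃ A : ℕ, 2 ≤ A ∧ ∃ D1 : ℝ, 1 < D1 ∧
    ∀ D ≥ D1, ∃ m1 : ℕ, ∀ m ≥ m1, ∀ q : ℝ, 2 < q → q ≤ 4 →
      ((A * m : ℕ) : ℝ) ^ (1 / 2 - 1 / q) = D →
      ∃ g : Fin (A * m) → Eu m, Cols g ∧ ¬ ∃ S : Eu m →ₗ[ℝ] Eu m, Tri ⌊δ * m⌋₊ η S ∧ BadS K q g S

/-- The finite-dimensional theorem. -/
def Stmt_Fin : Prop :=
  ∀ K : ℝ, 1 ≤ K → ∃ (A : ℕ) (D : ℝ), 2 ≤ A ∧ 1 < D ∧ ∀ d : ℕ, ∃ m0 : ℕ, ∀ m ≥ m0, ∀ q : ℝ,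
    2 < q → q ≤ 4 → ((A * m : ℕ) : ℝ) ^ (1 / 2 - 1 / q) = D →
    ∃ g : Fin (A * m) → Eu m, (∀ x, (∀ i, inner ℝ (g i) x = 0) → x = 0) ∧ ¬ Bad K d q g

/-- The choice of all parameters. -/
def Stmt_Seq : Prop :=
  ∃ (k m N : ℕ → ℕ) (q : ℕ → ℝ) (g : ∀ n, Fin (k n) → Eu (m n)),
    Tendsto k atTop atTop ∧ Tendsto q atTop (𝓝 2) ∧ (∀ n, 2 ≤ q n) ∧ (∀ n, 1 ≤ m n) ∧
    (∀ n l, n ≤ l → (1 - 2 / q l) * (8 * 25 ^ N n) ≤ 1) ∧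
    (∀ n, 5 ^ hseq (fun j => ∑ l ∈ Finset.range j, k l) n ≤ N (n + 1)) ∧
    (∀ n, hseq (fun j => ∑ l ∈ Finset.range j, k l) (n + 1) ≤ N (n + 1)) ∧
    (∀ n, n + 5 ^ (∑ l ∈ Finset.range n, k l) ≤ N n) ∧ (∀ n, m n ≤ N (n + 1)) ∧
    (∀ n x, (∀ i, inner ℝ (g n i) x = 0) → x = 0) ∧
    ∀ n : ℕ, ¬ Bad ((n : ℝ) + 1) (∑ l ∈ Finset.range n, m l) (q n) (g n)

end Pool.Agent.JohnsonSp
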