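import Mathlib
import Pool.Agent.JohnsonSp.Defs

set_option autoImplicit false
open Filter Topology MeasureTheory ProbabilityTheory
open scoped ENNReal RealInnerProductSpace

namespace Pool.Agent.JohnsonSp

/-- one-dimensional estimate -/
theorem ball_one_dim (s M a : ℝ) (hs : 0 < s) (hM : 0 < M) :
    ∫⁻ t, ENNReal.ofReal (Real.exp (-s * (a + t * M) ^ 2)) ∂(gaussianReal 0 1) ≤
      ENNReal.ofReal (1 / (Real.sqrt (2 * s) * M)) := by
  have hb : 0 < s * M ^ 2 := by positivity
  have h1 : ∀ t : ℝ, Real.exp (-s * (a + t * M) ^ 2) =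
      Real.exp (-(s * M ^ 2) * (t + a / M) ^ 2) := by
    intro t
    congr 1
    field_simp
    ring
  have h2 : ∫⁻ t : ℝ, ENNReal.ofReal (Real.exp (-s * (a + t * M) ^ 2)) =
      ENNReal.ofReal (Real.sqrt (Real.pi / (s * M ^ 2))) := by
    simp_rw [h1]
    rw [lintegral_add_right_eq_self
      (fun t : ℝ => ENNReal.ofReal (Real.exp (-(s * M ^ 2) * t ^ 2))) (a / M)]
    rw [← ofReal_integral_eq_lintegral_ofReal (integrable_exp_neg_mul_sq hb)
      (Filter.Eventually.of_forall fun t => (Real.exp_pos _).le)]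
    rw [integral_gaussian]
  have hmeas : Measurable (fun t : ℝ => ENNReal.ofReal (Real.exp (-s * (a + t * M) ^ 2))) := by
    fun_prop
  rw [gaussianReal_of_var_ne_zero 0 one_ne_zero,
    lintegral_withDensity_eq_lintegral_mul _ (measurable_gaussianPDF 0 1) hmeas]
  calc ∫⁻ t, (gaussianPDF 0 1 * fun t : ℝ => ENNReal.ofReal (Real.exp (-s * (a + t * M) ^ 2))) t
      ≤ ∫⁻ t : ℝ, ENNReal.ofReal (1 / Real.sqrt (2 * Real.pi)) *
          ENNReal.ofReal (Real.exp (-s * (a + t * M) ^ 2)) := by
        refine lintegral_mono fun t => ?_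
        simp only [Pi.mul_apply]
        gcongr
        unfold gaussianPDF gaussianPDFReal
        apply ENNReal.ofReal_le_ofReal
        simp only [NNReal.coe_one, mul_one, sub_zero, one_div]
        have : Real.exp (-t ^ 2 / 2) ≤ 1 := by
          rw [Real.exp_le_one_iff]
          have := sq_nonneg t
          linarith
        have h3 : 0 ≤ (Real.sqrt (2 * Real.pi))⁻¹ := by positivity
        nlinarith
    _ = ENNReal.ofReal (1 / Real.sqrt (2 * Real.pi)) *
          ENNReal.ofReal (Real.sqrt (Real.pi / (s * M ^ 2))) := by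
        rw [lintegral_const_mul _ hmeas, h2]
    _ = ENNReal.ofReal (1 / (Real.sqrt (2 * s) * M)) := by
        rw [← ENNReal.ofReal_mul (by positivity)]
        congr 1
        rw [Real.sqrt_div' _ hb.le, Real.sqrt_mul hs.le, Real.sqrt_sq hM.le,
          Real.sqrt_mul (by norm_num : (0:ℝ) ≤ 2), Real.sqrt_mul (by norm_num : (0:ℝ) ≤ 2)]
        have := Real.sqrt_pos.2 Real.pi_pos
        have := Real.sqrt_pos.2 hs
        have : 0 < Real.sqrt 2 := by positivity
        field_simp

/-- resampling one coordinate of a standard Gaussian -/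
theorem ball_resample {m : ℕ} (h : Eu m) (hh : ‖h‖ = 1) :
    ((stdGaussian (Eu m)).map (fun y => y - ⟪h, y⟫ • h)) ∗
      ((gaussianReal 0 1).map (fun t : ℝ => t • h)) = stdGaussian (Eu m) := by
  have hm1 : Measurable (fun y : Eu m => y - ⟪h, y⟫ • h) := by fun_prop
  have hm2 : Measurable (fun t : ℝ => t • h) := by fun_prop
  have : IsProbabilityMeasure ((stdGaussian (Eu m)).map (fun y => y - ⟪h, y⟫ • h)) :=
    Measure.isProbabilityMeasure_map hm1.aemeasurable
  have : IsProbabilityMeasure ((gaussianReal 0 1).map (fun t : ℝ => t • h)) :=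
    Measure.isProbabilityMeasure_map hm2.aemeasurable
  apply Measure.ext_of_charFun
  ext u
  rw [charFun_conv]
  have h1 : charFun ((stdGaussian (Eu m)).map (fun y => y - ⟪h, y⟫ • h)) u =
      charFun (stdGaussian (Eu m)) (u - ⟪h, u⟫ • h) := by
    rw [charFun_apply, charFun_apply, integral_map hm1.aemeasurable
      (Measurable.aestronglyMeasurable (by fun_prop))]
    congr 1
    ext y
    congr 3
    rw [inner_sub_left, inner_sub_right, real_inner_smul_left, real_inner_smul_right,
      real_inner_comm y h]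
    ring
  have h2 : charFun ((gaussianReal 0 1).map (fun t : ℝ => t • h)) u =
      charFun (gaussianReal 0 1) ⟪h, u⟫ := by
    rw [charFun_apply, charFun_apply_real, integral_map hm2.aemeasurable
      (Measurable.aestronglyMeasurable (by fun_prop))]
    congr 1
    ext y
    congr 2
    rw [real_inner_smul_left]
    push_cast
    ring
  rw [h1, h2, charFun_stdGaussian, charFun_stdGaussian, charFun_gaussianReal, ← Complex.exp_add]
  congr 1
  have h3 : ‖u - ⟪h, u⟫ • h‖ ^ 2 = ‖u‖ ^ 2 - ⟪h, u⟫ ^ 2 := by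
    rw [norm_sub_sq_real, real_inner_smul_right, norm_smul, hh, real_inner_comm u h, mul_one,
      Real.norm_eq_abs, sq_abs]
    ring
  rw [← Complex.ofReal_pow, h3]
  push_cast
  ring

/-- the one-step inequality in one copy of the Gaussian space -/
theorem ball_step1 {m : ℕ} (h : Eu m) (hh : ‖h‖ = 1) (φ : Eu m → ℝ≥0∞) (ψ : Eu m → ℝ) (M η s : ℝ)
    (hs : 0 < s) (hη : 0 < η) (hM : η ≤ M) (hφ : Measurable φ) (hψ : Measurable ψ)
    (hφ' : ∀ y (t : ℝ), φ (y + t • h) = φ y) (hψ' : ∀ y (t : ℝ), ψ (y + t • h) = ψ y + t * M) :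
    ∫⁻ y, φ y * ENNReal.ofReal (Real.exp (-s * ψ y ^ 2)) ∂(stdGaussian (Eu m)) ≤
      ENNReal.ofReal (1 / (Real.sqrt (2 * s) * η)) * ∫⁻ y, φ y ∂(stdGaussian (Eu m)) := by
  have hm1 : Measurable (fun y : Eu m => y - ⟪h, y⟫ • h) := by fun_prop
  have hm2 : Measurable (fun t : ℝ => t • h) := by fun_prop
  have : IsProbabilityMeasure ((stdGaussian (Eu m)).map (fun y => y - ⟪h, y⟫ • h)) :=
    Measure.isProbabilityMeasure_map hm1.aemeasurable
  have : IsProbabilityMeasure ((gaussianReal 0 1).map (fun t : ℝ => t • h)) :=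
    Measure.isProbabilityMeasure_map hm2.aemeasurable
  have hM0 : 0 < M := lt_of_lt_of_le hη hM
  have hF : Measurable (fun y => φ y * ENNReal.ofReal (Real.exp (-s * ψ y ^ 2))) := by fun_prop
  set μ := ((stdGaussian (Eu m)).map (fun y => y - ⟪h, y⟫ • h)) with hμ
  set ν := ((gaussianReal 0 1).map (fun t : ℝ => t • h)) with hν
  have e1 : ∫⁻ y, φ y * ENNReal.ofReal (Real.exp (-s * ψ y ^ 2)) ∂(stdGaussian (Eu m)) =
      ∫⁻ y, ∫⁻ z, φ (y + z) * ENNReal.ofReal (Real.exp (-s * ψ (y + z) ^ 2)) ∂ν ∂μ := by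
    conv_lhs => rw [← ball_resample h hh]
    rw [Measure.lintegral_conv hF]
  have e2 : ∫⁻ y, φ y ∂(stdGaussian (Eu m)) = ∫⁻ y, φ y ∂μ := by
    rw [hμ, lintegral_map hφ hm1]
    congr 1
    ext y
    rw [sub_eq_add_neg, ← neg_smul, hφ']
  rw [e1, e2, ← lintegral_const_mul _ hφ]
  refine lintegral_mono fun y => ?_
  have hF2 : Measurable fun z => φ (y + z) * ENNReal.ofReal (Real.exp (-s * ψ (y + z) ^ 2)) :=
    hF.comp (measurable_const_add y)
  rw [hν, lintegral_map hF2 hm2]
  simp_rw [hφ', hψ']
  rw [lintegral_const_mul _ (by fun_prop), mul_comm]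
  gcongr
  refine (ball_one_dim s M (ψ y) hs hM0).trans ?_
  apply ENNReal.ofReal_le_ofReal
  gcongr

/-- the one-step inequality for the Gaussian matrix -/
theorem ball_step {m n : ℕ} (i : Fin n) (h : Eu m) (hh : ‖h‖ = 1) (φ : (Fin n → Eu m) → ℝ≥0∞)
    (ψ : (Fin n → Eu m) → ℝ) (M η s : ℝ)
    (hs : 0 < s) (hη : 0 < η) (hM : η ≤ M) (hφ : Measurable φ) (hψ : Measurable ψ)
    (hφ' : ∀ G (t : ℝ), φ (Function.update G i (G i + t • h)) = φ G)
    (hψ' : ∀ G (t : ℝ), ψ (Function.update G i (G i + t • h)) = ψ G + t * M) :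
    ∫⁻ G, φ G * ENNReal.ofReal (Real.exp (-s * ψ G ^ 2)) ∂(gm m n) ≤
      ENNReal.ofReal (1 / (Real.sqrt (2 * s) * η)) * ∫⁻ G, φ G ∂(gm m n) := by
  rw [← lintegral_const_mul _ hφ]
  unfold gm
  refine lintegral_le_of_lmarginal_le (μ := fun _ => stdGaussian (Eu m)) {i}
    (f := fun G => φ G * ENNReal.ofReal (Real.exp (-s * ψ G ^ 2)))
    (g := fun G => ENNReal.ofReal (1 / (Real.sqrt (2 * s) * η)) * φ G)
    (by fun_prop) (by fun_prop) ?_
  rw [lmarginal_singleton, lmarginal_singleton]
  intro G
  have hu : Measurable (fun y : Eu m => Function.update G i y) := measurable_update G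
  have key := ball_step1 h hh (fun y => φ (Function.update G i y))
    (fun y => ψ (Function.update G i y)) M η s hs hη hM (hφ.comp hu) (hψ.comp hu)
    (fun y t => by
      have := hφ' (Function.update G i y) t
      simpa using this)
    (fun y t => by
      have := hψ' (Function.update G i y) t
      simpa using this)
  have hφu : Measurable (fun y : Eu m => φ (Function.update G i y)) := hφ.comp hu
  rw [← lintegral_const_mul _ hφu] at key
  exact key

theorem Ball : Stmt_Ball := by
  intro m n r η ρ S I c z hr hη hρ hT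
  obtain ⟨h, v, hh, hv, hhv, hlow, hdiag⟩ := hT
  have hr0 : (0 : ℝ) < r := by exact_mod_cast hr
  set s : ℝ := r / (2 * ρ ^ 2) with hs_def
  have hs : 0 < s := by positivity
  set X : Fin n × Fin r → (Fin n → Eu m) → ℝ := fun p G =>
    ⟪v p.2, S (G p.1) - (∑ j, c p.1 j • G j) - z p.1⟫ with hX
  have hScont : Continuous S := S.continuous_of_finiteDimensional
  have hXm : ∀ p, Measurable (X p) := by
    intro p
    have h1 : Measurable (fun G : Fin n → Eu m => S (G p.1)) :=
      hScont.measurable.comp (measurable_pi_apply _)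
    have h2 : Measurable (fun G : Fin n → Eu m => ∑ j, c p.1 j • G j) := by
      fun_prop
    exact Measurable.const_inner ((h1.sub h2).sub measurable_const)
  -- how the coordinates change
  have hupd : ∀ (p : Fin n × Fin r) (i : Fin n) (a : Fin r) (G : Fin n → Eu m) (t : ℝ),
      X p (Function.update G i (G i + t • h a)) =
        X p G + (if p.1 = i then t * ⟪v p.2, S (h a)⟫ else 0) := by
    intro p i a G t
    have e1 : S (Function.update G i (G i + t • h a) p.1) =
        S (G p.1) + (if p.1 = i then t • S (h a) else 0) := by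
      by_cases hpi : p.1 = i
      · rw [if_pos hpi, hpi, Function.update_self, map_add, map_smul]
      · rw [if_neg hpi, Function.update_of_ne hpi, add_zero]
    have e2 : (∑ j, c p.1 j • Function.update G i (G i + t • h a) j) =
        (∑ j, c p.1 j • G j) + (c p.1 i * t) • h a := by
      have : ∀ j, c p.1 j • Function.update G i (G i + t • h a) j =
          c p.1 j • G j + (if j = i then (c p.1 i * t) • h a else 0) := by
        intro j
        by_cases hj : j = i
        · subst hj
          rw [if_pos rfl, Function.update_self, smul_add, smul_smul]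
        · rw [if_neg hj, Function.update_of_ne hj, add_zero]
      simp_rw [this]
      rw [Finset.sum_add_distrib]
      simp
    simp only [hX]
    rw [e1, e2]
    have e3 : S (G p.1) + (if p.1 = i then t • S (h a) else 0) -
        ((∑ j, c p.1 j • G j) + (c p.1 i * t) • h a) - z p.1 =
        (S (G p.1) - (∑ j, c p.1 j • G j) - z p.1) +
          ((if p.1 = i then t • S (h a) else 0) - (c p.1 i * t) • h a) := by abel
    rw [e3, inner_add_right]
    have e4 : ⟪v p.2, (if p.1 = i then t • S (h a) else 0) - (c p.1 i * t) • h a⟫ =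
        ⟪v p.2, (if p.1 = i then t • S (h a) else 0)⟫ := by
      rw [inner_sub_right, real_inner_smul_right,
        real_inner_comm (h a) (v p.2), hhv, mul_zero, sub_zero]
    rw [e4]
    congr 1
    split_ifs
    · rw [real_inner_smul_right]
    · rw [inner_zero_right]
  set C : ℝ≥0∞ := ENNReal.ofReal (1 / (Real.sqrt (2 * s) * η)) with hC
  have main : ∀ J : Finset (Fin n × Fin r),
      ∫⁻ G, ∏ p ∈ J, ENNReal.ofReal (Real.exp (-s * X p G ^ 2)) ∂(gm m n) ≤ C ^ J.card := by
    intro J
    induction J using Finset.induction_on_min_value (f := fun p : Fin n × Fin r => p.2) with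
    | empty =>
      have : IsProbabilityMeasure (gm m n) := by
        unfold gm; infer_instance
      simp
    | insert a J haJ hmin ih =>
      rw [Finset.card_insert_of_notMem haJ, pow_succ']
      have e : ∀ G, ∏ p ∈ insert a J, ENNReal.ofReal (Real.exp (-s * X p G ^ 2)) =
          (∏ p ∈ J, ENNReal.ofReal (Real.exp (-s * X p G ^ 2))) *
            ENNReal.ofReal (Real.exp (-s * X a G ^ 2)) := by
        intro G
        rw [Finset.prod_insert haJ, mul_comm]
      simp_rw [e]
      refine (ball_step a.1 (h a.2) (hh.1 a.2)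
        (fun G => ∏ p ∈ J, ENNReal.ofReal (Real.exp (-s * X p G ^ 2))) (X a)
        ⟪v a.2, S (h a.2)⟫ η s hs hη (hdiag a.2) ?_ (hXm a) ?_ ?_).trans ?_
      · refine Finset.measurable_prod _ fun p _ => ?_
        have := hXm p
        fun_prop
      · intro G t
        refine Finset.prod_congr rfl fun p hp => ?_
        rw [hupd p a.1 a.2 G t]
        have : (if p.1 = a.1 then t * ⟪v p.2, S (h a.2)⟫ else 0) = 0 := by
          split_ifs with hpa
          · have hne : p.2 ≠ a.2 := by
              intro h2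
              exact haJ ((Prod.ext hpa h2 : p = a) ▸ hp)
            have hlt : a.2 < p.2 := lt_of_le_of_ne (hmin p hp) (Ne.symm hne)
            rw [hlow p.2 a.2 hlt, mul_zero]
          · rfl
        rw [this, add_zero]
      · intro G t
        rw [hupd a a.1 a.2 G t, if_pos rfl]
      · gcongr
  -- Markov
  have hprod : ∀ G ∈ {G : Fin n → Eu m | ∀ i ∈ I, ‖S (G i) - (∑ j, c i j • G j) - z i‖ ≤ ρ},
      1 ≤ ENNReal.ofReal (Real.exp (s * ρ ^ 2 * I.card)) *
        ∏ p ∈ I ×ˢ (Finset.univ : Finset (Fin r)), ENNReal.ofReal (Real.exp (-s * X p G ^ 2)) := by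
    intro G hG
    rw [← ENNReal.ofReal_prod_of_nonneg (fun p _ => (Real.exp_pos _).le),
      ← ENNReal.ofReal_mul (Real.exp_pos _).le, ← Real.exp_sum, ← Real.exp_add]
    rw [ENNReal.one_le_ofReal]
    apply Real.one_le_exp
    rw [Finset.sum_product]
    have hb : ∀ i ∈ I, ∑ l : Fin r, -s * X (i, l) G ^ 2 ≥ -s * ρ ^ 2 := by
      intro i hi
      have h1 := hG i hi
      have h2 : ∑ l : Fin r, X (i, l) G ^ 2 ≤ ‖S (G i) - (∑ j, c i j • G j) - z i‖ ^ 2 := by
        have := hv.sum_inner_products_le (s := Finset.univ)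
          (S (G i) - (∑ j, c i j • G j) - z i)
        simpa [hX, sq_abs] using this
      have h3 : ‖S (G i) - (∑ j, c i j • G j) - z i‖ ^ 2 ≤ ρ ^ 2 := by
        gcongr
      rw [← Finset.mul_sum]
      nlinarith
    have := Finset.sum_le_sum hb
    rw [Finset.sum_const, nsmul_eq_mul] at this
    nlinarith
  refine (meas_le_lintegral₀ ?_ hprod).trans ?_
  · refine Measurable.aemeasurable ?_
    refine Measurable.const_mul ?_ _
    refine Finset.measurable_prod _ fun p _ => ?_
    have := hXm p
    fun_prop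
  · rw [lintegral_const_mul]
    swap
    · refine Finset.measurable_prod _ fun p _ => ?_
      have := hXm p
      fun_prop
    refine (mul_le_mul_right (main _) _).trans ?_
    rw [Finset.card_product, Finset.card_univ, Fintype.card_fin, hC,
      ← ENNReal.ofReal_pow (by positivity), ← ENNReal.ofReal_mul (Real.exp_pos _).le]
    apply ENNReal.ofReal_le_ofReal
    apply le_of_eq
    have e1 : s * ρ ^ 2 = r / 2 := by
      rw [hs_def]; field_simp
    have e2 : Real.sqrt (2 * s) = Real.sqrt r / ρ := by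
      rw [hs_def, show 2 * ((r : ℝ) / (2 * ρ ^ 2)) = r / ρ ^ 2 by field_simp,
        Real.sqrt_div' _ (by positivity), Real.sqrt_sq hρ.le]
    have e3 : Real.exp (s * ρ ^ 2 * I.card) = Real.sqrt (Real.exp 1) ^ (r * I.card) := by
      rw [e1, ← Real.exp_half, ← Real.exp_nat_mul]
      congr 1
      push_cast
      ring
    rw [e3, e2, mul_comm I.card r, ← mul_pow]
    congr 1
    have := Real.sqrt_pos.2 hr0
    field_simp

end Pool.Agent.JohnsonSp
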