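import Pool.Agent.JohnsonSp.Defs

/-!
Module Basis: a Schauder basis has uniformly bounded partial sum projections.
-/

set_option autoImplicit false
open Filter Topology

namespace Pool.Agent.JohnsonSp

section BasisAux

variable {E : Type} [NormedAddCommGroup E] [NormedSpace ℝ E] (e : ℕ → E)
  (h : ∀ x : E, ∃! a : ℕ → ℝ,
      Tendsto (fun N => ∑ i ∈ Finset.range N, a i • e i) atTop (𝓝 x))

/-- coordinates -/
noncomputable def bco (x : E) : ℕ → ℝ := (h x).choose

lemma bco_spec (x : E) :
    Tendsto (fun N => ∑ i ∈ Finset.range N, bco e h x i • e i) atTop (𝓝 x) :=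
  (h x).choose_spec.1

lemma bco_unique (x : E) (c : ℕ → ℝ)
    (hc : Tendsto (fun N => ∑ i ∈ Finset.range N, c i • e i) atTop (𝓝 x)) : c = bco e h x :=
  (h x).choose_spec.2 c hc

lemma bco_add (x y : E) : bco e h (x + y) = bco e h x + bco e h y := by
  symm
  apply bco_unique
  have := (bco_spec e h x).add (bco_spec e h y)
  refine this.congr fun N => ?_
  rw [← Finset.sum_add_distrib]
  exact Finset.sum_congr rfl fun i _ => by simp [add_smul]

lemma bco_smul (t : ℝ) (x : E) : bco e h (t • x) = t • bco e h x := by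
  symm
  apply bco_unique
  have := (bco_spec e h x).const_smul t
  refine this.congr fun N => ?_
  rw [Finset.smul_sum]
  exact Finset.sum_congr rfl fun i _ => by simp [mul_smul]

/-- partial sums as linear maps -/
noncomputable def bps (n : ℕ) : E →ₗ[ℝ] E where
  toFun x := ∑ i ∈ Finset.range n, bco e h x i • e i
  map_add' x y := by
    rw [bco_add, ← Finset.sum_add_distrib]
    exact Finset.sum_congr rfl fun i _ => by simp [add_smul]
  map_smul' t x := by
    rw [bco_smul, RingHom.id_apply, Finset.smul_sum]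
    exact Finset.sum_congr rfl fun i _ => by simp [mul_smul]

lemma bps_apply (n : ℕ) (x : E) : bps e h n x = ∑ i ∈ Finset.range n, bco e h x i • e i := rfl

lemma bps_tendsto (x : E) : Tendsto (fun n => bps e h n x) atTop (𝓝 x) := bco_spec e h x

lemma bps_bdd (x : E) : ∃ C, ∀ n, ‖bps e h n x‖ ≤ C := by
  have := (bps_tendsto e h x).norm.bddAbove_range
  obtain ⟨C, hC⟩ := this
  exact ⟨C, fun n => hC ⟨n, rfl⟩⟩

/-- the map into bounded sequences -/
noncomputable def bmap : E →ₗ[ℝ] (BoundedContinuousFunction ℕ E) where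
  toFun x := BoundedContinuousFunction.ofNormedAddCommGroupDiscrete (fun n => bps e h n x)
    (bps_bdd e h x).choose (bps_bdd e h x).choose_spec
  map_add' x y := by
    ext n
    simp
  map_smul' t x := by
    ext n
    simp

lemma bmap_apply (x : E) (n : ℕ) : bmap e h x n = bps e h n x := rfl

include h in
lemma e_ne_zero (n : ℕ) : e n ≠ 0 := by
  intro h0
  have h1 := bco_unique e h 0 0 (by simp)
  have h2 := bco_unique e h 0 (Pi.single n 1) (by
    have : (fun N => ∑ i ∈ Finset.range N, (Pi.single n (1 : ℝ) : ℕ → ℝ) i • e i) = fun _ => 0 := by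
      funext N
      apply Finset.sum_eq_zero
      intro i _
      by_cases hi : i = n
      · subst hi; simp [h0]
      · simp [hi]
    rw [this]
    exact tendsto_const_nhds)
  have h3 : (Pi.single n (1 : ℝ) : ℕ → ℝ) = 0 := h2.trans h1.symm
  have := congrFun h3 n
  simp at this

lemma bmap_closed [CompleteSpace E] (u : ℕ → E) (x : E) (y : BoundedContinuousFunction ℕ E)
    (hu : Tendsto u atTop (𝓝 x)) (hy : Tendsto (fun k => bmap e h (u k)) atTop (𝓝 y)) :
    y = bmap e h x := by
  have hpt : ∀ n, Tendsto (fun k => bps e h n (u k)) atTop (𝓝 (y n)) := by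
    intro n
    have hc : Continuous fun f : BoundedContinuousFunction ℕ E => f n := continuous_eval_const n
    exact (hc.tendsto y).comp hy
  have hstep : ∀ n, ∃ c : ℝ, c • e n = y (n + 1) - y n := by
    intro n
    have h1 : Tendsto (fun k => bps e h (n + 1) (u k) - bps e h n (u k)) atTop
        (𝓝 (y (n + 1) - y n)) := (hpt (n + 1)).sub (hpt n)
    have hcl : IsClosed ((ℝ ∙ e n : Submodule ℝ E) : Set E) :=
      Submodule.closed_of_finiteDimensional _
    have hmem : y (n + 1) - y n ∈ (ℝ ∙ e n : Submodule ℝ E) := by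
      apply hcl.mem_of_tendsto h1
      filter_upwards with k
      simp only [bps_apply, Finset.sum_range_succ, add_sub_cancel_left]
      exact Submodule.smul_mem _ _ (Submodule.mem_span_singleton_self _)
    exact Submodule.mem_span_singleton.1 hmem
  choose c hc using hstep
  have hy0 : y 0 = 0 := by
    have := hpt 0
    simp only [bps_apply, Finset.range_zero, Finset.sum_empty] at this
    exact tendsto_nhds_unique this tendsto_const_nhds
  have hsum : ∀ n, ∑ i ∈ Finset.range n, c i • e i = y n := by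
    intro n
    induction n with
    | zero => simp [hy0]
    | succ n ih =>
      rw [Finset.sum_range_succ, ih, hc]
      abel
  have hlim : Tendsto (fun n => ∑ i ∈ Finset.range n, c i • e i) atTop (𝓝 x) := by
    rw [Metric.tendsto_atTop]
    intro ε hε
    have hA : ∀ᶠ k in atTop, dist (bmap e h (u k)) y < ε / 3 :=
      (Metric.tendsto_nhds.1 hy) (ε / 3) (by positivity)
    have hB : ∀ᶠ k in atTop, dist (u k) x < ε / 3 :=
      (Metric.tendsto_nhds.1 hu) (ε / 3) (by positivity)
    obtain ⟨k, hk1, hk2⟩ := (hA.and hB).exists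
    obtain ⟨N, hN⟩ := (Metric.tendsto_atTop.1 (bps_tendsto e h (u k))) (ε / 3) (by positivity)
    refine ⟨N, fun n hn => ?_⟩
    rw [hsum]
    have h1 : dist (y n) (bps e h n (u k)) < ε / 3 := by
      rw [dist_comm]
      have h0 : dist ((bmap e h (u k)) n) (y n) ≤ dist (bmap e h (u k)) y :=
        BoundedContinuousFunction.dist_coe_le_dist n
      exact lt_of_le_of_lt h0 hk1
    have h2 := hN n hn
    calc dist (y n) x ≤ dist (y n) (bps e h n (u k)) + dist (bps e h n (u k)) (u k)
          + dist (u k) x := dist_triangle4 _ _ _ _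
      _ < ε / 3 + ε / 3 + ε / 3 := by gcongr
      _ = ε := by ring
  have hcc := bco_unique e h x c hlim
  ext n
  rw [bmap_apply, bps_apply, ← hcc, hsum]

lemma bps_idem (n : ℕ) (x : E) : bps e h n (bps e h n x) = bps e h n x := by
  have key : (fun i => if i < n then bco e h x i else 0) = bco e h (bps e h n x) := by
    apply bco_unique
    apply tendsto_const_nhds.congr'
    filter_upwards [eventually_ge_atTop n] with N hN
    rw [bps_apply]
    rw [← Finset.sum_subset (Finset.range_subset_range.2 hN)]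
    · exact Finset.sum_congr rfl fun i hi => by simp [Finset.mem_range.1 hi]
    · intro i _ hi
      have : ¬ i < n := by simpa using hi
      simp [this]
  rw [bps_apply, ← key, bps_apply]
  exact Finset.sum_congr rfl fun i hi => by simp [Finset.mem_range.1 hi]

end BasisAux

theorem Basis : Stmt_Basis := by
  intro E _ _ _ e h
  have hcont : Continuous (bmap e h) :=
    (bmap e h).continuous_of_seq_closed_graph (fun u x y hu hy => bmap_closed e h u x y hu hy)
  let g : E →L[ℝ] BoundedContinuousFunction ℕ E := ⟨bmap e h, hcont⟩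
  have hgb : ∀ n x, ‖bps e h n x‖ ≤ ‖g‖ * ‖x‖ := by
    intro n x
    calc ‖bps e h n x‖ = ‖(g x) n‖ := rfl
      _ ≤ ‖g x‖ := BoundedContinuousFunction.norm_coe_le_norm _ _
      _ ≤ ‖g‖ * ‖x‖ := g.le_opNorm x
  let P : ℕ → E →L[ℝ] E := fun n => (bps e h n).mkContinuous ‖g‖ (hgb n)
  have hP : ∀ n x, P n x = bps e h n x := fun n x => rfl
  refine ⟨P, ‖g‖, ?_, ?_, ?_, ?_, ?_⟩
  · intro n x
    rw [hP]
    exact hgb n x
  · ext x
    rw [hP, bps_apply]
    simp
  · intro n x
    rw [hP, hP]
    exact bps_idem e h n x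
  · intro n
    have hne := e_ne_zero e h n
    let f0 : E →ₗ[ℝ] ℝ :=
      { toFun := fun x => bco e h x n
        map_add' := fun x y => by rw [bco_add]; rfl
        map_smul' := fun t x => by rw [bco_smul]; rfl }
    have hf0 : ∀ x, bps e h (n + 1) x = bps e h n x + f0 x • e n := by
      intro x
      rw [bps_apply, bps_apply, Finset.sum_range_succ]
      rfl
    have hpos : 0 < ‖e n‖ := norm_pos_iff.2 hne
    have hb : ∀ x, ‖f0 x‖ ≤ (2 * ‖g‖ / ‖e n‖) * ‖x‖ := by
      intro x
      have h1 : f0 x • e n = bps e h (n + 1) x - bps e h n x := by rw [hf0 x]; abel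
      have h2 : ‖f0 x‖ * ‖e n‖ ≤ 2 * ‖g‖ * ‖x‖ := by
        rw [← norm_smul, h1]
        calc ‖bps e h (n + 1) x - bps e h n x‖ ≤ ‖bps e h (n + 1) x‖ + ‖bps e h n x‖ :=
              norm_sub_le _ _
          _ ≤ ‖g‖ * ‖x‖ + ‖g‖ * ‖x‖ := add_le_add (hgb _ x) (hgb _ x)
          _ = 2 * ‖g‖ * ‖x‖ := by ring
      rw [div_mul_eq_mul_div, le_div_iff₀ hpos]
      exact h2
    refine ⟨f0.mkContinuous _ hb, e n, fun x => ?_⟩
    rw [hP, hP]
    exact hf0 x
  · intro x
    exact bps_tendsto e h x

end Pool.Agent.JohnsonSp
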