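import Pool.Agent.JohnsonSp.Defs

/-!
Module Compl of the proof of S06184: orthogonal projections with respect to good forms.
-/

set_option autoImplicit false

namespace Pool.Agent.JohnsonSp

/-- Orthogonal projection with respect to a good form. -/
theorem goodForm_proj {Z : Type} [NormedAddCommGroup Z] [NormedSpace ℝ Z] (G : Submodule ℝ Z)
    [FiniteDimensional ℝ G] (B : Z →ₗ[ℝ] Z →ₗ[ℝ] ℝ) (hB : GoodForm G B) :
    ∃ P : Z →ₗ[ℝ] Z, (∀ x, P x ∈ G) ∧ (∀ x ∈ G, P x = x) ∧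
      (∀ x, ∀ g ∈ G, B (x - P x) g = 0) ∧ ∀ x, B (P x) (P x) ≤ B x x := by
  obtain ⟨hsymm, hpos, hle, hge⟩ := hB
  -- the map to the dual
  let Φ : G →ₗ[ℝ] Module.Dual ℝ G := (B.domRestrict₁₂ G G)
  have hΦ : ∀ p g : G, Φ p g = B p g := fun p g => rfl
  have hinj : Function.Injective Φ := by
    rw [injective_iff_map_eq_zero]
    intro p hp
    have h1 : B p p = 0 := by
      rw [← hΦ, hp]; rfl
    have h2 := hge p p.2
    rw [h1] at h2
    have h3 : ‖(p : Z)‖ = 0 := by nlinarith [norm_nonneg (p : Z)]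
    exact Subtype.ext (norm_eq_zero.mp h3)
  have hfr : Module.finrank ℝ G = Module.finrank ℝ (Module.Dual ℝ G) :=
    (Subspace.dual_finrank_eq).symm
  let e : G ≃ₗ[ℝ] Module.Dual ℝ G := LinearMap.linearEquivOfInjective Φ hinj hfr
  have he : ∀ p, e p = Φ p := fun p => LinearMap.linearEquivOfInjective_apply ..
  let Ψ : Z →ₗ[ℝ] Module.Dual ℝ G := B.domRestrict₁₂ ⊤ G ∘ₗ (Submodule.topEquiv.symm : Z ≃ₗ[ℝ] (⊤ : Submodule ℝ Z)).toLinearMap
  have hΨ : ∀ (x : Z) (g : G), Ψ x g = B x g := fun x g => rfl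
  let P : Z →ₗ[ℝ] Z := G.subtype ∘ₗ e.symm.toLinearMap ∘ₗ Ψ
  have hP1 : ∀ x, P x ∈ G := fun x => (e.symm (Ψ x)).2
  have hP2 : ∀ x, ∀ g ∈ G, B (P x) g = B x g := by
    intro x g hg
    have h : Φ (e.symm (Ψ x)) = Ψ x := by rw [← he]; simp
    have h' := congrArg (fun f => f ⟨g, hg⟩) h
    exact h'
  have hP3 : ∀ x, ∀ g ∈ G, B (x - P x) g = 0 := by
    intro x g hg
    rw [map_sub, LinearMap.sub_apply, hP2 x g hg, sub_self]
  refine ⟨P, hP1, ?_, hP3, ?_⟩
  · intro x hx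
    have h1 : x - P x ∈ G := G.sub_mem hx (hP1 x)
    have h2 := hP3 x _ h1
    have h3 := hge _ h1
    rw [h2] at h3
    have h4 : ‖x - P x‖ = 0 := by nlinarith [norm_nonneg (x - P x)]
    have h5 := norm_eq_zero.mp h4
    exact (sub_eq_zero.mp h5).symm
  · intro x
    have h1 := hP3 x _ (hP1 x)
    have h2 : B (P x) (x - P x) = 0 := by rw [hsymm]; exact h1
    have h3 := hpos (x - P x)
    have h4 : B x x = B (x - P x) (x - P x) + B (x - P x) (P x) + B (P x) (x - P x)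
        + B (P x) (P x) := by
      simp only [map_sub, LinearMap.sub_apply]
      ring
    rw [h4, h1, h2]
    linarith

theorem Compl : Stmt_Compl := by
  intro Z _ _ N hF G hG hN
  obtain ⟨B, hB⟩ := hF G hG hN
  obtain ⟨P, h1, h2, h3, h4⟩ := goodForm_proj G B hB
  obtain ⟨hsymm, hpos, hle, hge⟩ := hB
  have hb : ∀ x, ‖P x‖ ≤ 2 * ‖x‖ := by
    intro x
    have := hge _ (h1 x)
    have h5 := h4 x
    have h6 := hle x
    have h7 : ‖P x‖ ^ 2 ≤ 2 * ‖x‖ ^ 2 := by linarith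
    nlinarith [norm_nonneg x, norm_nonneg (P x)]
  exact ⟨P.mkContinuous 2 hb, fun x => h1 x, fun x hx => h2 x hx, fun x => hb x⟩

end Pool.Agent.JohnsonSp
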