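import Pool.Agent.JohnsonSp.Defs

set_option autoImplicit false

namespace Pool.Agent.JohnsonSp

theorem Cover (hNet : Stmt_NetE) : Stmt_Cover := by
  classical
  intro k t q q' D ht htk hq hqq hD hk hkt
  have hq1 : 1 / q ≤ 1 / 2 := one_div_le_one_div_of_le (by norm_num) hq
  have hθ : (0 : ℝ) ≤ 1 / 2 - 1 / q := by linarith
  have hq0 : 0 < 1 / q := by positivity
  have hq'pos : 0 < q' := by
    have h2 : 0 < 1 / q' := by linarith
    exact one_div_pos.1 h2
  have hq'2 : q' ≤ 2 := by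
    have h1 : 1 / 2 ≤ 1 / q' := by linarith
    exact le_of_one_div_le_one_div (by norm_num) h1
  have hD0 : 0 < D := by linarith
  have htR : (1 : ℝ) ≤ t := by exact_mod_cast ht
  have ht0 : (0 : ℝ) < t := by linarith
  have hnet : ∀ J : Finset (Fin k), ∃ s : Finset (Fin k → ℝ),
      (s.card : ℝ) ≤ (1 + 2 * D) ^ J.card ∧
      ∀ c : Fin k → ℝ, ∑ i ∈ J, c i ^ 2 ≤ 1 → ∃ c' ∈ s, (∀ i ∉ J, c' i = 0) ∧
        ∑ i ∈ J, (c i - c' i) ^ 2 ≤ (1 / D) ^ 2 := by
    intro J
    obtain ⟨s, _, hs1, hs2⟩ := hNet J {x | ‖x‖ ≤ 1} 1 (1 / D) (by norm_num) (by positivity)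
      (fun x hx => hx)
    refine ⟨s.image (fun x i => if h : i ∈ J then x ⟨i, h⟩ else 0), ?_, ?_⟩
    · have h1 : (1 + 2 * 1 / (1 / D)) = 1 + 2 * D := by
        field_simp
      rw [h1, Fintype.card_coe] at hs1
      exact le_trans (by exact_mod_cast Finset.card_image_le) hs1
    · intro c hc
      have h1 : ‖(WithLp.toLp 2 (fun i : J => c i) : EuclideanSpace ℝ J)‖ ≤ 1 := by
        rw [EuclideanSpace.norm_eq, Real.sqrt_le_one]
        simp only [Real.norm_eq_abs, sq_abs]
        rw [Finset.sum_coe_sort J (fun i => c i ^ 2)]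
        exact hc
      obtain ⟨y, hy, hxy⟩ := hs2 _ h1
      refine ⟨_, Finset.mem_image_of_mem _ hy, fun i hi => by simp [hi], ?_⟩
      have h2 : ∑ i ∈ J, (c i - (if h : i ∈ J then y ⟨i, h⟩ else 0)) ^ 2 =
          ‖(WithLp.toLp 2 (fun i : J => c i) : EuclideanSpace ℝ J) - y‖ ^ 2 := by
        rw [EuclideanSpace.norm_sq_eq]
        rw [← Finset.sum_coe_sort J]
        refine Finset.sum_congr rfl fun i _ => ?_
        simp
      rw [h2]
      exact pow_le_pow_left₀ (norm_nonneg _) hxy 2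
  choose S hS1 hS2 using hnet
  refine ⟨(Finset.univ.filter fun J : Finset (Fin k) => J.card ≤ t).biUnion S, ?_, ?_⟩
  · have h1 : (((Finset.univ.filter fun J : Finset (Fin k) => J.card ≤ t).biUnion S).card : ℝ) ≤
        ∑ J ∈ Finset.univ.filter fun J : Finset (Fin k) => J.card ≤ t, ((S J).card : ℝ) := by
      exact_mod_cast Finset.card_biUnion_le
    refine h1.trans ?_
    have h2 : ∀ J ∈ Finset.univ.filter fun J : Finset (Fin k) => J.card ≤ t,
        ((S J).card : ℝ) ≤ (3 * D) ^ t := by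
      intro J hJ
      have hJt : J.card ≤ t := (Finset.mem_filter.1 hJ).2
      calc ((S J).card : ℝ) ≤ (1 + 2 * D) ^ J.card := hS1 J
        _ ≤ (3 * D) ^ J.card := pow_le_pow_left₀ (by positivity) (by linarith) _
        _ ≤ (3 * D) ^ t := pow_le_pow_right₀ (by linarith) hJt
    refine (Finset.sum_le_card_nsmul _ _ _ h2).trans ?_
    rw [nsmul_eq_mul]
    refine mul_le_mul_of_nonneg_right ?_ (by positivity)
    have h3 : (Finset.univ.filter fun J : Finset (Fin k) => J.card ≤ t).card ≤ 2 ^ k := by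
      refine (Finset.card_filter_le _ _).trans ?_
      simp
    exact_mod_cast h3
  · intro c hc
    set τ : ℝ := (t : ℝ) ^ (-(1 / q')) with hτ
    have hτ0 : 0 < τ := Real.rpow_pos_of_pos ht0 _
    have hτq : τ ^ q' = (t : ℝ)⁻¹ := by
      rw [hτ, ← Real.rpow_mul ht0.le]
      have : -(1 / q') * q' = -1 := by field_simp
      rw [this, Real.rpow_neg_one]
    let J : Finset (Fin k) := Finset.univ.filter fun i => τ < |c i|
    have hterm : ∀ i, 0 ≤ |c i| ^ q' := fun i => Real.rpow_nonneg (abs_nonneg _) _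
    have hJt : J.card ≤ t := by
      have h1 : (J.card : ℝ) * (t : ℝ)⁻¹ ≤ ∑ i ∈ J, |c i| ^ q' := by
        rw [← nsmul_eq_mul]
        refine Finset.card_nsmul_le_sum _ _ _ fun i hi => ?_
        rw [← hτq]
        exact Real.rpow_le_rpow hτ0.le (Finset.mem_filter.1 hi).2.le hq'pos.le
      have h2 : ∑ i ∈ J, |c i| ^ q' ≤ 1 :=
        (Finset.sum_le_univ_sum_of_nonneg hterm).trans hc
      have h3 : (J.card : ℝ) ≤ t := by
        have h4 := h1.trans h2
        rw [← div_eq_mul_inv, div_le_one ht0] at h4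
        exact h4
      exact_mod_cast h3
    have hci : ∀ i, |c i| ≤ 1 := by
      intro i
      by_contra h
      rw [not_le] at h
      have h1 : 1 < |c i| ^ q' := Real.one_lt_rpow h hq'pos
      have h2 : |c i| ^ q' ≤ ∑ i, |c i| ^ q' :=
        Finset.single_le_sum (f := fun i => |c i| ^ q') (fun i _ => hterm i) (Finset.mem_univ i)
      linarith
    have hsq : ∀ i, c i ^ 2 ≤ |c i| ^ q' := by
      intro i
      rw [← sq_abs, ← Real.rpow_natCast]
      rcases eq_or_lt_of_le (abs_nonneg (c i)) with h0 | h0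
      · rw [← h0, Real.zero_rpow (by norm_num), Real.zero_rpow hq'pos.ne']
      · exact Real.rpow_le_rpow_of_exponent_ge h0 (hci i) (by exact_mod_cast hq'2)
    have hJ1 : ∑ i ∈ J, c i ^ 2 ≤ 1 :=
      (Finset.sum_le_sum fun i _ => hsq i).trans
        ((Finset.sum_le_univ_sum_of_nonneg hterm).trans hc)
    obtain ⟨c', hc's, hc'0, hc'1⟩ := hS2 J c hJ1
    refine ⟨c', Finset.mem_biUnion.2 ⟨J, Finset.mem_filter.2 ⟨Finset.mem_univ _, hJt⟩, hc's⟩, ?_⟩
    -- the small coordinates
    have hsmall : ∀ i ∉ J, c i ^ 2 ≤ τ ^ (2 - q') * |c i| ^ q' := by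
      intro i hi
      have hle : |c i| ≤ τ := by
        by_contra h
        exact hi (Finset.mem_filter.2 ⟨Finset.mem_univ _, not_le.1 h⟩)
      have h1 : c i ^ 2 = |c i| ^ (2 - q') * |c i| ^ q' := by
        rw [← sq_abs, ← Real.rpow_natCast]
        rcases eq_or_lt_of_le (abs_nonneg (c i)) with h0 | h0
        · rw [← h0, Real.zero_rpow (by norm_num), Real.zero_rpow hq'pos.ne', mul_zero]
        · rw [← Real.rpow_add h0]
          norm_num
      rw [h1]
      exact mul_le_mul_of_nonneg_right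
        (Real.rpow_le_rpow (abs_nonneg _) hle (by linarith)) (hterm i)
    have hτ2 : τ ^ (2 - q') ≤ (2 / D) ^ 2 := by
      have h1 : τ ^ (2 - q') = ((t : ℝ) ^ (-(1 / 2 - 1 / q))) ^ 2 := by
        rw [hτ, ← Real.rpow_mul ht0.le, ← Real.rpow_natCast, ← Real.rpow_mul ht0.le]
        congr 1
        have h2 : 1 / q = 1 - 1 / q' := by linarith
        rw [h2]
        push_cast
        field_simp
        ring
      rw [h1]
      refine pow_le_pow_left₀ (Real.rpow_nonneg ht0.le _) ?_ 2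
      rw [Real.div_rpow (Nat.cast_nonneg _) ht0.le, hk] at hkt
      have h3 : 0 < (t : ℝ) ^ (1 / 2 - 1 / q) := Real.rpow_pos_of_pos ht0 _
      rw [Real.rpow_neg ht0.le, le_div_iff₀ hD0, ← div_eq_inv_mul]
      exact hkt
    have hA : ∑ i ∈ Finset.univ.filter (fun i => ¬ τ < |c i|), c i ^ 2 ≤ (2 / D) ^ 2 := by
      calc ∑ i ∈ Finset.univ.filter (fun i => ¬ τ < |c i|), c i ^ 2
          ≤ ∑ i ∈ Finset.univ.filter (fun i => ¬ τ < |c i|), τ ^ (2 - q') * |c i| ^ q' := by
            refine Finset.sum_le_sum fun i hi => hsmall i ?_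
            intro h
            exact (Finset.mem_filter.1 hi).2 (Finset.mem_filter.1 h).2
        _ = τ ^ (2 - q') * ∑ i ∈ Finset.univ.filter (fun i => ¬ τ < |c i|), |c i| ^ q' := by
            rw [Finset.mul_sum]
        _ ≤ τ ^ (2 - q') * 1 := by
            refine mul_le_mul_of_nonneg_left ?_ (Real.rpow_nonneg hτ0.le _)
            exact (Finset.sum_le_univ_sum_of_nonneg hterm).trans hc
        _ ≤ (2 / D) ^ 2 := by rw [mul_one]; exact hτ2
    have hsum : ∑ i, (c i - c' i) ^ 2 ≤ (3 / D) ^ 2 := by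
      rw [← Finset.sum_filter_add_sum_filter_not Finset.univ (fun i => τ < |c i|)]
      have h1 : ∑ i ∈ Finset.univ.filter (fun i => ¬ τ < |c i|), (c i - c' i) ^ 2 =
          ∑ i ∈ Finset.univ.filter (fun i => ¬ τ < |c i|), c i ^ 2 := by
        refine Finset.sum_congr rfl fun i hi => ?_
        rw [hc'0 i (fun h => (Finset.mem_filter.1 hi).2 (Finset.mem_filter.1 h).2), sub_zero]
      rw [h1]
      have h2 : (1 / D) ^ 2 + (2 / D) ^ 2 ≤ (3 / D) ^ 2 := by
        have h3 : (3 / D) ^ 2 - ((1 / D) ^ 2 + (2 / D) ^ 2) = 4 * (1 / D) ^ 2 := by ring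
        have h4 : 0 ≤ 4 * (1 / D) ^ 2 := by positivity
        linarith
      exact (add_le_add hc'1 hA).trans h2
    exact (Real.sqrt_le_left (by positivity)).2 hsum

end Pool.Agent.JohnsonSp
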