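import Pool.Agent.JohnsonSp.Defs

set_option autoImplicit false
open Filter Topology

namespace Pool.Agent.JohnsonSp

private lemma lam_dist (x : ℝ) (h : |x - x ^ 2| ≤ 1 / 50) : (46 / 100 : ℝ) ≤ |x - 1 / 2| ∧
    |x| ≤ 104 / 100 := by
  have h1 := abs_le.mp h
  constructor
  · by_contra hc
    push Not at hc
    have h2 := abs_lt.mp hc
    nlinarith [h2.1, h2.2]
  · rw [abs_le]
    constructor
    · by_contra hc
      push Not at hc
      nlinarith
    · by_contra hc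
      push Not at hc
      nlinarith

theorem Det_of (hHS : Stmt_HS) (hAdj : Stmt_Adj) (hGr : Stmt_Greedy) (hNe : Stmt_Near)
    (hTr : Stmt_Trace) (hHSa : Stmt_HSa) (hHSb : Stmt_HSb) : Stmt_Det := by
  intro K hK
  have hK0 : 0 < K := by linarith
  obtain ⟨δ, hδ⟩ : ∃ δ : ℝ, δ = 1 / (96800 * K ^ 2) := ⟨_, rfl⟩
  obtain ⟨η, hη⟩ : ∃ η : ℝ, η = 1 / (1500 * (44 * K + 4)) := ⟨_, rfl⟩
  have hδ0 : 0 < δ := by rw [hδ]; positivity
  have hη0 : 0 < η := by rw [hη]; positivity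
  have hδ1 : δ ≤ 1 / 96800 := by
    rw [hδ]
    apply one_div_le_one_div_of_le (by norm_num)
    nlinarith
  have hηR : 15 * η * (4 * (11 * K) + 4) = 1 / 100 := by
    rw [hη]
    field_simp
    ring
  have hη1 : 15 * η ≤ 1 / 4800 := by
    have h48 : 48 ≤ 4 * (11 * K) + 4 := by linarith
    have : 15 * η * 48 ≤ 15 * η * (4 * (11 * K) + 4) :=
      mul_le_mul_of_nonneg_left h48 (by positivity)
    linarith
  refine ⟨δ, η, hδ0, by linarith, hη0, ?_⟩
  intro A hA
  have hAr : (1 : ℝ) ≤ (A : ℝ) := by exact_mod_cast hA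
  refine ⟨5800 * K ^ 2 * Real.sqrt A + 2, ?_, ?_⟩
  · have : 0 ≤ 5800 * K ^ 2 * Real.sqrt A := by positivity
    linarith
  intro D hD d
  have hsA : 1 ≤ Real.sqrt A := by
    rw [show (1 : ℝ) = Real.sqrt 1 by simp]
    exact Real.sqrt_le_sqrt hAr
  have hD0 : 0 < D := by
    have : 0 ≤ 5800 * K ^ 2 * Real.sqrt A := by positivity
    linarith
  refine ⟨⌈8 * K⌉₊ + 5 * d + 8, ?_⟩
  intro m hm q hq2 hq4 hkD g hg hBad
  have hm1 : 1 ≤ m := by omega
  have hmr : (1 : ℝ) ≤ (m : ℝ) := by exact_mod_cast hm1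
  have hm8K : 8 * K ≤ (m : ℝ) := by
    have h1 : 8 * K ≤ (⌈8 * K⌉₊ : ℝ) := Nat.le_ceil _
    have h2 : ((⌈8 * K⌉₊ : ℕ) : ℝ) ≤ (m : ℝ) := by exact_mod_cast (by omega)
    linarith
  have hm5d : 5 * (d : ℝ) + 8 ≤ (m : ℝ) := by
    have : 5 * d + 8 ≤ m := by omega
    exact_mod_cast this
  obtain ⟨s, T, R, a, b, hT1, hT2, hT3, hT4, ha, hb⟩ := hBad
  have hk1 : 1 ≤ A * m := Nat.mul_pos hA hm1
  have hS : BadS K q g (LinearMap.adjoint T) :=
    hAdj m (A * m) q K g T (LinearMap.adjoint T) hq2.le hK0.le hk1 hg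
      (fun x y => LinearMap.adjoint_inner_left T y x) hT1
  set S : Eu m →ₗ[ℝ] Eu m := LinearMap.adjoint T with hSdef
  rcases hGr m ⌊δ * m⌋₊ η S hη0 with hTri | ⟨L, hL, hL2⟩
  · exact ⟨S, hTri, hS⟩
  exfalso
  set r : ℕ := ⌊δ * m⌋₊ with hr
  have hrle : (r : ℝ) ≤ δ * m := Nat.floor_le (by positivity)
  have hr2 : (r : ℝ) ≤ m / 96800 := by
    refine hrle.trans ?_
    calc δ * m ≤ 1 / 96800 * m := mul_le_mul_of_nonneg_right hδ1 (by positivity)
      _ = m / 96800 := by ring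
  have hLr : (Module.finrank ℝ L : ℝ) ≤ 2 * (r : ℝ) := by exact_mod_cast hL
  -- near scalar
  have h3 : 3 ≤ Module.finrank ℝ (Lᗮ : Submodule ℝ (Eu m)) := by
    have h := L.finrank_add_finrank_orthogonal
    rw [finrank_euclideanSpace_fin] at h
    have h' : (Module.finrank ℝ L : ℝ) + (Module.finrank ℝ (Lᗮ : Submodule ℝ (Eu m)) : ℝ) = m := by
      exact_mod_cast h
    have h'' : (3 : ℝ) ≤ (Module.finrank ℝ (Lᗮ : Submodule ℝ (Eu m)) : ℝ) := by
      have hd : (0 : ℝ) ≤ d := Nat.cast_nonneg d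
      linarith
    exact_mod_cast h''
  obtain ⟨lam, hlam⟩ := hNe m η S L hη0 h3 hL2
  -- adjoint of the identity
  have hadj : ∀ x, S x - S (S x) = LinearMap.adjoint R x +
      (LinearMap.adjoint a) (LinearMap.adjoint b x) := by
    intro x
    refine ext_inner_right ℝ fun y => ?_
    rw [inner_sub_left, inner_add_left, hSdef, LinearMap.adjoint_inner_left,
      LinearMap.adjoint_inner_left, LinearMap.adjoint_inner_left, LinearMap.adjoint_inner_left,
      LinearMap.adjoint_inner_left, LinearMap.adjoint_inner_left, ← inner_sub_right,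
      ← inner_add_right, hT3]
  have h4 : 4 * (2 * r) + 2 * d ≤ m := by
    have : 4 * (2 * (r : ℝ)) + 2 * (d : ℝ) ≤ (m : ℝ) := by
      have hd : (0 : ℝ) ≤ d := Nat.cast_nonneg d
      linarith
    exact_mod_cast this
  have hτ : ∀ (n : ℕ) (f : Fin n → Eu m), Orthonormal ℝ f →
      |∑ i, inner ℝ (((LinearMap.adjoint a) ∘ₗ (LinearMap.adjoint b)) (f i)) (f i)| ≤
        (1 / 200) * m := by
    intro n f hf
    have hbt : hs (LinearMap.adjoint b) ≤ 4 * K ^ 2 * m / (A * m : ℕ) :=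
      hHSb m (A * m) s q K g b (LinearMap.adjoint b) hq2.le hK0.le hk1 hg
        (fun x z => LinearMap.adjoint_inner_left b z x) hb
    have haa := hHSa m (A * m) s q D K g a hq2.le hq4 hD0 hK0.le hkD hg ha
    have hbt' : ∑ i, ‖LinearMap.adjoint b (f i)‖ ^ 2 ≤ 4 * K ^ 2 * m / (A * m : ℕ) :=
      (hHS m s n (LinearMap.adjoint b) f hf).trans hbt
    have ha' := (hHS m s n a f hf).trans haa
    have hcs : |∑ i, inner ℝ (((LinearMap.adjoint a) ∘ₗ (LinearMap.adjoint b)) (f i)) (f i)| ≤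
        ∑ i, ‖LinearMap.adjoint b (f i)‖ * ‖a (f i)‖ := by
      refine (Finset.abs_sum_le_sum_abs _ _).trans (Finset.sum_le_sum fun i _ => ?_)
      rw [LinearMap.comp_apply, LinearMap.adjoint_inner_left]
      exact abs_real_inner_le_norm _ _
    have hcs2 : (∑ i, ‖LinearMap.adjoint b (f i)‖ * ‖a (f i)‖) ^ 2 ≤
        (∑ i, ‖LinearMap.adjoint b (f i)‖ ^ 2) * ∑ i, ‖a (f i)‖ ^ 2 :=
      Finset.sum_mul_sq_le_sq_mul_sq _ _ _
    have hcs3 : (∑ i, ‖LinearMap.adjoint b (f i)‖ * ‖a (f i)‖) ^ 2 ≤ ((1 / 200) * m) ^ 2 := by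
      refine hcs2.trans ?_
      have hprod : (∑ i, ‖LinearMap.adjoint b (f i)‖ ^ 2) * ∑ i, ‖a (f i)‖ ^ 2 ≤
          (4 * K ^ 2 * m / (A * m : ℕ)) * (Real.sqrt 3 * 121 * K ^ 2 * (A * m : ℕ) ^ 2 / D ^ 2) := by
        apply mul_le_mul hbt' ha'
        · positivity
        · positivity
      refine hprod.trans ?_
      have hAm : ((A * m : ℕ) : ℝ) = (A : ℝ) * m := by push_cast; ring
      rw [hAm]
      have hs3 : Real.sqrt 3 ≤ 1733 / 1000 := by
        rw [Real.sqrt_le_left (by norm_num)]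
        norm_num
      have hD2 : (5800 * K ^ 2 * Real.sqrt A) ^ 2 ≤ D ^ 2 := by
        apply pow_le_pow_left₀ (by positivity)
        linarith
      have hD3 : 33640000 * K ^ 4 * A ≤ D ^ 2 := by
        have : (5800 * K ^ 2 * Real.sqrt A) ^ 2 = 33640000 * K ^ 4 * A := by
          rw [mul_pow, mul_pow, Real.sq_sqrt (by positivity)]
          ring
        linarith
      have heq : (4 * K ^ 2 * m / ((A : ℝ) * m)) *
          (Real.sqrt 3 * 121 * K ^ 2 * ((A : ℝ) * m) ^ 2 / D ^ 2) =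
          484 * Real.sqrt 3 * (K ^ 4 * A) * m ^ 2 / D ^ 2 := by
        field_simp
        ring
      rw [heq, div_le_iff₀ (by positivity)]
      have hKA : 0 ≤ K ^ 4 * A := by positivity
      have e1 : 484 * Real.sqrt 3 * (K ^ 4 * A) ≤ 840 * (K ^ 4 * A) :=
        mul_le_mul_of_nonneg_right (by linarith) hKA
      have e2 : 840 * (K ^ 4 * (A : ℝ)) ≤ 1 / 40000 * D ^ 2 := by nlinarith
      have hm2 : (0 : ℝ) ≤ (m : ℝ) ^ 2 := by positivity
      calc 484 * Real.sqrt 3 * (K ^ 4 * A) * m ^ 2 ≤ (1 / 40000 * D ^ 2) * m ^ 2 :=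
            mul_le_mul_of_nonneg_right (e1.trans e2) hm2
        _ = (1 / 200 * m) ^ 2 * D ^ 2 := by ring
    refine hcs.trans ?_
    have h1 : 0 ≤ ∑ i, ‖LinearMap.adjoint b (f i)‖ * ‖a (f i)‖ :=
      Finset.sum_nonneg fun i _ => by positivity
    exact (sq_le_sq₀ h1 (by positivity)).mp hcs3
  have htrace := hTr m (2 * r) d η lam (11 * K) (1 / 200) S (LinearMap.adjoint R)
    ((LinearMap.adjoint a) ∘ₗ (LinearMap.adjoint b)) L hη0 (by linarith) (by positivity) hm1
    hL h4 hS.1 hlam (fun x => by rw [hadj x]; rfl)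
    (by rw [LinearMap.finrank_range_adjoint]; exact hT4) hτ
  obtain ⟨hl1, hl2⟩ := htrace
  rw [hηR] at hl1
  have hl3 : |lam - lam ^ 2| ≤ 1 / 50 := by linarith
  obtain ⟨hd1, hd2⟩ := lam_dist lam hl3
  -- trace of the adjoint
  have htrS : LinearMap.trace ℝ (Eu m) S = LinearMap.trace ℝ (Eu m) T := by
    rw [LinearMap.trace_eq_sum_inner S (EuclideanSpace.basisFun (Fin m) ℝ),
      LinearMap.trace_eq_sum_inner T (EuclideanSpace.basisFun (Fin m) ℝ)]
    refine Finset.sum_congr rfl fun i _ => ?_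
    rw [hSdef, LinearMap.adjoint_inner_right, real_inner_comm]
  rw [htrS] at hl2
  -- numerical contradiction
  have hsq : 11 * K * Real.sqrt ((2 * r : ℕ) * m) ≤ 5 / 100 * m := by
    have h1 : Real.sqrt ((2 * r : ℕ) * m) ≤ m / (220 * K) := by
      rw [Real.sqrt_le_left (by positivity)]
      push_cast
      have h2 : (2 * (r : ℝ)) * m ≤ (2 * (δ * m)) * m := by
        apply mul_le_mul_of_nonneg_right _ (by positivity)
        linarith
      refine h2.trans ?_
      rw [hδ]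
      apply le_of_eq
      field_simp
      ring
    calc 11 * K * Real.sqrt ((2 * r : ℕ) * m) ≤ 11 * K * (m / (220 * K)) :=
          mul_le_mul_of_nonneg_left h1 (by positivity)
      _ = 5 / 100 * m := by
        field_simp
        ring
  have hl4 : |lam| * (2 * r : ℕ) ≤ 1 / 1000 * m := by
    push_cast
    calc |lam| * (2 * (r : ℝ)) ≤ 104 / 100 * (2 * (r : ℝ)) :=
          mul_le_mul_of_nonneg_right hd2 (by positivity)
      _ ≤ 1 / 1000 * m := by linarith
  have hl5 : 15 * η * m ≤ 1 / 4800 * m := mul_le_mul_of_nonneg_right hη1 (by positivity)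
  have hl6 : |LinearMap.trace ℝ (Eu m) T - lam * m| ≤ 7 / 100 * m := by
    refine hl2.trans ?_
    linarith
  have hl7 : |lam * m - m / 2| ≤ 7 / 100 * m + 2 * K := by
    have : lam * m - m / 2 = -(LinearMap.trace ℝ (Eu m) T - lam * m) +
      (LinearMap.trace ℝ (Eu m) T - m / 2) := by ring
    rw [this]
    refine (abs_add_le _ _).trans ?_
    rw [abs_neg]
    linarith
  have hl8 : |lam * m - m / 2| = |lam - 1 / 2| * m := by
    rw [show lam * m - m / 2 = (lam - 1 / 2) * m by ring, abs_mul,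
      abs_of_nonneg (show (0 : ℝ) ≤ m by positivity)]
  rw [hl8] at hl7
  have hl9 : 46 / 100 * (m : ℝ) ≤ |lam - 1 / 2| * m :=
    mul_le_mul_of_nonneg_right hd1 (by positivity)
  linarith

end Pool.Agent.JohnsonSp
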