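import Pool.Agent.JohnsonSp.Defs

/-!
Module Dual of the proof of S06184: duality between `vnorm q g` and the absolutely convex hull
of the columns with `ℓ_{q'}` coefficients.
-/

set_option autoImplicit false

namespace Pool.Agent.JohnsonSp

/-- The unit ball of `ℓ_{q'}^k`. -/
def qball (k : ℕ) (q' : ℝ) : Set (Fin k → ℝ) := {c | (∑ i, |c i| ^ q') ≤ 1}

theorem qball_convex (k : ℕ) (q' : ℝ) (hq' : 1 ≤ q') : Convex ℝ (qball k q') := by
  intro c hc c' hc' a b ha hb hab
  have h1 : ∀ i, |a * c i + b * c' i| ^ q' ≤ a * |c i| ^ q' + b * |c' i| ^ q' := by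
    intro i
    have h2 : |a * c i + b * c' i| ≤ a * |c i| + b * |c' i| := by
      refine (abs_add_le _ _).trans ?_
      rw [abs_mul, abs_mul, abs_of_nonneg ha, abs_of_nonneg hb]
    have h3 : |a * c i + b * c' i| ^ q' ≤ (a * |c i| + b * |c' i|) ^ q' :=
      Real.rpow_le_rpow (abs_nonneg _) h2 (by linarith)
    refine h3.trans ?_
    have h4 := (convexOn_rpow hq').2 (abs_nonneg (c i) : |c i| ∈ Set.Ici 0)
      (abs_nonneg (c' i) : |c' i| ∈ Set.Ici 0) ha hb hab
    simpa [smul_eq_mul] using h4
  have h5 : ∑ i, |a * c i + b * c' i| ^ q' ≤ ∑ i, (a * |c i| ^ q' + b * |c' i| ^ q') :=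
    Finset.sum_le_sum fun i _ => h1 i
  rw [Finset.sum_add_distrib, ← Finset.mul_sum, ← Finset.mul_sum] at h5
  have hc1 : (∑ i, |c i| ^ q') ≤ 1 := hc
  have hc2 : (∑ i, |c' i| ^ q') ≤ 1 := hc'
  change (∑ i, |(a • c + b • c') i| ^ q') ≤ 1
  simp only [Pi.add_apply, Pi.smul_apply, smul_eq_mul]
  nlinarith

theorem qball_compact (k : ℕ) (q' : ℝ) (hq' : 1 ≤ q') : IsCompact (qball k q') := by
  apply Metric.isCompact_of_isClosed_isBounded
  · have : qball k q' = (fun c : Fin k → ℝ => ∑ i, |c i| ^ q') ⁻¹' Set.Iic 1 := rfl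
    rw [this]
    apply isClosed_Iic.preimage
    refine continuous_finsetSum _ fun i _ => ?_
    exact (continuous_abs.comp (continuous_apply i)).rpow_const fun x => Or.inr (by linarith)
  · refine (Metric.isBounded_iff_subset_closedBall (0 : Fin k → ℝ)).mpr ⟨1, ?_⟩
    intro c hc
    rw [mem_closedBall_zero_iff, pi_norm_le_iff_of_nonneg zero_le_one]
    intro i
    have h1 : |c i| ^ q' ≤ 1 := by
      refine le_trans ?_ (hc : (∑ i, |c i| ^ q') ≤ 1)
      exact Finset.single_le_sum (f := fun i => |c i| ^ q')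
        (fun j _ => Real.rpow_nonneg (abs_nonneg _) _) (Finset.mem_univ i)
    rw [Real.norm_eq_abs]
    by_contra h
    push Not at h
    have := Real.one_lt_rpow h (by linarith : 0 < q')
    linarith

theorem Dual : Stmt_Dual := by
  intro m k q q' K g z hq hqq hK hz
  have hq0 : 0 < q := by linarith
  have hq'eq : 1 / q' = 1 - 1 / q := by linarith
  have h1q : 0 < 1 / q := by positivity
  have h1q2 : 1 / q ≤ 1 / 2 := one_div_le_one_div_of_le (by norm_num) hq
  have hq'pos : 0 < q' := by
    have : 0 < 1 / q' := by rw [hq'eq]; linarith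
    exact one_div_pos.mp this
  have hq'1 : 1 ≤ q' := by
    have h : 1 / q' ≤ 1 := by rw [hq'eq]; linarith
    rw [div_le_one hq'pos] at h
    exact h
  have hmulq : (q - 1) * q' = q := by
    have hne : q ≠ 0 := hq0.ne'
    have hne' : q' ≠ 0 := hq'pos.ne'
    field_simp at hqq
    nlinarith
  let A : (Fin k → ℝ) →ₗ[ℝ] Eu m :=
    { toFun := fun c => K • ∑ i, c i • g i
      map_add' := by
        intro c c'
        rw [← smul_add, ← Finset.sum_add_distrib]
        simp only [Pi.add_apply, add_smul]
      map_smul' := by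
        intro a c
        simp only [Pi.smul_apply, smul_eq_mul, RingHom.id_apply, mul_smul]
        rw [smul_comm a K, ← Finset.smul_sum] }
  have hA : ∀ c, A c = K • ∑ i, c i • g i := fun c => rfl
  by_contra hcon
  have hzC : z ∉ A '' qball k q' := by
    rintro ⟨c, hc, hcz⟩
    exact hcon ⟨c, hc, by rw [← hcz, hA]⟩
  have hconv : Convex ℝ (A '' qball k q') := (qball_convex k q' hq'1).linear_image A
  have hcomp : IsCompact (A '' qball k q') :=
    (qball_compact k q' hq'1).image (LinearMap.continuous_of_finiteDimensional A)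
  obtain ⟨f, u, hf1, hf2⟩ := geometric_hahn_banach_closed_point hconv hcomp.isClosed hzC
  set x : Eu m := (InnerProductSpace.toDual ℝ (Eu m)).symm f with hx
  have hfx : ∀ y, f y = inner ℝ x y := by
    intro y
    rw [hx, InnerProductSpace.toDual_symm_apply]
  have h1 := hz x
  have h2 : inner ℝ z x = f z := by rw [hfx, real_inner_comm]
  have hn0 : 0 ≤ ∑ i, |inner ℝ (g i) x| ^ q :=
    Finset.sum_nonneg fun i _ => Real.rpow_nonneg (abs_nonneg _) _
  have hzero : (0 : Fin k → ℝ) ∈ qball k q' := by
    change (∑ i, |(0 : Fin k → ℝ) i| ^ q') ≤ 1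
    simp [Real.zero_rpow hq'pos.ne']
  have hu0 : 0 < u := by
    have := hf1 _ ⟨0, hzero, rfl⟩
    rwa [map_zero, map_zero] at this
  rcases hn0.eq_or_lt with h0 | hpos
  · have h3 : vnorm q g x = 0 := by
      unfold vnorm
      rw [← h0, Real.zero_rpow]
      exact (one_div_pos.mpr hq0).ne'
    rw [h3, mul_zero, h2] at h1
    linarith
  · set M : ℝ := ∑ i, |inner ℝ (g i) x| ^ q with hM
    set n : ℝ := vnorm q g x with hn
    have hnM : n = M ^ (1 / q) := rfl
    have hnpos : 0 < n := by rw [hnM]; exact Real.rpow_pos_of_pos hpos _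
    have hnq : n ^ q = M := by
      rw [hnM, ← Real.rpow_mul hpos.le, one_div_mul_cancel hq0.ne', Real.rpow_one]
    let c : Fin k → ℝ := fun i =>
      SignType.sign (inner ℝ (g i) x) * (|inner ℝ (g i) x| ^ (q - 1) / n ^ (q - 1))
    have hcabs : ∀ i, |c i| ^ q' = |inner ℝ (g i) x| ^ q / M := by
      intro i
      by_cases h : inner ℝ (g i) x = 0
      · have : c i = 0 := by simp [c, h]
        rw [this, h, abs_zero, Real.zero_rpow hq'pos.ne', Real.zero_rpow hq0.ne', zero_div]
      · have h3 : |c i| = |inner ℝ (g i) x| ^ (q - 1) / n ^ (q - 1) := by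
          simp only [c]
          rw [abs_mul, abs_of_nonneg (a := |inner ℝ (g i) x| ^ (q - 1) / n ^ (q - 1))
            (div_nonneg (Real.rpow_nonneg (abs_nonneg _) _) (Real.rpow_nonneg hnpos.le _))]
          rcases lt_or_gt_of_ne h with h' | h'
          · rw [sign_neg h']; simp
          · rw [sign_pos h']; simp
        rw [h3, Real.div_rpow (Real.rpow_nonneg (abs_nonneg _) _) (Real.rpow_nonneg hnpos.le _),
          ← Real.rpow_mul (abs_nonneg _), ← Real.rpow_mul hnpos.le, hmulq, hnq]
    have hcball : c ∈ qball k q' := by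
      change (∑ i, |c i| ^ q') ≤ 1
      rw [Finset.sum_congr rfl fun i _ => hcabs i, ← Finset.sum_div, ← hM, div_self hpos.ne']
    have h4 := hf1 _ ⟨c, hcball, rfl⟩
    have h5 : f (A c) = K * n := by
      rw [hfx, hA, inner_smul_right, inner_sum]
      congr 1
      have h6 : ∀ i, inner ℝ x (c i • g i) = |inner ℝ (g i) x| ^ q / n ^ (q - 1) := by
        intro i
        rw [inner_smul_right, real_inner_comm]
        have h7 : c i * inner ℝ (g i) x =
            (|inner ℝ (g i) x| ^ (q - 1) * |inner ℝ (g i) x|) / n ^ (q - 1) := by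
          have h8 : (SignType.sign (inner ℝ (g i) x) : ℝ) * inner ℝ (g i) x
              = |inner ℝ (g i) x| := sign_mul_self _
          calc c i * inner ℝ (g i) x
              = |inner ℝ (g i) x| ^ (q - 1) / n ^ (q - 1) *
                ((SignType.sign (inner ℝ (g i) x) : ℝ) * inner ℝ (g i) x) := by
                  simp only [c]; ring
            _ = _ := by rw [h8]; ring
        rw [h7]
        congr 1
        by_cases h : inner ℝ (g i) x = 0
        · rw [h, abs_zero, mul_zero, Real.zero_rpow hq0.ne']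
        · have h9 : 0 < |inner ℝ (g i) x| := abs_pos.mpr h
          rw [← Real.rpow_add_one h9.ne']
          congr 1
          ring
      rw [Finset.sum_congr rfl fun i _ => h6 i, ← Finset.sum_div, ← hM, ← hnq,
        ← Real.rpow_sub hnpos]
      have : q - (q - 1) = 1 := by ring
      rw [this, Real.rpow_one]
    rw [h5] at h4
    rw [h2] at h1
    linarith

end Pool.Agent.JohnsonSp
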