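import Pool.Agent.JohnsonSp.Defs

/-!
Module ESub: the subspace `ESub` is closed and infinite-dimensional.
-/

set_option autoImplicit false
open Filter Topology

namespace Pool.Agent.JohnsonSp

section ESubAux

/-- The map `y ↦ (⟨g_i, y⟩)_i`. -/
noncomputable def emb {m k : ℕ} (p : ENNReal) [Fact (1 ≤ p)] (g : Fin k → Eu m) :
    Eu m →ₗ[ℝ] PiLp p (fun _ : Fin k => ℝ) where
  toFun y := WithLp.toLp p (fun i => inner ℝ (g i) y)
  map_add' x y := by
    ext i
    simp [inner_add_right]
  map_smul' c x := by
    ext i
    simp [inner_smul_right]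

lemma emb_apply {m k : ℕ} (p : ENNReal) [Fact (1 ≤ p)] (g : Fin k → Eu m) (y : Eu m)
    (i : Fin k) : (emb p g y) i = inner ℝ (g i) y := rfl

end ESubAux

theorem ESub_module : Stmt_ESub := by
  intro k m q _ g hm hg
  constructor
  · have hset : (ESub k m q g : Set (XS k q)) =
        ⋂ n, {x : XS k q | x n ∈ LinearMap.range (emb (ENNReal.ofReal (q n)) (g n))} := by
      ext x
      simp only [Set.mem_iInter]
      constructor
      · intro hx n
        obtain ⟨y, hy⟩ := hx n
        refine ⟨y, ?_⟩
        ext i
        rw [emb_apply, hy]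
      · intro hx n
        obtain ⟨y, hy⟩ := hx n
        refine ⟨y, fun i => ?_⟩
        rw [← hy, emb_apply]
    rw [hset]
    apply isClosed_iInter
    intro n
    have hcl : IsClosed ((LinearMap.range (emb (ENNReal.ofReal (q n)) (g n)) :
        Submodule ℝ (PiLp (ENNReal.ofReal (q n)) (fun _ : Fin (k n) => ℝ))) :
        Set (PiLp (ENNReal.ofReal (q n)) (fun _ : Fin (k n) => ℝ))) :=
      Submodule.closed_of_finiteDimensional _
    have hcont : Continuous (fun x : XS k q => x n) :=
      (lp.evalCLM ℝ (fun n : ℕ => PiLp (ENNReal.ofReal (q n)) (fun _ : Fin (k n) => ℝ)) 2 n).continuous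
    exact hcl.preimage hcont
  · intro hfin
    have hy : ∀ n, ∃ y : Eu (m n), y ≠ 0 := by
      intro n
      have : Nonempty (Fin (m n)) := ⟨⟨0, hm n⟩⟩
      exact exists_ne 0
    choose y hy using hy
    let u : ∀ n, PiLp (ENNReal.ofReal (q n)) (fun _ : Fin (k n) => ℝ) :=
      fun n => emb (ENNReal.ofReal (q n)) (g n) (y n)
    have hu : ∀ n, u n ≠ 0 := by
      intro n h0
      apply hy n
      apply hg n
      intro i
      have := congrArg (fun z : PiLp (ENNReal.ofReal (q n)) (fun _ : Fin (k n) => ℝ) => z i) h0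
      simpa [u, emb_apply] using this
    let v : ℕ → ESub k m q g := fun n => ⟨lp.single 2 n (u n), by
      intro l
      by_cases hl : l = n
      · subst hl
        refine ⟨y l, fun i => ?_⟩
        rw [lp.single_apply_self]
        rfl
      · refine ⟨0, fun i => ?_⟩
        rw [lp.single_apply_ne _ _ _ hl]
        simp⟩
    have hli : LinearIndependent ℝ v := by
      rw [linearIndependent_iff']
      intro s c hc n hn
      have h1 := congrArg (fun z : ESub k m q g => (lp.evalCLM ℝ
        (fun n : ℕ => PiLp (ENNReal.ofReal (q n)) (fun _ : Fin (k n) => ℝ)) 2 n)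
          ((ESub k m q g).subtype z)) hc
      simp only [map_sum, map_smul, map_zero] at h1
      rw [Finset.sum_eq_single n] at h1
      · have h2 : (lp.evalCLM ℝ
          (fun n : ℕ => PiLp (ENNReal.ofReal (q n)) (fun _ : Fin (k n) => ℝ)) 2 n)
          ((ESub k m q g).subtype (v n)) = u n := by
          exact lp.single_apply_self (E := fun n : ℕ => PiLp (ENNReal.ofReal (q n)) (fun _ : Fin (k n) => ℝ)) 2 n (u n)
        rw [h2] at h1
        exact (smul_eq_zero.1 h1).resolve_right (hu n)
      · intro l _ hl
        have h2 : (lp.evalCLM ℝ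
          (fun n : ℕ => PiLp (ENNReal.ofReal (q n)) (fun _ : Fin (k n) => ℝ)) 2 n)
          ((ESub k m q g).subtype (v l)) = 0 := by
          exact lp.single_apply_ne (E := fun n : ℕ => PiLp (ENNReal.ofReal (q n)) (fun _ : Fin (k n) => ℝ)) 2 l (u l) (Ne.symm hl)
        rw [h2, smul_zero]
      · intro h; exact absurd hn h
    exact Module.Finite.not_linearIndependent_of_infinite v hli

end Pool.Agent.JohnsonSp
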