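import Pool.Agent.JohnsonSp.Defs

set_option autoImplicit false
open Filter Topology

namespace Pool.Agent.JohnsonSp

theorem FDD : Stmt_FDD := by
  intro Y _ _ T C h1 h2 h3 hfin hC happ
  have hup : ∀ m n y, m ≤ n → T n (T m y) = T m y := by
    intro m n y hmn
    induction n, hmn using Nat.le_induction with
    | base => exact h1 m y
    | succ n hn ih =>
      have := h2 n (T m y)
      rw [ih] at this
      exact this
  have hdn : ∀ m n, m ≤ n → ∀ y, T m (T n y) = T m y := by
    intro m n hmn
    induction n, hmn using Nat.le_induction with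
    | base => exact h1 m
    | succ n hn ih =>
      intro y
      rw [← ih (T (n + 1) y), h3, ih]
  -- convergence
  have hconv : ∀ x, Tendsto (fun n => T n x) atTop (𝓝 x) := by
    intro x
    rw [Metric.tendsto_atTop]
    intro ε hε
    have hC' : 0 < |C| + 1 := by positivity
    obtain ⟨n, z, hz, hxz⟩ := happ x (ε / (2 * (|C| + 1))) (by positivity)
    refine ⟨n, fun m hm => ?_⟩
    have hmz : T m z = z := by
      rw [← hz]
      exact hup n m z hm
    rw [dist_eq_norm]
    have e1 : T m x - x = T m (x - z) - (x - z) := by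
      rw [map_sub, hmz]; abel
    rw [e1]
    have b1 : ‖T m (x - z)‖ ≤ |C| * ‖x - z‖ := by
      refine (hC m _).trans ?_
      exact mul_le_mul_of_nonneg_right (le_abs_self C) (norm_nonneg _)
    have b2 : ‖T m (x - z) - (x - z)‖ ≤ (|C| + 1) * ‖x - z‖ := by
      refine (norm_sub_le _ _).trans ?_
      linarith
    have b3 : (|C| + 1) * ‖x - z‖ < (|C| + 1) * (ε / (2 * (|C| + 1))) :=
      mul_lt_mul_of_pos_left hxz hC'
    have b4 : (|C| + 1) * (ε / (2 * (|C| + 1))) = ε / 2 := by
      field_simp
    linarith
  -- the subspaces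
  let F : ℕ → Submodule ℝ Y := fun n => Nat.rec (LinearMap.range (T 0 : Y →ₗ[ℝ] Y))
    (fun n _ => LinearMap.range ((T (n + 1) - T n : Y →L[ℝ] Y) : Y →ₗ[ℝ] Y)) n
  have hF0 : F 0 = LinearMap.range (T 0 : Y →ₗ[ℝ] Y) := rfl
  have hFs : ∀ n, F (n + 1) = LinearMap.range ((T (n + 1) - T n : Y →L[ℝ] Y) : Y →ₗ[ℝ] Y) :=
    fun n => rfl
  -- T n acts on F i
  have hact1 : ∀ i n, i ≤ n → ∀ y ∈ F i, T n y = y := by
    intro i n hin y hy
    rcases i with _ | i
    · rw [hF0] at hy
      obtain ⟨z, rfl⟩ := hy
      exact hup 0 n z hin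
    · rw [hFs] at hy
      obtain ⟨z, rfl⟩ := hy
      simp only [ContinuousLinearMap.coe_coe, sub_apply, map_sub]
      rw [hup (i + 1) n z hin, hup i n z (by omega)]
  have hact2 : ∀ i n, n < i → ∀ y ∈ F i, T n y = 0 := by
    intro i n hin y hy
    rcases i with _ | i
    · omega
    · rw [hFs] at hy
      obtain ⟨z, rfl⟩ := hy
      simp only [ContinuousLinearMap.coe_coe, sub_apply, map_sub]
      rw [hdn n (i + 1) (by omega) z, hdn n i (by omega) z, sub_self]
  refine ⟨F, ?_, ?_⟩
  · intro n
    rcases n with _ | n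
    · exact hfin 0
    · rw [hFs]
      have := hfin n
      have := hfin (n + 1)
      have hle : LinearMap.range ((T (n + 1) - T n : Y →L[ℝ] Y) : Y →ₗ[ℝ] Y) ≤
          LinearMap.range (T (n + 1) : Y →ₗ[ℝ] Y) ⊔ LinearMap.range (T n : Y →ₗ[ℝ] Y) := by
        rintro _ ⟨z, rfl⟩
        simp only [ContinuousLinearMap.coe_coe, sub_apply]
        exact Submodule.sub_mem _
          (Submodule.mem_sup_left (LinearMap.mem_range_self (T (n + 1) : Y →ₗ[ℝ] Y) z))
          (Submodule.mem_sup_right (LinearMap.mem_range_self (T n : Y →ₗ[ℝ] Y) z))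
      exact Submodule.finiteDimensional_of_le hle
  · intro x
    let y : ℕ → Y := fun n => Nat.rec (T 0 x) (fun n _ => T (n + 1) x - T n x) n
    have hy0 : y 0 = T 0 x := rfl
    have hys : ∀ n, y (n + 1) = T (n + 1) x - T n x := fun n => rfl
    have hsum : ∀ N, ∑ i ∈ Finset.range (N + 1), y i = T N x := by
      intro N
      induction N with
      | zero => simp [hy0]
      | succ N ih =>
        rw [Finset.sum_range_succ, ih, hys]
        abel
    refine ⟨y, ⟨?_, ?_⟩, ?_⟩
    · intro n
      rcases n with _ | n
      · rw [hF0, hy0]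
        exact LinearMap.mem_range_self (T 0 : Y →ₗ[ℝ] Y) x
      · rw [hFs, hys]
        exact ⟨x, rfl⟩
    · rw [← tendsto_add_atTop_iff_nat 1]
      simp_rw [hsum]
      exact hconv x
    · rintro y' ⟨hy'F, hy'⟩
      -- partial sums of y' are T n x
      have hps : ∀ n, ∑ i ∈ Finset.range (n + 1), y' i = T n x := by
        intro n
        have hlim : Tendsto (fun N => T n (∑ i ∈ Finset.range N, y' i)) atTop (𝓝 (T n x)) :=
          ((T n).continuous.tendsto x).comp hy'
        have hev : ∀ N, n + 1 ≤ N →
            T n (∑ i ∈ Finset.range N, y' i) = ∑ i ∈ Finset.range (n + 1), y' i := by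
          intro N hN
          induction N, hN using Nat.le_induction with
          | base =>
            rw [map_sum]
            refine Finset.sum_congr rfl fun i hi => ?_
            exact hact1 i n (by rw [Finset.mem_range] at hi; omega) _ (hy'F i)
          | succ N hN ih =>
            rw [Finset.sum_range_succ, map_add, ih, hact2 N n (by omega) _ (hy'F N), add_zero]
        have hlim2 : Tendsto (fun N => T n (∑ i ∈ Finset.range N, y' i)) atTop
            (𝓝 (∑ i ∈ Finset.range (n + 1), y' i)) := by
          refine tendsto_const_nhds.congr' ?_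
          filter_upwards [eventually_ge_atTop (n + 1)] with N hN
          exact (hev N hN).symm
        exact tendsto_nhds_unique hlim2 hlim
      funext n
      rcases n with _ | n
      · have := hps 0
        simp only [zero_add, Finset.sum_range_one] at this
        rw [this, hy0]
      · have a1 := hps (n + 1)
        rw [Finset.sum_range_succ, hps n] at a1
        rw [hys, ← a1]
        abel

end Pool.Agent.JohnsonSp
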