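import Pool.Agent.JohnsonSp.Defs

/-!
The finite-dimensional theorem from its deterministic and probabilistic parts.
-/

set_option autoImplicit false
open Filter Topology

namespace Pool.Agent.JohnsonSp

lemma Cols.inj {m k : ℕ} {g : Fin k → Eu m} (hk : 1 ≤ k) (hg : Cols g) (x : Eu m)
    (hx : ∀ i, inner ℝ (g i) x = 0) : x = 0 := by
  have hk0 : (0 : ℝ) < Real.sqrt k := Real.sqrt_pos.2 (by exact_mod_cast hk)
  ext j
  obtain ⟨i, hi⟩ := hg.1 j
  have h1 := hx i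
  rw [hi, real_inner_smul_left, EuclideanSpace.inner_single_left] at h1
  rcases mul_eq_zero.1 h1 with h2 | h2
  · exact absurd h2 hk0.ne'
  · simpa using h2

theorem fin_thm (hDet : Stmt_Det) (hProb : Stmt_Prob) : Stmt_Fin := by
  intro K hK
  obtain ⟨δ, η, hδ, hδ1, hη, hdet⟩ := hDet K hK
  obtain ⟨A, hA, D1, hD1, hprob⟩ := hProb K δ η hK hδ hδ1 hη
  obtain ⟨D0, hD0, hdet⟩ := hdet A (by omega)
  refine ⟨A, max D0 D1, hA, hD0.trans_le (le_max_left _ _), fun d => ?_⟩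
  obtain ⟨m0, hm0⟩ := hdet (max D0 D1) (le_max_left _ _) d
  obtain ⟨m1, hm1⟩ := hprob (max D0 D1) (le_max_right _ _)
  refine ⟨max (max m0 m1) 1, fun m hm q hq hq4 hD => ?_⟩
  have h1 : m0 ≤ m := (le_max_left _ _).trans ((le_max_left _ _).trans hm)
  have h2 : m1 ≤ m := (le_max_right _ _).trans ((le_max_left _ _).trans hm)
  have h3 : 1 ≤ m := (le_max_right _ _).trans hm
  obtain ⟨g, hg, hno⟩ := hm1 m h2 q hq hq4 hD
  refine ⟨g, fun x hx => Cols.inj ?_ hg x hx, fun hbad => hno ?_⟩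
  · exact Nat.succ_le_of_lt (Nat.mul_pos (by omega) (by omega))
  · exact hm0 m h1 q hq hq4 hD g hg hbad

end Pool.Agent.JohnsonSp
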