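import Pool.Agent.JohnsonSp.Defs

set_option autoImplicit false
open Filter Topology

namespace Pool.Agent.JohnsonSp

/-- Main deduction: from the modules to the negation of the frozen statement. -/
theorem final_of (hJ : Stmt_Johnson) (hForm : Stmt_Form) (hB : Stmt_Basis) (hH : Stmt_Hilb)
    (hE : Stmt_ESub) (hR : Stmt_Red) (hS : Stmt_Seq) :
    ¬ (∀ (k : ℕ → ℕ) (p : ℕ → ENNReal) [∀ n, Fact (1 ≤ p n)],
    Tendsto k atTop atTop → Tendsto p atTop (𝓝 2) →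
    (¬ Nonempty (lp (fun n : ℕ => PiLp (p n) (fun _ : Fin (k n) => ℝ)) 2 ≃L[ℝ] lp (fun _ : ℕ => ℝ) 2)) →
    (∀ E : Submodule ℝ (lp (fun n : ℕ => PiLp (p n) (fun _ : Fin (k n) => ℝ)) 2),
      IsClosed (E : Set (lp (fun n : ℕ => PiLp (p n) (fun _ : Fin (k n) => ℝ)) 2)) →
      (∃ F : ℕ → Submodule ℝ E, (∀ n, FiniteDimensional ℝ (F n)) ∧
        ∀ x : E, ∃! y : ℕ → E, (∀ n, y n ∈ F n) ∧
          Tendsto (fun N => ∑ i ∈ Finset.range N, y i) atTop (𝓝 x)) ∧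
      (∃ (C : ℝ) (f : ℕ → ℕ), ∀ G : Submodule ℝ E, FiniteDimensional ℝ G →
        ∃ T : E →L[ℝ] E, (∀ x ∈ G, T x = x) ∧ ‖T‖ ≤ C ∧
          FiniteDimensional ℝ (LinearMap.range (T : E →ₗ[ℝ] E)) ∧
          Module.finrank ℝ (LinearMap.range (T : E →ₗ[ℝ] E)) ≤ f (Module.finrank ℝ G))) →
    ∀ E : Submodule ℝ (lp (fun n : ℕ => PiLp (p n) (fun _ : Fin (k n) => ℝ)) 2),
      IsClosed (E : Set (lp (fun n : ℕ => PiLp (p n) (fun _ : Fin (k n) => ℝ)) 2)) →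
      ¬ FiniteDimensional ℝ E →
      ∃ e : ℕ → E, ∀ x : E, ∃! a : ℕ → ℝ,
        Tendsto (fun N => ∑ i ∈ Finset.range N, a i • e i) atTop (𝓝 x)) := by
  intro hmain
  obtain ⟨k, m, N, q, g, hk, hq, hq2, hm1, h1, h2, h3, h4, h5, h6, h7⟩ := hS
  have hfact : ∀ n, Fact (1 ≤ ENNReal.ofReal (q n)) := fun n =>
    ⟨by
      have : (1 : ENNReal) = ENNReal.ofReal 1 := by simp
      rw [this]
      exact ENNReal.ofReal_le_ofReal (by linarith [hq2 n])⟩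
  obtain ⟨hcl, hinf⟩ := hE k m q g hm1 h6
  have hp2 : Tendsto (fun n => ENNReal.ofReal (q n)) atTop (𝓝 2) := by
    have h := (ENNReal.continuous_ofReal.tendsto 2).comp hq
    have h2 : ENNReal.ofReal 2 = 2 := by simp
    rw [h2] at h
    exact h
  have hJ' := hJ k q N hq2 h1 h2 h3 h4
  have hbasis : ∃ e : ℕ → ESub k m q g, ∀ x : ESub k m q g, ∃! a : ℕ → ℝ,
        Tendsto (fun N => ∑ i ∈ Finset.range N, a i • e i) atTop (𝓝 x) := by
    by_cases hiso : Nonempty (XS k q ≃L[ℝ] lp (fun _ : ℕ => ℝ) 2)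
    · obtain ⟨φ⟩ := hiso
      exact hH (XS k q) φ (ESub k m q g) hcl hinf
    · exact hmain k (fun n => ENNReal.ofReal (q n)) hk hp2 hiso (fun E hE => hJ' E hE)
        (ESub k m q g) hcl hinf
  obtain ⟨e, he⟩ := hbasis
  have : CompleteSpace (ESub k m q g) := hcl.completeSpace_coe
  obtain ⟨P, C, hP⟩ := hB (ESub k m q g) e he
  obtain ⟨n, hn⟩ := exists_nat_ge C
  have hP' : PartialSums P ((n : ℝ) + 1) := by
    refine ⟨fun j x => ?_, hP.2⟩
    refine (hP.1 j x).trans ?_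
    exact mul_le_mul_of_nonneg_right (by linarith) (norm_nonneg x)
  refine h7 n ?_
  refine hR k m q g n (∑ l ∈ Finset.range n, m l) ((n : ℝ) + 1) (by positivity) hq2 h6 ?_
    le_rfl P hP'
  intro G hG hfd hfr
  exact hForm k q (n + 1) (N (n + 1)) hq2 (fun l hl => h1 (n + 1) l hl) G hG hfd
    (hfr.trans (h5 n))

end Pool.Agent.JohnsonSp
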