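import Pool.Agent.JohnsonSp.Defs

set_option autoImplicit false
open Filter Topology

namespace Pool.Agent.JohnsonSp

theorem net_exists (G : Type) [NormedAddCommGroup G] [NormedSpace ℝ G] [FiniteDimensional ℝ G] :
    ∃ s : Finset G, s.card ≤ 5 ^ Module.finrank ℝ G ∧ (∀ y ∈ s, ‖y‖ ≤ 1) ∧
      ∀ x : G, ‖x‖ ≤ 1 → ∃ y ∈ s, ‖x - y‖ ≤ 1 / 2 := by
  classical
  -- maximal separated finset in the ball of radius 2
  let Pr : ℕ → Prop := fun n => ∃ t : Finset G, t.card = n ∧ (∀ c ∈ t, ‖c‖ ≤ 2) ∧
    (∀ c ∈ t, ∀ d ∈ t, c ≠ d → 1 ≤ ‖c - d‖)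
  have h0 : Pr 0 := ⟨∅, by simp, by simp, by simp⟩
  have hb : ∀ n, Pr n → n ≤ 5 ^ Module.finrank ℝ G := by
    rintro n ⟨t, rfl, h1, h2⟩
    exact Besicovitch.card_le_of_separated t h1 h2
  obtain ⟨n, hn, hmax⟩ : ∃ n, Pr n ∧ ∀ m, Pr m → m ≤ n := by
    refine ⟨Nat.findGreatest Pr (5 ^ Module.finrank ℝ G), ?_, ?_⟩
    · exact Nat.findGreatest_spec (m := 0) (Nat.zero_le _) h0
    · intro m hm
      exact Nat.le_findGreatest (hb m hm) hm
  obtain ⟨t, rfl, h1, h2⟩ := hn
  refine ⟨t.image (fun y => (1 / 2 : ℝ) • y), (Finset.card_image_le).trans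
    (Besicovitch.card_le_of_separated t h1 h2), ?_, ?_⟩
  · intro y hy
    obtain ⟨z, hz, rfl⟩ := Finset.mem_image.1 hy
    have := h1 z hz
    rw [norm_smul]
    norm_num
    linarith
  · intro x hx
    by_contra hcon
    push Not at hcon
    have key : ∀ c ∈ t, 1 < ‖(2 : ℝ) • x - c‖ := by
      intro c hc
      have := hcon _ (Finset.mem_image_of_mem _ hc)
      have e : (2 : ℝ) • x - c = (2 : ℝ) • (x - (1 / 2 : ℝ) • c) := by
        rw [smul_sub, smul_smul]; norm_num
      rw [e, norm_smul]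
      norm_num
      linarith
    have hnot : (2 : ℝ) • x ∉ t := by
      intro hmem
      have := key _ hmem
      simp at this
      linarith
    have : Pr (t.card + 1) := by
      refine ⟨insert ((2 : ℝ) • x) t, Finset.card_insert_of_notMem hnot, ?_, ?_⟩
      · intro c hc
        rcases Finset.mem_insert.1 hc with rfl | hc
        · rw [norm_smul]; norm_num; linarith
        · exact h1 c hc
      · intro c hc d hd hcd
        rcases Finset.mem_insert.1 hc with rfl | hc <;> rcases Finset.mem_insert.1 hd with rfl | hd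
        · exact absurd rfl hcd
        · exact (key d hd).le
        · rw [norm_sub_rev]; exact (key c hc).le
        · exact h2 c hc d hd hcd
    have := hmax _ this
    omega

theorem Net : Stmt_Net := by
  intro G _ _ _
  classical
  obtain ⟨s, hcard, hs, hnet⟩ := net_exists G
  refine ⟨s, hcard, hs, ?_⟩
  choose! f hf hfx using hnet
  -- unit ball case
  have unit : ∀ x : G, ‖x‖ ≤ 1 → ∃ c : G → ℝ, (∑ y ∈ s, |c y|) ≤ 2 ∧ ∑ y ∈ s, c y • y = x := by
    intro x hx
    let r : ℕ → G := fun n => Nat.rec x (fun _ z => (2 : ℝ) • (z - f z)) n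
    have r0 : r 0 = x := rfl
    have rs : ∀ n, r (n + 1) = (2 : ℝ) • (r n - f (r n)) := fun n => rfl
    have hr : ∀ n, ‖r n‖ ≤ 1 := by
      intro n
      induction n with
      | zero => exact hx
      | succ n ih =>
        rw [rs, norm_smul]
        have := hfx _ ih
        norm_num
        linarith
    have hpart : ∀ n, x - ∑ j ∈ Finset.range n, (1 / 2 : ℝ) ^ j • f (r j) = (1 / 2 : ℝ) ^ n • r n := by
      intro n
      induction n with
      | zero => simp [r0]
      | succ n ih =>
        rw [Finset.sum_range_succ, ← sub_sub, ih, rs, ← smul_sub, smul_smul, pow_succ]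
        congr 1
        ring
    have hsum2 : HasSum (fun j : ℕ => (1 / 2 : ℝ) ^ j) 2 := by
      have := hasSum_geometric_of_lt_one (r := (1 / 2 : ℝ)) (by norm_num) (by norm_num)
      norm_num at this
      convert this using 2
    have hsummable : Summable (fun j : ℕ => (1 / 2 : ℝ) ^ j) := hsum2.summable
    have hgsum : Summable (fun j : ℕ => (1 / 2 : ℝ) ^ j • f (r j)) := by
      refine Summable.of_norm_bounded hsummable ?_
      intro j
      rw [norm_smul]
      have := hs _ (hf _ (hr j))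
      have h2 : ‖(1 / 2 : ℝ) ^ j‖ = (1 / 2 : ℝ) ^ j := by
        rw [Real.norm_eq_abs, abs_of_nonneg (by positivity)]
      rw [h2]
      exact mul_le_of_le_one_right (by positivity) this
    have hx_sum : HasSum (fun j : ℕ => (1 / 2 : ℝ) ^ j • f (r j)) x := by
      rw [hgsum.hasSum_iff_tendsto_nat]
      have : Tendsto (fun n => (1 / 2 : ℝ) ^ n • r n) atTop (𝓝 0) := by
        rw [tendsto_zero_iff_norm_tendsto_zero]
        refine squeeze_zero (fun n => norm_nonneg _) (g := fun n => (1 / 2 : ℝ) ^ n) ?_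
          (tendsto_pow_atTop_nhds_zero_of_lt_one (by norm_num) (by norm_num))
        intro n
        rw [norm_smul]
        have h2 : ‖(1 / 2 : ℝ) ^ n‖ = (1 / 2 : ℝ) ^ n := by
          rw [Real.norm_eq_abs, abs_of_nonneg (by positivity)]
        rw [h2]
        exact mul_le_of_le_one_right (by positivity) (hr n)
      have h3 : (fun n => ∑ j ∈ Finset.range n, (1 / 2 : ℝ) ^ j • f (r j)) =
          fun n => x - (1 / 2 : ℝ) ^ n • r n := by
        funext n
        rw [← hpart n]
        abel
      rw [h3]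
      simpa using tendsto_const_nhds.sub this
    let c : G → ℝ := fun y => ∑' j : ℕ, if f (r j) = y then (1 / 2 : ℝ) ^ j else 0
    have hcs : ∀ y, Summable (fun j : ℕ => if f (r j) = y then (1 / 2 : ℝ) ^ j else 0) := by
      intro y
      refine Summable.of_nonneg_of_le ?_ ?_ hsummable
      · intro j; split_ifs <;> positivity
      · intro j; split_ifs
        · exact le_rfl
        · positivity
    have hc : ∀ y, HasSum (fun j : ℕ => if f (r j) = y then (1 / 2 : ℝ) ^ j else 0) (c y) :=
      fun y => (hcs y).hasSum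
    have hc0 : ∀ y, 0 ≤ c y := fun y => tsum_nonneg (fun j => by split_ifs <;> positivity)
    refine ⟨c, ?_, ?_⟩
    · have h1 : HasSum (fun j : ℕ => ∑ y ∈ s, if f (r j) = y then (1 / 2 : ℝ) ^ j else 0)
          (∑ y ∈ s, c y) := hasSum_sum fun y _ => hc y
      have h2 : (fun j : ℕ => ∑ y ∈ s, if f (r j) = y then (1 / 2 : ℝ) ^ j else 0) =
          fun j => (1 / 2 : ℝ) ^ j := by
        funext j
        rw [Finset.sum_ite_eq, if_pos (hf _ (hr j))]
      rw [h2] at h1
      have h3 := h1.unique hsum2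
      rw [← h3]
      exact (Finset.sum_congr rfl fun y _ => abs_of_nonneg (hc0 y)).le
    · have h1 : HasSum (fun j : ℕ => ∑ y ∈ s, (if f (r j) = y then (1 / 2 : ℝ) ^ j else 0) • y)
          (∑ y ∈ s, c y • y) := hasSum_sum fun y _ => (hc y).smul_const y
      have h2 : (fun j : ℕ => ∑ y ∈ s, (if f (r j) = y then (1 / 2 : ℝ) ^ j else 0) • y) =
          fun j => (1 / 2 : ℝ) ^ j • f (r j) := by
        funext j
        rw [Finset.sum_eq_single (f (r j))]
        · simp
        · intro b _ hb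
          rw [if_neg (Ne.symm hb), zero_smul]
        · intro h
          exact absurd (hf _ (hr j)) h
      rw [h2] at h1
      exact h1.unique hx_sum
  intro x
  by_cases hx0 : x = 0
  · exact ⟨0, by simp, by simp [hx0]⟩
  have hxp : 0 < ‖x‖ := norm_pos_iff.2 hx0
  obtain ⟨c, hc1, hc2⟩ := unit (‖x‖⁻¹ • x) (by rw [norm_smul, norm_inv, norm_norm]; field_simp; exact le_rfl)
  refine ⟨fun y => ‖x‖ * c y, ?_, ?_⟩
  · have : ∑ y ∈ s, |‖x‖ * c y| = ‖x‖ * ∑ y ∈ s, |c y| := by
      rw [Finset.mul_sum]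
      exact Finset.sum_congr rfl fun y _ => by rw [abs_mul, abs_of_pos hxp]
    rw [this]
    nlinarith
  · have : ∑ y ∈ s, (‖x‖ * c y) • y = ‖x‖ • ∑ y ∈ s, c y • y := by
      rw [Finset.smul_sum]
      exact Finset.sum_congr rfl fun y _ => by rw [mul_smul]
    rw [this, hc2, smul_smul, mul_inv_cancel₀ hxp.ne', one_smul]

end Pool.Agent.JohnsonSp
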