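import Pool.Agent.JohnsonSp.Defs
import Pool.Agent.JohnsonSp.Net

set_option autoImplicit false
open Filter Topology

namespace Pool.Agent.JohnsonSp

namespace FormAux

/-- The `ℓ_q` norm. -/
noncomputable def nq {k : ℕ} (q : ℝ) (f : Fin k → ℝ) : ℝ := (∑ i, |f i| ^ q) ^ (1 / q)

theorem nq_nonneg {k : ℕ} (q : ℝ) (f : Fin k → ℝ) : 0 ≤ nq q f :=
  Real.rpow_nonneg (Finset.sum_nonneg fun _ _ => Real.rpow_nonneg (abs_nonneg _) _) _

theorem nq_rpow {k : ℕ} {q : ℝ} (hq : 2 ≤ q) (f : Fin k → ℝ) :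
    nq q f ^ q = ∑ i, |f i| ^ q := by
  unfold nq
  rw [← Real.rpow_mul (Finset.sum_nonneg fun _ _ => Real.rpow_nonneg (abs_nonneg _) _)]
  rw [one_div, inv_mul_cancel₀ (by linarith), Real.rpow_one]

theorem norm_eq_nq {k : ℕ} {q : ℝ} (hq : 2 ≤ q) [Fact (1 ≤ ENNReal.ofReal q)]
    (x : PiLp (ENNReal.ofReal q) (fun _ : Fin k => ℝ)) : ‖x‖ = nq q (fun i => x i) := by
  have h : (ENNReal.ofReal q).toReal = q := ENNReal.toReal_ofReal (by linarith)
  rw [PiLp.norm_eq_sum (by rw [h]; linarith), h]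
  rfl

/-- weights -/
noncomputable def wt {k : ℕ} (q : ℝ) (φ : Fin k → ℝ) (i : Fin k) : ℝ :=
  if nq q φ = 0 then 0 else (φ i / nq q φ) ^ (q - 2)

theorem wt_nonneg {k : ℕ} (q : ℝ) (φ : Fin k → ℝ) (hφ : ∀ i, 0 ≤ φ i) (i : Fin k) :
    0 ≤ wt q φ i := by
  unfold wt
  split_ifs
  · exact le_rfl
  · exact Real.rpow_nonneg (div_nonneg (hφ i) (nq_nonneg _ _)) _

theorem block_A {k : ℕ} {q : ℝ} (hq : 2 ≤ q) (φ : Fin k → ℝ) (hφ : ∀ i, 0 ≤ φ i)
    (x : Fin k → ℝ) : ∑ i, wt q φ i * x i ^ 2 ≤ nq q x ^ 2 := by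
  by_cases h0 : nq q φ = 0
  · have : ∀ i, wt q φ i = 0 := fun i => by unfold wt; rw [if_pos h0]
    simp only [this, zero_mul, Finset.sum_const_zero]
    positivity
  have hΦ : 0 < nq q φ := lt_of_le_of_ne (nq_nonneg _ _) (Ne.symm h0)
  have hq0 : 0 < q := by linarith
  by_cases hx0 : nq q x = 0
  · -- all x i are zero
    have h1 : ∑ i, |x i| ^ q = 0 := by
      rw [← nq_rpow hq, hx0, Real.zero_rpow hq0.ne']
    have h2 : ∀ i, x i = 0 := by
      intro i
      have := (Finset.sum_eq_zero_iff_of_nonneg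
        (fun i _ => Real.rpow_nonneg (abs_nonneg (x i)) q)).1 h1 i (Finset.mem_univ _)
      rw [Real.rpow_eq_zero (abs_nonneg _) hq0.ne'] at this
      exact abs_eq_zero.1 this
    simp [h2, hx0]
  have ht : 0 < nq q x := lt_of_le_of_ne (nq_nonneg _ _) (Ne.symm hx0)
  set t := nq q x with ht_def
  set Φ := nq q φ with hΦ_def
  have hyoung : ∀ i, wt q φ i * (|x i| / t) ^ 2 ≤
      (1 - 2 / q) * (φ i / Φ) ^ q + (2 / q) * (|x i| / t) ^ q := by
    intro i
    have hw : wt q φ i = (φ i / Φ) ^ (q - 2) := by unfold wt; rw [if_neg h0]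
    have hu : 0 ≤ φ i / Φ := div_nonneg (hφ i) hΦ.le
    have hv : 0 ≤ |x i| / t := div_nonneg (abs_nonneg _) ht.le
    have := Real.geom_mean_le_arith_mean2_weighted (w₁ := 1 - 2 / q) (w₂ := 2 / q)
      (p₁ := (φ i / Φ) ^ q) (p₂ := (|x i| / t) ^ q)
      (by rw [sub_nonneg, div_le_one hq0]; exact hq) (by positivity)
      (Real.rpow_nonneg hu _) (Real.rpow_nonneg hv _) (by ring)
    rw [← Real.rpow_mul hu, ← Real.rpow_mul hv] at this
    have e1 : q * (1 - 2 / q) = q - 2 := by field_simp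
    have e2 : q * (2 / q) = ((2 : ℕ) : ℝ) := by push_cast; field_simp
    rw [e1, e2, Real.rpow_natCast] at this
    rw [hw]
    exact this
  have hsum : ∑ i, wt q φ i * (|x i| / t) ^ 2 ≤ 1 := by
    calc ∑ i, wt q φ i * (|x i| / t) ^ 2
        ≤ ∑ i, ((1 - 2 / q) * (φ i / Φ) ^ q + (2 / q) * (|x i| / t) ^ q) :=
          Finset.sum_le_sum fun i _ => hyoung i
      _ = (1 - 2 / q) * ∑ i, (φ i / Φ) ^ q + (2 / q) * ∑ i, (|x i| / t) ^ q := by
          rw [Finset.sum_add_distrib, Finset.mul_sum, Finset.mul_sum]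
      _ = (1 - 2 / q) * 1 + (2 / q) * 1 := by
          have a1 : ∑ i, (φ i / Φ) ^ q = 1 := by
            have : ∀ i, (φ i / Φ) ^ q = |φ i| ^ q / Φ ^ q := fun i => by
              rw [Real.div_rpow (hφ i) hΦ.le, abs_of_nonneg (hφ i)]
            simp only [this]
            rw [← Finset.sum_div, ← nq_rpow hq φ, div_self]
            exact (Real.rpow_pos_of_pos hΦ _).ne'
          have a2 : ∑ i, (|x i| / t) ^ q = 1 := by
            have : ∀ i, (|x i| / t) ^ q = |x i| ^ q / t ^ q := fun i => by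
              rw [Real.div_rpow (abs_nonneg _) ht.le]
            simp only [this]
            rw [← Finset.sum_div, ← nq_rpow hq x, div_self]
            exact (Real.rpow_pos_of_pos ht _).ne'
          rw [a1, a2]
      _ = 1 := by ring
  have : ∑ i, wt q φ i * x i ^ 2 = t ^ 2 * ∑ i, wt q φ i * (|x i| / t) ^ 2 := by
    rw [Finset.mul_sum]
    refine Finset.sum_congr rfl fun i _ => ?_
    rw [div_pow, sq_abs]
    field_simp
  rw [this]
  exact mul_le_of_le_one_right (by positivity) hsum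

theorem block_B {k : ℕ} {q : ℝ} (hq : 2 ≤ q) (φ : Fin k → ℝ) (hφ : ∀ i, 0 ≤ φ i)
    (x : Fin k → ℝ) (a : ℝ) (ha : 0 ≤ a) (hx : ∀ i, |x i| ≤ a * φ i) :
    nq q x ^ 2 ≤ (1 - 2 / q) * (a * nq q φ) ^ 2 + ∑ i, wt q φ i * x i ^ 2 := by
  have hq0 : 0 < q := by linarith
  have hθ : 0 ≤ 1 - 2 / q := by rw [sub_nonneg, div_le_one hq0]; exact hq
  have hB : 0 ≤ ∑ i, wt q φ i * x i ^ 2 :=
    Finset.sum_nonneg fun i _ => mul_nonneg (wt_nonneg q φ hφ i) (sq_nonneg _)
  by_cases h0 : nq q φ = 0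
  · have h1 : ∑ i, |φ i| ^ q = 0 := by
      rw [← nq_rpow hq, h0, Real.zero_rpow hq0.ne']
    have h2 : ∀ i, φ i = 0 := by
      intro i
      have := (Finset.sum_eq_zero_iff_of_nonneg
        (fun i _ => Real.rpow_nonneg (abs_nonneg (φ i)) q)).1 h1 i (Finset.mem_univ _)
      rw [Real.rpow_eq_zero (abs_nonneg _) hq0.ne'] at this
      exact abs_eq_zero.1 this
    have h3 : ∀ i, x i = 0 := by
      intro i
      have := hx i
      rw [h2 i, mul_zero] at this
      exact abs_eq_zero.1 (le_antisymm this (abs_nonneg _))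
    have h4 : nq q x = 0 := by
      unfold nq
      simp only [h3, abs_zero]
      rw [Real.zero_rpow hq0.ne', Finset.sum_const_zero, Real.zero_rpow]
      positivity
    rw [h4]
    have : 0 ≤ (1 - 2 / q) * (a * nq q φ) ^ 2 := mul_nonneg hθ (sq_nonneg _)
    nlinarith
  have hΦ : 0 < nq q φ := lt_of_le_of_ne (nq_nonneg _ _) (Ne.symm h0)
  set Φ := nq q φ with hΦ_def
  set B := ∑ i, wt q φ i * x i ^ 2 with hB_def
  have haΦ : 0 ≤ a * Φ := mul_nonneg ha hΦ.le
  have hpow : nq q x ^ q ≤ (a * Φ) ^ (q - 2) * B := by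
    rw [nq_rpow hq, hB_def, Finset.mul_sum]
    refine Finset.sum_le_sum fun i _ => ?_
    have hw : wt q φ i = (φ i / Φ) ^ (q - 2) := by unfold wt; rw [if_neg h0]
    have e : |x i| ^ q = |x i| ^ (q - 2) * x i ^ 2 := by
      rcases eq_or_lt_of_le (abs_nonneg (x i)) with h | h
      · rw [← h, Real.zero_rpow hq0.ne']
        have : x i = 0 := abs_eq_zero.1 h.symm
        rw [this]; ring
      · have : |x i| ^ q = |x i| ^ (q - 2) * |x i| ^ (2 : ℝ) := by
          rw [← Real.rpow_add h]; ring_nf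
        rw [this]
        congr 1
        have := Real.rpow_natCast |x i| 2
        push_cast at this
        rw [this, sq_abs]
    rw [e, hw]
    have h1 : |x i| ^ (q - 2) ≤ (a * φ i) ^ (q - 2) :=
      Real.rpow_le_rpow (abs_nonneg _) (hx i) (by linarith)
    have h2 : (a * Φ) ^ (q - 2) * (φ i / Φ) ^ (q - 2) = (a * φ i) ^ (q - 2) := by
      rw [← Real.mul_rpow haΦ (div_nonneg (hφ i) hΦ.le)]
      congr 1
      field_simp
    calc |x i| ^ (q - 2) * x i ^ 2 ≤ (a * φ i) ^ (q - 2) * x i ^ 2 :=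
          mul_le_mul_of_nonneg_right h1 (sq_nonneg _)
      _ = (a * Φ) ^ (q - 2) * ((φ i / Φ) ^ (q - 2) * x i ^ 2) := by rw [← h2]; ring
  have hn : nq q x ^ 2 = (nq q x ^ q) ^ (2 / q) := by
    rw [← Real.rpow_mul (nq_nonneg _ _)]
    have e2 : q * (2 / q) = ((2 : ℕ) : ℝ) := by push_cast; field_simp
    rw [e2, Real.rpow_natCast]
  rw [hn]
  calc (nq q x ^ q) ^ (2 / q) ≤ ((a * Φ) ^ (q - 2) * B) ^ (2 / q) :=
        Real.rpow_le_rpow (Real.rpow_nonneg (nq_nonneg _ _) _) hpow (by positivity)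
    _ = ((a * Φ) ^ 2) ^ (1 - 2 / q) * B ^ (2 / q) := by
        rw [Real.mul_rpow (Real.rpow_nonneg haΦ _) hB, ← Real.rpow_mul haΦ]
        congr 1
        have : ((a * Φ) ^ 2) = (a * Φ) ^ ((2 : ℕ) : ℝ) := by rw [Real.rpow_natCast]
        rw [this, ← Real.rpow_mul haΦ]
        congr 1
        push_cast
        field_simp
    _ ≤ (1 - 2 / q) * (a * Φ) ^ 2 + (2 / q) * B :=
        Real.geom_mean_le_arith_mean2_weighted hθ (by positivity) (sq_nonneg _) hB (by ring)
    _ ≤ (1 - 2 / q) * (a * Φ) ^ 2 + B := by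
        have : (2 / q) * B ≤ 1 * B :=
          mul_le_mul_of_nonneg_right ((div_le_one hq0).2 hq) hB
        linarith

theorem block_C {k : ℕ} {q : ℝ} (hq : 2 ≤ q) [Fact (1 ≤ ENNReal.ofReal q)] {α : Type}
    (s : Finset α) (y : α → PiLp (ENNReal.ofReal q) (fun _ : Fin k => ℝ)) :
    nq q (fun i => ∑ a ∈ s, |y a i|) ≤ ∑ a ∈ s, ‖y a‖ := by
  let z : α → PiLp (ENNReal.ofReal q) (fun _ : Fin k => ℝ) := fun a =>
    WithLp.toLp _ (fun i => |y a i|)
  have h1 : ∀ a, ‖z a‖ = ‖y a‖ := by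
    intro a
    rw [norm_eq_nq hq, norm_eq_nq hq]
    unfold nq
    simp [z]
  have h2 : nq q (fun i => ∑ a ∈ s, |y a i|) = ‖∑ a ∈ s, z a‖ := by
    rw [norm_eq_nq hq]
    congr 1
    funext i
    simp [z]
  rw [h2]
  refine (norm_sum_le _ _).trans ?_
  exact (Finset.sum_congr rfl fun a _ => h1 a).le

theorem hasSum_sq (k : ℕ → ℕ) (q : ℕ → ℝ) [∀ n, Fact (1 ≤ ENNReal.ofReal (q n))] (x : XS k q) :
    HasSum (fun l => ‖x l‖ ^ 2) (‖x‖ ^ 2) := by
  have := lp.hasSum_norm (p := 2) (by norm_num) x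
  simpa using this

end FormAux

open FormAux

theorem Form : Stmt_Form := by
  intro k q _ n N hq hθ G hG hfd hN
  classical
  have := hfd
  obtain ⟨s, hcard, hs, hnet⟩ := Net G
  -- the function φ
  let φ : ∀ l : ℕ, Fin (k l) → ℝ := fun l i => ∑ y ∈ s, |((y : XS k q) l) i|
  have hφ : ∀ l i, 0 ≤ φ l i := fun l i => Finset.sum_nonneg fun _ _ => abs_nonneg _
  let w : ∀ l : ℕ, Fin (k l) → ℝ := fun l i => wt (q l) (φ l) i
  have hw : ∀ l i, 0 ≤ w l i := fun l i => wt_nonneg (q l) (φ l) (hφ l) i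
  have hA : ∀ (l : ℕ) (x : XS k q), ∑ i, w l i * (x l) i ^ 2 ≤ ‖x l‖ ^ 2 := by
    intro l x
    rw [norm_eq_nq (hq l)]
    exact block_A (hq l) (φ l) (hφ l) _
  have hsm : ∀ x y : XS k q, Summable fun l => ∑ i, w l i * (x l) i * (y l) i := by
    intro x y
    refine Summable.of_norm_bounded (g := fun l => (‖x l‖ ^ 2 + ‖y l‖ ^ 2) / 2)
      (((hasSum_sq k q x).summable.add (hasSum_sq k q y).summable).div_const 2) ?_
    intro l
    have h1 := hA l x
    have h2 := hA l y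
    rw [Real.norm_eq_abs]
    calc |∑ i, w l i * (x l) i * (y l) i| ≤ ∑ i, |w l i * (x l) i * (y l) i| :=
          Finset.abs_sum_le_sum_abs _ _
      _ ≤ ∑ i, (w l i * (x l) i ^ 2 + w l i * (y l) i ^ 2) / 2 := by
          refine Finset.sum_le_sum fun i _ => ?_
          have hwi := hw l i
          rw [abs_le]
          constructor <;> nlinarith [mul_nonneg hwi (sq_nonneg ((x l) i - (y l) i)),
            mul_nonneg hwi (sq_nonneg ((x l) i + (y l) i))]
      _ = (∑ i, w l i * (x l) i ^ 2 + ∑ i, w l i * (y l) i ^ 2) / 2 := by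
          rw [← Finset.sum_div, Finset.sum_add_distrib]
      _ ≤ (‖x l‖ ^ 2 + ‖y l‖ ^ 2) / 2 := by linarith
  let B : XS k q →ₗ[ℝ] XS k q →ₗ[ℝ] ℝ := LinearMap.mk₂ ℝ
    (fun x y => ∑' l, ∑ i, w l i * (x l) i * (y l) i)
    (by
      intro x x' y
      rw [← (hsm x y).tsum_add (hsm x' y)]
      refine tsum_congr fun l => ?_
      rw [← Finset.sum_add_distrib]
      refine Finset.sum_congr rfl fun i _ => ?_
      simp only [lp.coeFn_add, Pi.add_apply, PiLp.add_apply]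
      ring)
    (by
      intro c x y
      rw [smul_eq_mul, ← tsum_mul_left]
      refine tsum_congr fun l => ?_
      rw [Finset.mul_sum]
      refine Finset.sum_congr rfl fun i _ => ?_
      simp only [lp.coeFn_smul, Pi.smul_apply, PiLp.smul_apply, smul_eq_mul]
      ring)
    (by
      intro x y y'
      rw [← (hsm x y).tsum_add (hsm x y')]
      refine tsum_congr fun l => ?_
      rw [← Finset.sum_add_distrib]
      refine Finset.sum_congr rfl fun i _ => ?_
      simp only [lp.coeFn_add, Pi.add_apply, PiLp.add_apply]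
      ring)
    (by
      intro c x y
      rw [smul_eq_mul, ← tsum_mul_left]
      refine tsum_congr fun l => ?_
      rw [Finset.mul_sum]
      refine Finset.sum_congr rfl fun i _ => ?_
      simp only [lp.coeFn_smul, Pi.smul_apply, PiLp.smul_apply, smul_eq_mul]
      ring)
  have hBdef : ∀ x y, B x y = ∑' l, ∑ i, w l i * (x l) i * (y l) i := fun x y => rfl
  have hBdiag : ∀ x, B x x = ∑' l, ∑ i, w l i * (x l) i ^ 2 := by
    intro x
    rw [hBdef]
    refine tsum_congr fun l => Finset.sum_congr rfl fun i _ => by ring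
  have hsmd : ∀ x : XS k q, Summable fun l => ∑ i, w l i * (x l) i ^ 2 := by
    intro x
    refine (hsm x x).congr fun l => Finset.sum_congr rfl fun i _ => by ring
  refine ⟨B, ?_, ?_, ?_, ?_⟩
  · intro x y
    rw [hBdef, hBdef]
    refine tsum_congr fun l => Finset.sum_congr rfl fun i _ => by ring
  · intro x
    rw [hBdiag]
    exact tsum_nonneg fun l => Finset.sum_nonneg fun i _ => mul_nonneg (hw l i) (sq_nonneg _)
  · intro x
    rw [hBdiag, ← (hasSum_sq k q x).tsum_eq]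
    exact (hsmd x).tsum_le_tsum (fun l => hA l x) (hasSum_sq k q x).summable
  · intro x hx
    -- bounds for the coordinates
    have hcoord : ∀ l i, |(x l) i| ≤ (2 * ‖x‖) * φ l i := by
      intro l i
      obtain ⟨c, hc1, hc2⟩ := hnet ⟨x, hx⟩
      have hxx : x = ∑ y ∈ s, c y • (y : XS k q) := by
        have := congrArg (Subtype.val) hc2
        simpa using this.symm
      have hnorm : ‖(⟨x, hx⟩ : G)‖ = ‖x‖ := rfl
      rw [hnorm] at hc1
      have e : (x l) i = ∑ y ∈ s, c y * ((y : XS k q) l) i := by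
        let ev : XS k q →ₗ[ℝ] ℝ :=
          { toFun := fun z => (z l) i
            map_add' := fun a b => by
              simp only [lp.coeFn_add, Pi.add_apply, PiLp.add_apply]
            map_smul' := fun a b => by
              simp only [lp.coeFn_smul, Pi.smul_apply, PiLp.smul_apply, smul_eq_mul,
                RingHom.id_apply] }
        have h3 : ev x = ∑ y ∈ s, c y * ev (y : XS k q) := by
          conv_lhs => rw [hxx]
          rw [map_sum]
          exact Finset.sum_congr rfl fun y _ => by rw [map_smul, smul_eq_mul]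
        exact h3
      rw [e]
      calc |∑ y ∈ s, c y * ((y : XS k q) l) i| ≤ ∑ y ∈ s, |c y * ((y : XS k q) l) i| :=
            Finset.abs_sum_le_sum_abs _ _
        _ ≤ ∑ y ∈ s, (2 * ‖x‖) * |((y : XS k q) l) i| := by
            refine Finset.sum_le_sum fun y hy => ?_
            rw [abs_mul]
            refine mul_le_mul_of_nonneg_right ?_ (abs_nonneg _)
            exact (Finset.single_le_sum (f := fun y => |c y|) (fun y _ => abs_nonneg _) hy).trans hc1
        _ = (2 * ‖x‖) * φ l i := by rw [← Finset.mul_sum]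
    have hB2 : ∀ l, ‖x l‖ ^ 2 ≤ (1 - 2 / q l) * ((2 * ‖x‖) * nq (q l) (φ l)) ^ 2 +
        ∑ i, w l i * (x l) i ^ 2 := by
      intro l
      rw [norm_eq_nq (hq l)]
      exact block_B (hq l) (φ l) (hφ l) _ _ (by positivity) (hcoord l)
    -- bound for Φ
    have hΦ : ∀ l, nq (q l) (φ l) ^ 2 ≤ (s.card : ℝ) * ∑ y ∈ s, ‖(y : XS k q) l‖ ^ 2 := by
      intro l
      have h1 : nq (q l) (φ l) ≤ ∑ y ∈ s, ‖(y : XS k q) l‖ :=
        block_C (hq l) s (fun y => (y : XS k q) l)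
      calc nq (q l) (φ l) ^ 2 ≤ (∑ y ∈ s, ‖(y : XS k q) l‖) ^ 2 :=
            pow_le_pow_left₀ (nq_nonneg _ _) h1 2
        _ ≤ (s.card : ℝ) * ∑ y ∈ s, ‖(y : XS k q) l‖ ^ 2 := sq_sum_le_card_mul_sum_sq
    have hΦ0 : ∀ l, l < n → nq (q l) (φ l) = 0 := by
      intro l hl
      have h1 : nq (q l) (φ l) ≤ ∑ y ∈ s, ‖(y : XS k q) l‖ :=
        block_C (hq l) s (fun y => (y : XS k q) l)
      have h2 : ∑ y ∈ s, ‖(y : XS k q) l‖ = 0 := by
        refine Finset.sum_eq_zero fun y _ => ?_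
        have := hG y.2 l hl
        rw [this, norm_zero]
      exact le_antisymm (h2 ▸ h1) (nq_nonneg _ _)
    have hcard' : (s.card : ℝ) ^ 2 ≤ 25 ^ N := by
      have h1 : (s.card : ℝ) ≤ 5 ^ N := by
        have : s.card ≤ 5 ^ N := hcard.trans (Nat.pow_le_pow_right (by norm_num) hN)
        exact_mod_cast this
      calc (s.card : ℝ) ^ 2 ≤ (5 ^ N) ^ 2 := pow_le_pow_left₀ (by positivity) h1 2
        _ = 25 ^ N := by rw [← pow_mul, mul_comm, pow_mul]; norm_num
    -- bound on each term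
    have hterm : ∀ l, ‖x l‖ ^ 2 ≤ (‖x‖ ^ 2 / (2 * 25 ^ N)) * ((s.card : ℝ) *
        ∑ y ∈ s, ‖(y : XS k q) l‖ ^ 2) + ∑ i, w l i * (x l) i ^ 2 := by
      intro l
      refine (hB2 l).trans (add_le_add_left ?_ _)
      have hS : 0 ≤ (s.card : ℝ) * ∑ y ∈ s, ‖(y : XS k q) l‖ ^ 2 := by positivity
      rcases lt_or_ge l n with hl | hl
      · rw [hΦ0 l hl]
        have : 0 ≤ (‖x‖ ^ 2 / (2 * 25 ^ N)) * ((s.card : ℝ) *
          ∑ y ∈ s, ‖(y : XS k q) l‖ ^ 2) := by positivity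
        simpa using this
      · have h1 := hθ l hl
        have h2 : (1 - 2 / q l) * 4 ≤ 1 / (2 * 25 ^ N) := by
          rw [le_div_iff₀ (by positivity)]
          linarith
        have hθ0 : 0 ≤ 1 - 2 / q l := by
          rw [sub_nonneg, div_le_one (by linarith [hq l])]; exact hq l
        calc (1 - 2 / q l) * ((2 * ‖x‖) * nq (q l) (φ l)) ^ 2
            = ((1 - 2 / q l) * 4) * (‖x‖ ^ 2 * nq (q l) (φ l) ^ 2) := by ring
          _ ≤ (1 / (2 * 25 ^ N)) * (‖x‖ ^ 2 * ((s.card : ℝ) * ∑ y ∈ s, ‖(y : XS k q) l‖ ^ 2)) := by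
              refine mul_le_mul h2 (mul_le_mul_of_nonneg_left (hΦ l) (sq_nonneg _))
                (by positivity) (by positivity)
          _ = (‖x‖ ^ 2 / (2 * 25 ^ N)) * ((s.card : ℝ) * ∑ y ∈ s, ‖(y : XS k q) l‖ ^ 2) := by ring
    have hsumS : HasSum (fun l => (‖x‖ ^ 2 / (2 * 25 ^ N)) * ((s.card : ℝ) *
        ∑ y ∈ s, ‖(y : XS k q) l‖ ^ 2)) ((‖x‖ ^ 2 / (2 * 25 ^ N)) * ((s.card : ℝ) *
        ∑ y ∈ s, ‖(y : XS k q)‖ ^ 2)) := by
      have h1 : HasSum (fun l => ∑ y ∈ s, ‖(y : XS k q) l‖ ^ 2) (∑ y ∈ s, ‖(y : XS k q)‖ ^ 2) :=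
        hasSum_sum fun y _ => hasSum_sq k q (y : XS k q)
      exact (h1.mul_left (s.card : ℝ)).mul_left (‖x‖ ^ 2 / (2 * 25 ^ N))
    have hfinal : ‖x‖ ^ 2 ≤ (‖x‖ ^ 2 / (2 * 25 ^ N)) * ((s.card : ℝ) *
        ∑ y ∈ s, ‖(y : XS k q)‖ ^ 2) + B x x := by
      rw [hBdiag]
      exact hasSum_le hterm (hasSum_sq k q x) (hsumS.add (hsmd x).hasSum)
    have hy : ∑ y ∈ s, ‖(y : XS k q)‖ ^ 2 ≤ s.card := by
      calc ∑ y ∈ s, ‖(y : XS k q)‖ ^ 2 ≤ ∑ _y ∈ s, (1 : ℝ) := by
            refine Finset.sum_le_sum fun y hy => ?_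
            have := hs y hy
            have h0 : ‖(y : XS k q)‖ = ‖y‖ := rfl
            rw [h0]
            exact pow_le_one₀ (norm_nonneg _) this
        _ = s.card := by simp
    have hlast : (‖x‖ ^ 2 / (2 * 25 ^ N)) * ((s.card : ℝ) * ∑ y ∈ s, ‖(y : XS k q)‖ ^ 2) ≤
        ‖x‖ ^ 2 / 2 := by
      calc (‖x‖ ^ 2 / (2 * 25 ^ N)) * ((s.card : ℝ) * ∑ y ∈ s, ‖(y : XS k q)‖ ^ 2)
          ≤ (‖x‖ ^ 2 / (2 * 25 ^ N)) * ((s.card : ℝ) * s.card) := by
            refine mul_le_mul_of_nonneg_left (mul_le_mul_of_nonneg_left hy (by positivity))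
              (by positivity)
        _ ≤ (‖x‖ ^ 2 / (2 * 25 ^ N)) * 25 ^ N := by
            refine mul_le_mul_of_nonneg_left ?_ (by positivity)
            rw [← sq]; exact hcard'
        _ = ‖x‖ ^ 2 / 2 := by field_simp
    linarith

end Pool.Agent.JohnsonSp
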