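import Pool.Agent.JohnsonSp.Defs

/-!
Gluing an operator on a subspace of finite codimension with the identity on a finite-dimensional
complement-like subspace.
-/

set_option autoImplicit false
open Filter Topology

namespace Pool.Agent.JohnsonSp

theorem glue {Y : Type} [NormedAddCommGroup Y] [NormedSpace ℝ Y] (Y1 B : Submodule ℝ Y)
    (Q : Y1 →L[ℝ] Y1) (c : ℝ) (hc : 0 ≤ c)
    (h : ∀ y : Y, ∃ b ∈ B, y - b ∈ Y1 ∧ ‖b‖ ≤ 3 * ‖y‖)
    (hQ : ∀ z : Y1, (z : Y) ∈ B → Q z = z) (hQn : ∀ z : Y1, ‖Q z‖ ≤ c * ‖z‖) :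
    ∃ T : Y →L[ℝ] Y, (∀ y, ∀ b ∈ B, ∀ hb : y - b ∈ Y1, T y = b + (Q ⟨y - b, hb⟩ : Y)) ∧
      ∀ y, ‖T y‖ ≤ (3 + 4 * c) * ‖y‖ := by
  classical
  choose b hbB hbY hbn using h
  have key : ∀ y, ∀ b' ∈ B, ∀ hb : y - b' ∈ Y1,
      b y + (Q ⟨y - b y, hbY y⟩ : Y) = b' + (Q ⟨y - b', hb⟩ : Y) := by
    intro y b' hb' hb
    have hmem : b' - b y ∈ Y1 := by
      have := Y1.sub_mem (hbY y) hb
      have e : y - b y - (y - b') = b' - b y := by abel
      rwa [e] at this
    have hfix : Q ⟨b' - b y, hmem⟩ = ⟨b' - b y, hmem⟩ := hQ _ (B.sub_mem hb' (hbB y))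
    have hdiff : (⟨y - b y, hbY y⟩ : Y1) = ⟨y - b', hb⟩ + ⟨b' - b y, hmem⟩ := by
      apply Subtype.ext
      simp
    rw [hdiff, map_add, hfix]
    simp only [Submodule.coe_add]
    abel
  let T0 : Y →ₗ[ℝ] Y :=
    { toFun := fun y => b y + (Q ⟨y - b y, hbY y⟩ : Y)
      map_add' := by
        intro x y
        have hxy : x + y - (b x + b y) ∈ Y1 := by
          have := Y1.add_mem (hbY x) (hbY y)
          have e : x - b x + (y - b y) = x + y - (b x + b y) := by abel
          rwa [e] at this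
        rw [key (x + y) (b x + b y) (B.add_mem (hbB x) (hbB y)) hxy]
        have hdiff : (⟨x + y - (b x + b y), hxy⟩ : Y1) =
            ⟨x - b x, hbY x⟩ + ⟨y - b y, hbY y⟩ := by
          apply Subtype.ext
          simp only [Submodule.coe_add]
          abel
        rw [hdiff, map_add]
        simp only [Submodule.coe_add]
        abel
      map_smul' := by
        intro r x
        have hrx : r • x - r • b x ∈ Y1 := by
          have := Y1.smul_mem r (hbY x)
          rwa [smul_sub] at this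
        rw [key (r • x) (r • b x) (B.smul_mem r (hbB x)) hrx]
        have hdiff : (⟨r • x - r • b x, hrx⟩ : Y1) = r • ⟨x - b x, hbY x⟩ := by
          apply Subtype.ext
          simp [smul_sub]
        rw [hdiff, map_smul]
        simp [smul_add] }
  have hT0 : ∀ y, T0 y = b y + (Q ⟨y - b y, hbY y⟩ : Y) := fun y => rfl
  have hbound : ∀ y, ‖T0 y‖ ≤ (3 + 4 * c) * ‖y‖ := by
    intro y
    rw [hT0]
    have a1 : ‖(Q ⟨y - b y, hbY y⟩ : Y)‖ ≤ c * ‖y - b y‖ := hQn ⟨y - b y, hbY y⟩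
    have a2 : ‖y - b y‖ ≤ 4 * ‖y‖ := by
      refine (norm_sub_le _ _).trans ?_
      linarith [hbn y]
    have a3 : c * ‖y - b y‖ ≤ c * (4 * ‖y‖) := mul_le_mul_of_nonneg_left a2 hc
    refine (norm_add_le _ _).trans ?_
    linarith [hbn y]
  refine ⟨T0.mkContinuous (3 + 4 * c) hbound, ?_, ?_⟩
  · intro y b' hb' hb
    rw [LinearMap.mkContinuous_apply, hT0]
    exact key y b' hb' hb
  · intro y
    rw [LinearMap.mkContinuous_apply]
    exact hbound y

end Pool.Agent.JohnsonSp
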