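import Pool.Agent.JohnsonSp.Defs

set_option autoImplicit false

namespace Pool.Agent.JohnsonSp

theorem orth_snoc {m n : ℕ} {h : Fin n → Eu m} (hh : Orthonormal ℝ h) (x : Eu m)
    (hx : ‖x‖ = 1) (hi : ∀ i, inner ℝ (h i) x = 0) :
    Orthonormal ℝ (Fin.snoc h x : Fin (n + 1) → Eu m) := by
  rw [orthonormal_iff_ite] at hh ⊢
  intro i j
  refine Fin.lastCases ?_ (fun i => ?_) i
  · refine Fin.lastCases ?_ (fun j => ?_) j
    · simp [hx]
    · simp only [Fin.snoc_last, Fin.snoc_castSucc]
      rw [real_inner_comm, hi j, if_neg (Fin.castSucc_lt_last j).ne']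
  · refine Fin.lastCases ?_ (fun j => ?_) j
    · simp only [Fin.snoc_last, Fin.snoc_castSucc]
      rw [hi i, if_neg (Fin.castSucc_lt_last i).ne]
    · simp only [Fin.snoc_castSucc]
      rw [hh i j]
      simp [Fin.castSucc_inj]

/-- The second alternative. -/
def Alt {m : ℕ} (η : ℝ) (S : Eu m →ₗ[ℝ] Eu m) (L : Submodule ℝ (Eu m)) : Prop :=
  ∀ x ∈ Lᗮ, ‖x‖ = 1 → ∀ y ∈ Lᗮ, |inner ℝ (S x) y - inner ℝ (S x) x * inner ℝ x y| ≤ η * ‖y‖

theorem greedy_step {m : ℕ} (η : ℝ) (S : Eu m →ₗ[ℝ] Eu m) (hη : 0 < η) (r : ℕ) :
    (∃ h v : Fin r → Eu m, ∃ L : Submodule ℝ (Eu m), Module.finrank ℝ L ≤ 2 * r ∧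
      Orthonormal ℝ h ∧ Orthonormal ℝ v ∧ (∀ i j, inner ℝ (h i) (v j) = 0) ∧
      (∀ i j, j < i → inner ℝ (v i) (S (h j)) = 0) ∧ (∀ i, η ≤ inner ℝ (v i) (S (h i))) ∧
      (∀ i, h i ∈ L) ∧ (∀ i, v i ∈ L) ∧ ∀ i, S (h i) ∈ L) ∨
    ∃ L : Submodule ℝ (Eu m), Module.finrank ℝ L ≤ 2 * r ∧ Alt η S L := by
  induction r with
  | zero =>
    left
    refine ⟨Fin.elim0, Fin.elim0, ⊥, by simp, ?_, ?_, fun i => i.elim0, fun i => i.elim0,
      fun i => i.elim0, fun i => i.elim0, fun i => i.elim0, fun i => i.elim0⟩
    · exact ⟨fun i => i.elim0, fun i => i.elim0⟩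
    · exact ⟨fun i => i.elim0, fun i => i.elim0⟩
  | succ r ih =>
    rcases ih with ⟨h, v, L, hL, hh, hv, hhv, htri, hdiag, hhL, hvL, hSL⟩ | ⟨L, hL, hA⟩
    · by_cases hA : Alt η S L
      · exact Or.inr ⟨L, by omega, hA⟩
      · left
        unfold Alt at hA
        push Not at hA
        obtain ⟨x, hx, hx1, y, hy, hxy⟩ := hA
        set c : ℝ := inner ℝ (S x) x with hc
        set u : Eu m := (Lᗮ.starProjection (S x)) - c • x with hu
        have huL : u ∈ Lᗮ := by
          rw [hu]
          exact Submodule.sub_mem _ (Submodule.starProjection_apply_mem _ _)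
            (Submodule.smul_mem _ _ hx)
        have hproj : ∀ z ∈ Lᗮ, inner ℝ (Lᗮ.starProjection (S x)) z = inner ℝ (S x) z := by
          intro z hz
          have h0 : inner ℝ (S x - Lᗮ.starProjection (S x)) z = 0 :=
            Submodule.starProjection_inner_eq_zero (S x) z hz
          rw [inner_sub_left] at h0
          linarith
        have huz : ∀ z ∈ Lᗮ, inner ℝ u z = inner ℝ (S x) z - c * inner ℝ x z := by
          intro z hz
          rw [hu, inner_sub_left, hproj z hz, real_inner_smul_left]
        have hux : inner ℝ u x = 0 := by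
          rw [huz x hx, real_inner_self_eq_norm_sq, hx1, hc]
          ring
        have hun : η < ‖u‖ := by
          have h1 : η * ‖y‖ < |inner ℝ u y| := by
            rw [huz y hy]
            exact hxy
          have h2 := abs_real_inner_le_norm u y
          have h3 : η * ‖y‖ < ‖u‖ * ‖y‖ := lt_of_lt_of_le h1 h2
          exact lt_of_mul_lt_mul_right h3 (norm_nonneg y)
        have hupos : 0 < ‖u‖ := hη.trans hun
        have huS : inner ℝ u (S x) = ‖u‖ ^ 2 := by
          have h1 : inner ℝ u (S x) = inner ℝ (Lᗮ.starProjection (S x)) u := by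
            rw [hproj u huL, real_inner_comm]
          have h2 : Lᗮ.starProjection (S x) = u + c • x := by rw [hu]; abel
          rw [h1, h2, inner_add_left, real_inner_smul_left, real_inner_comm u x, hux,
            real_inner_self_eq_norm_sq]
          ring
        set w : Eu m := (‖u‖⁻¹) • u with hw
        have hwL : w ∈ Lᗮ := Submodule.smul_mem _ _ huL
        have hw1 : ‖w‖ = 1 := by
          rw [hw, norm_smul, norm_inv, norm_norm, inv_mul_cancel₀ hupos.ne']
        have hwx : inner ℝ x w = 0 := by
          rw [hw, real_inner_smul_right, real_inner_comm, hux, mul_zero]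
        have hwS : inner ℝ w (S x) = ‖u‖ := by
          rw [hw, real_inner_smul_left, huS]
          field_simp
        set L' : Submodule ℝ (Eu m) := L ⊔ Submodule.span ℝ {x, S x} with hL'
        have hLL' : L ≤ L' := le_sup_left
        have hxL' : x ∈ L' := Submodule.mem_sup_right (Submodule.subset_span (by simp))
        have hSxL' : S x ∈ L' := Submodule.mem_sup_right (Submodule.subset_span (by simp))
        have huL' : u ∈ L' := by
          have h1 : Lᗮ.starProjection (S x) = S x - L.starProjection (S x) := by
            have := Submodule.starProjection_add_starProjection_orthogonal (K := L) (S x)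
            exact eq_sub_of_add_eq' this
          rw [hu, h1]
          exact Submodule.sub_mem _ (Submodule.sub_mem _ hSxL'
            (hLL' (Submodule.starProjection_apply_mem _ _))) (Submodule.smul_mem _ _ hxL')
        have hwL' : w ∈ L' := Submodule.smul_mem _ _ huL'
        refine ⟨Fin.snoc h x, Fin.snoc v w, L', ?_, ?_, ?_, ?_, ?_, ?_, ?_, ?_, ?_⟩
        · have h1 := Submodule.finrank_add_le_finrank_add_finrank L (Submodule.span ℝ {x, S x})
          have h2 : Module.finrank ℝ (Submodule.span ℝ ({x, S x} : Set (Eu m))) ≤ 2 := by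
            have h3 := finrank_span_finset_le_card (R := ℝ) ({x, S x} : Finset (Eu m))
            have h4 : ({x, S x} : Finset (Eu m)).card ≤ 2 := Finset.card_le_two
            have h5 : (({x, S x} : Finset (Eu m)) : Set (Eu m)) = {x, S x} := by simp
            unfold Set.finrank at h3
            rw [h5] at h3
            exact h3.trans h4
          rw [hL']
          omega
        · exact orth_snoc hh x hx1 fun i => Submodule.inner_right_of_mem_orthogonal (hhL i) hx
        · exact orth_snoc hv w hw1 fun i => Submodule.inner_right_of_mem_orthogonal (hvL i) hwL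
        · intro i j
          refine Fin.lastCases ?_ (fun i => ?_) i
          · refine Fin.lastCases ?_ (fun j => ?_) j
            · simpa using hwx
            · simp only [Fin.snoc_last, Fin.snoc_castSucc]
              exact Submodule.inner_left_of_mem_orthogonal (hvL j) hx
          · refine Fin.lastCases ?_ (fun j => ?_) j
            · simp only [Fin.snoc_last, Fin.snoc_castSucc]
              exact Submodule.inner_right_of_mem_orthogonal (hhL i) hwL
            · simpa using hhv i j
        · intro i j
          refine Fin.lastCases ?_ (fun i => ?_) i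
          · refine Fin.lastCases ?_ (fun j => ?_) j
            · intro hij
              exact absurd hij (lt_irrefl _)
            · intro _
              simp only [Fin.snoc_last, Fin.snoc_castSucc]
              exact Submodule.inner_left_of_mem_orthogonal (hSL j) hwL
          · refine Fin.lastCases ?_ (fun j => ?_) j
            · intro hij
              exact absurd (hij.trans (Fin.castSucc_lt_last i)) (lt_irrefl _)
            · intro hij
              simp only [Fin.snoc_castSucc]
              exact htri i j (by simpa using hij)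
        · intro i
          refine Fin.lastCases ?_ (fun i => ?_) i
          · simp only [Fin.snoc_last]
            rw [hwS]
            exact hun.le
          · simpa using hdiag i
        · intro i
          refine Fin.lastCases ?_ (fun i => ?_) i
          · simpa using hxL'
          · simpa using hLL' (hhL i)
        · intro i
          refine Fin.lastCases ?_ (fun i => ?_) i
          · simpa using hwL'
          · simpa using hLL' (hvL i)
        · intro i
          refine Fin.lastCases ?_ (fun i => ?_) i
          · simpa using hSxL'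
          · simpa using hLL' (hSL i)
    · exact Or.inr ⟨L, by omega, hA⟩

theorem Greedy : Stmt_Greedy := by
  intro m r η S hη
  rcases greedy_step η S hη r with ⟨h, v, L, _, hh, hv, hhv, htri, hdiag, _⟩ | ⟨L, hL, hA⟩
  · exact Or.inl ⟨h, v, hh, hv, hhv, htri, hdiag⟩
  · exact Or.inr ⟨L, hL, hA⟩

end Pool.Agent.JohnsonSp
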