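import Pool.Agent.JohnsonSp.Defs

set_option autoImplicit false

namespace Pool.Agent.JohnsonSp

/-- Parseval for the standard basis. -/
theorem parseval_std {s : ℕ} (x : Eu s) :
    ∑ k : Fin s, (inner ℝ (EuclideanSpace.single k (1 : ℝ)) x) ^ 2 = ‖x‖ ^ 2 := by
  rw [EuclideanSpace.norm_sq_eq]
  refine Finset.sum_congr rfl fun k _ => ?_
  rw [EuclideanSpace.inner_single_left]
  simp

theorem HS : Stmt_HS := by
  intro m s n S f hf
  unfold hs
  have key : ∀ y : Eu m, ‖S y‖ ^ 2 =
      ∑ k : Fin s, (inner ℝ y (LinearMap.adjoint S (EuclideanSpace.single k (1 : ℝ)))) ^ 2 := by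
    intro y
    rw [← parseval_std (S y)]
    refine Finset.sum_congr rfl fun k _ => ?_
    rw [LinearMap.adjoint_inner_right, real_inner_comm]
  calc ∑ i, ‖S (f i)‖ ^ 2
      = ∑ i, ∑ k : Fin s,
          (inner ℝ (f i) (LinearMap.adjoint S (EuclideanSpace.single k (1 : ℝ)))) ^ 2 :=
        Finset.sum_congr rfl fun i _ => key (f i)
    _ = ∑ k : Fin s, ∑ i,
          (inner ℝ (f i) (LinearMap.adjoint S (EuclideanSpace.single k (1 : ℝ)))) ^ 2 :=
        Finset.sum_comm
    _ ≤ ∑ k : Fin s, ‖LinearMap.adjoint S (EuclideanSpace.single k (1 : ℝ))‖ ^ 2 := by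
        refine Finset.sum_le_sum fun k _ => ?_
        have h := hf.sum_inner_products_le
          (LinearMap.adjoint S (EuclideanSpace.single k (1 : ℝ))) (s := Finset.univ)
        simpa [Real.norm_eq_abs, sq_abs] using h
    _ = ∑ k : Fin s, ∑ j : Fin m, (inner ℝ (EuclideanSpace.single j (1 : ℝ))
          (LinearMap.adjoint S (EuclideanSpace.single k (1 : ℝ)))) ^ 2 := by
        refine Finset.sum_congr rfl fun k _ => ?_
        rw [parseval_std]
    _ = ∑ j : Fin m, ∑ k : Fin s, (inner ℝ (EuclideanSpace.single j (1 : ℝ))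
          (LinearMap.adjoint S (EuclideanSpace.single k (1 : ℝ)))) ^ 2 := Finset.sum_comm
    _ = ∑ j, ‖S (EuclideanSpace.single j 1)‖ ^ 2 := by
        refine Finset.sum_congr rfl fun j _ => ?_
        rw [key]

end Pool.Agent.JohnsonSp
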