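import Mathlib
import Pool.Agent.JohnsonSp.Defs

/-!
Module `HSa` of the proof of S06184: Hilbert-Schmidt bound for operators from `vnorm` to a
Hilbert space (Rademacher averages).
-/

set_option autoImplicit false
open Filter Topology MeasureTheory ProbabilityTheory

namespace Pool.Agent.JohnsonSp

/-- The sign attached to a Boolean. -/
def sg (b : Bool) : ℝ := if b then 1 else -1

theorem sum_bool_split {m : ℕ} (F : (Fin (m + 1) → Bool) → ℝ) :
    ∑ σ : Fin (m + 1) → Bool, F σ =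
      ∑ σ : Fin m → Bool, (F (Fin.cons true σ) + F (Fin.cons false σ)) := by
  rw [← (Fin.consEquiv (fun _ : Fin (m + 1) => Bool)).sum_comp, Fintype.sum_prod_type,
    Fintype.sum_bool, ← Finset.sum_add_distrib]
  rfl

/-- Second moment of vector valued Rademacher sums. -/
theorem rad_two {H : Type} [NormedAddCommGroup H] [InnerProductSpace ℝ H] :
    ∀ (m : ℕ) (f : Fin m → H),
      ∑ σ : Fin m → Bool, ‖∑ j, sg (σ j) • f j‖ ^ 2 = 2 ^ m * ∑ j, ‖f j‖ ^ 2 := by
  intro m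
  induction m with
  | zero => intro f; simp
  | succ m ih =>
    intro f
    rw [sum_bool_split]
    have h1 : ∀ σ : Fin m → Bool,
        ‖∑ j, sg ((Fin.cons true σ : Fin (m + 1) → Bool) j) • f j‖ ^ 2 +
        ‖∑ j, sg ((Fin.cons false σ : Fin (m + 1) → Bool) j) • f j‖ ^ 2 =
        2 * ‖f 0‖ ^ 2 + 2 * ‖∑ j, sg (σ j) • f j.succ‖ ^ 2 := by
      intro σ
      rw [Fin.sum_univ_succ, Fin.sum_univ_succ]
      simp only [Fin.cons_zero, Fin.cons_succ, sg, if_true, one_smul, Bool.false_eq_true,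
        if_false, neg_smul]
      set S : H := ∑ j, (if σ j = true then (1 : ℝ) else -1) • f j.succ with hS
      have := parallelogram_law_with_norm ℝ S (f 0)
      have e1 : f 0 + S = S + f 0 := add_comm _ _
      have e2 : -f 0 + S = S - f 0 := by abel
      rw [e1, e2]
      nlinarith [this]
    rw [Finset.sum_congr rfl (fun σ _ => h1 σ), Finset.sum_add_distrib, ← Finset.mul_sum,
      ← Finset.mul_sum, ih, Fin.sum_univ_succ]
    simp only [Finset.sum_const, Finset.card_univ, Fintype.card_fun, Fintype.card_bool,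
      Fintype.card_fin, nsmul_eq_mul]
    push_cast
    ring

theorem rad_two_real (m : ℕ) (a : Fin m → ℝ) :
    ∑ σ : Fin m → Bool, (∑ j, sg (σ j) * a j) ^ 2 = 2 ^ m * ∑ j, a j ^ 2 := by
  have := rad_two m a
  simpa [Real.norm_eq_abs, sq_abs] using this

/-- Fourth moment of Rademacher sums. -/
theorem rad_four : ∀ (m : ℕ) (a : Fin m → ℝ),
    ∑ σ : Fin m → Bool, (∑ j, sg (σ j) * a j) ^ 4 ≤ 2 ^ m * (3 * (∑ j, a j ^ 2) ^ 2) := by
  intro m
  induction m with
  | zero => intro f; simp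
  | succ m ih =>
    intro a
    rw [sum_bool_split]
    have h1 : ∀ σ : Fin m → Bool,
        (∑ j, sg ((Fin.cons true σ : Fin (m + 1) → Bool) j) * a j) ^ 4 +
        (∑ j, sg ((Fin.cons false σ : Fin (m + 1) → Bool) j) * a j) ^ 4 =
        2 * a 0 ^ 4 + 12 * a 0 ^ 2 * (∑ j, sg (σ j) * a j.succ) ^ 2 +
          2 * (∑ j, sg (σ j) * a j.succ) ^ 4 := by
      intro σ
      rw [Fin.sum_univ_succ, Fin.sum_univ_succ]
      simp only [Fin.cons_zero, Fin.cons_succ]
      have t1 : sg true = 1 := rfl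
      have t2 : sg false = -1 := rfl
      rw [t1, t2]
      ring
    rw [Finset.sum_congr rfl (fun σ _ => h1 σ), Finset.sum_add_distrib, Finset.sum_add_distrib,
      ← Finset.mul_sum, ← Finset.mul_sum, ← Finset.mul_sum, rad_two_real, Fin.sum_univ_succ]
    have h2 := ih (fun j => a j.succ)
    simp only [Finset.sum_const, Finset.card_univ, Fintype.card_fun, Fintype.card_bool,
      Fintype.card_fin, nsmul_eq_mul]
    push_cast
    set T : ℝ := ∑ j : Fin m, a j.succ ^ 2 with hT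
    have h3 : (0 : ℝ) ≤ 2 ^ m := by positivity
    have h5 : 0 ≤ 2 ^ m * a 0 ^ 4 := by positivity
    have h6 : (2 : ℝ) ^ (m + 1) = 2 * 2 ^ m := pow_succ' 2 m
    rw [h6]
    calc 2 * (2 ^ m * a 0 ^ 4) + 12 * a 0 ^ 2 * (2 ^ m * T) +
          2 * ∑ i : Fin m → Bool, (∑ j, sg (i j) * a j.succ) ^ 4
        ≤ 2 * (2 ^ m * a 0 ^ 4) + 12 * a 0 ^ 2 * (2 ^ m * T) + 2 * (2 ^ m * (3 * T ^ 2)) := by
          linarith
      _ ≤ 2 * (2 ^ m * a 0 ^ 4) + 12 * a 0 ^ 2 * (2 ^ m * T) + 2 * (2 ^ m * (3 * T ^ 2)) +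
          4 * (2 ^ m * a 0 ^ 4) := by linarith
      _ = 2 * 2 ^ m * (3 * (a 0 ^ 2 + T) ^ 2) := by ring

/-- The vector of signs. -/
noncomputable def xs {m : ℕ} (σ : Fin m → Bool) : Eu m :=
  ∑ j, sg (σ j) • EuclideanSpace.single j (1 : ℝ)

theorem HSa : Stmt_HSa := by
  classical
  intro m k s q D K g a hq2 hq4 hD hK hkD hcols ha
  obtain ⟨-, hop⟩ := hcols
  have hq0 : 0 < q := by linarith
  -- norms of the columns
  have hg : ∀ i, ‖g i‖ ≤ 11 * Real.sqrt k := by
    intro i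
    have := hop (fun l => if l = i then 1 else 0)
    simpa using this
  -- average
  have hsum : ∑ σ : Fin m → Bool, ‖a (xs σ)‖ ^ 2 = 2 ^ m * hs a := by
    have h := rad_two m (fun j => a (EuclideanSpace.single j (1 : ℝ)))
    rw [hs, ← h]
    refine Finset.sum_congr rfl fun σ _ => ?_
    rw [xs, map_sum]
    simp only [map_smul]
  set w : ℝ := (2 ^ m : ℝ)⁻¹ with hw
  have hw0 : 0 < w := by positivity
  have hw1 : ∑ _σ : Fin m → Bool, w = 1 := by
    simp only [Finset.sum_const, Finset.card_univ, Fintype.card_fun, Fintype.card_bool,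
      Fintype.card_fin, nsmul_eq_mul, hw]
    push_cast
    exact mul_inv_cancel₀ (by positivity)
  have hsa : hs a = ∑ σ : Fin m → Bool, w * ‖a (xs σ)‖ ^ 2 := by
    rw [← Finset.mul_sum, hsum, ← mul_assoc, hw, inv_mul_cancel₀ (by positivity), one_mul]
  have hvn : ∀ x, 0 ≤ vnorm q g x := by
    intro x
    rw [vnorm]
    exact Real.rpow_nonneg (Finset.sum_nonneg fun i _ => Real.rpow_nonneg (abs_nonneg _) _) _
  set V : ℝ := ∑ σ : Fin m → Bool, w * vnorm q g (xs σ) ^ 2 with hV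
  have hV0 : 0 ≤ V := Finset.sum_nonneg fun σ _ => by positivity
  have hsaV : hs a ≤ K ^ 2 * V := by
    rw [hsa, hV, Finset.mul_sum]
    refine Finset.sum_le_sum fun σ _ => ?_
    have h1 : ‖a (xs σ)‖ ^ 2 ≤ (K * vnorm q g (xs σ)) ^ 2 :=
      pow_le_pow_left₀ (norm_nonneg _) (ha _) 2
    calc w * ‖a (xs σ)‖ ^ 2 ≤ w * (K * vnorm q g (xs σ)) ^ 2 :=
          mul_le_mul_of_nonneg_left h1 hw0.le
      _ = K ^ 2 * (w * vnorm q g (xs σ) ^ 2) := by ring
  -- Jensen
  set B : ℝ := 3 * (11 * Real.sqrt k) ^ 4 with hB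
  have hB0 : 0 ≤ B := by positivity
  have hA : ∀ i, ∑ σ : Fin m → Bool, w * |inner ℝ (g i) (xs σ)| ^ q ≤ B ^ (q / 4) := by
    intro i
    set A : ℝ := ∑ σ : Fin m → Bool, w * |inner ℝ (g i) (xs σ)| ^ q with hAd
    have hA0 : 0 ≤ A := Finset.sum_nonneg fun σ _ =>
      mul_nonneg hw0.le (Real.rpow_nonneg (abs_nonneg _) _)
    have h4q : 1 ≤ 4 / q := by rw [le_div_iff₀ hq0]; linarith
    have h1 : A ^ (4 / q) ≤
        ∑ σ : Fin m → Bool, w * (|inner ℝ (g i) (xs σ)| ^ q) ^ (4 / q) :=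
      Real.rpow_arith_mean_le_arith_mean_rpow _ (fun _ => w) _ (fun _ _ => hw0.le) hw1
        (fun σ _ => Real.rpow_nonneg (abs_nonneg _) _) h4q
    have h2 : ∀ σ : Fin m → Bool, (|inner ℝ (g i) (xs σ)| ^ q) ^ (4 / q) =
        (∑ j, sg (σ j) * g i j) ^ 4 := by
      intro σ
      rw [← Real.rpow_mul (abs_nonneg _), mul_div_cancel₀ _ hq0.ne']
      have e : inner ℝ (g i) (xs σ) = ∑ j, sg (σ j) * g i j := by
        rw [xs, inner_sum]
        refine Finset.sum_congr rfl fun j _ => ?_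
        rw [inner_smul_right, EuclideanSpace.inner_single_right]
        simp
      rw [e]
      have : ((4 : ℝ)) = ((4 : ℕ) : ℝ) := by norm_num
      rw [this, Real.rpow_natCast]
      exact Even.pow_abs (by decide) _
    have h3 : A ^ (4 / q) ≤ B := by
      refine h1.trans ?_
      rw [Finset.sum_congr rfl (fun σ _ => by rw [h2 σ]), ← Finset.mul_sum]
      have h4 := rad_four m (fun j => g i j)
      have h5 : ∑ j, g i j ^ 2 = ‖g i‖ ^ 2 := by
        rw [EuclideanSpace.norm_sq_eq]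
        simp [Real.norm_eq_abs, sq_abs]
      rw [h5] at h4
      calc w * ∑ σ : Fin m → Bool, (∑ j, sg (σ j) * g i j) ^ 4
          ≤ w * (2 ^ m * (3 * (‖g i‖ ^ 2) ^ 2)) := mul_le_mul_of_nonneg_left h4 hw0.le
        _ = 3 * ‖g i‖ ^ 4 := by
            rw [← mul_assoc, hw, inv_mul_cancel₀ (by positivity), one_mul]; ring
        _ ≤ B := by
            rw [hB]
            have := pow_le_pow_left₀ (norm_nonneg _) (hg i) 4
            linarith
    have h6 : (A ^ (4 / q)) ^ (q / 4) ≤ B ^ (q / 4) :=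
      Real.rpow_le_rpow (Real.rpow_nonneg hA0 _) h3 (by positivity)
    rwa [← Real.rpow_mul hA0, show 4 / q * (q / 4) = 1 by field_simp, Real.rpow_one] at h6
  have hVq : V ^ (q / 2) ≤ k * B ^ (q / 4) := by
    have h2q : 1 ≤ q / 2 := by linarith
    have h1 : V ^ (q / 2) ≤ ∑ σ : Fin m → Bool, w * (vnorm q g (xs σ) ^ 2) ^ (q / 2) :=
      Real.rpow_arith_mean_le_arith_mean_rpow _ (fun _ => w) _ (fun _ _ => hw0.le) hw1
        (fun σ _ => by positivity) h2q
    have h2 : ∀ σ : Fin m → Bool, (vnorm q g (xs σ) ^ 2) ^ (q / 2) =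
        ∑ i, |inner ℝ (g i) (xs σ)| ^ q := by
      intro σ
      have h0 : 0 ≤ ∑ i, |inner ℝ (g i) (xs σ)| ^ q :=
        Finset.sum_nonneg fun i _ => Real.rpow_nonneg (abs_nonneg _) _
      rw [← Real.rpow_natCast (vnorm q g (xs σ)) 2, ← Real.rpow_mul (hvn _), vnorm,
        ← Real.rpow_mul h0]
      rw [show 1 / q * (((2 : ℕ) : ℝ) * (q / 2)) = 1 by push_cast; field_simp, Real.rpow_one]
    refine h1.trans ?_
    rw [Finset.sum_congr rfl (fun σ _ => by rw [h2 σ, Finset.mul_sum]), Finset.sum_comm]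
    calc ∑ i : Fin k, ∑ σ : Fin m → Bool, w * |inner ℝ (g i) (xs σ)| ^ q
        ≤ ∑ _i : Fin k, B ^ (q / 4) := Finset.sum_le_sum fun i _ => hA i
      _ = k * B ^ (q / 4) := by simp
  have hV2 : V ≤ (k : ℝ) ^ (2 / q) * (Real.sqrt 3 * 121 * k) := by
    have h1 : (V ^ (q / 2)) ^ (2 / q) ≤ ((k : ℝ) * B ^ (q / 4)) ^ (2 / q) :=
      Real.rpow_le_rpow (Real.rpow_nonneg hV0 _) hVq (by positivity)
    rw [← Real.rpow_mul hV0, show q / 2 * (2 / q) = 1 by field_simp, Real.rpow_one,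
      Real.mul_rpow (Nat.cast_nonneg _) (Real.rpow_nonneg hB0 _), ← Real.rpow_mul hB0,
      show q / 4 * (2 / q) = 1 / 2 by field_simp; norm_num, ← Real.sqrt_eq_rpow] at h1
    have h2 : Real.sqrt B = Real.sqrt 3 * 121 * k := by
      have e : B = 3 * (121 * (k : ℝ)) ^ 2 := by
        rw [hB]
        have := Real.sq_sqrt (Nat.cast_nonneg (α := ℝ) k)
        calc 3 * (11 * Real.sqrt k) ^ 4 = 3 * (121 * (Real.sqrt k) ^ 2) ^ 2 := by ring
          _ = 3 * (121 * (k : ℝ)) ^ 2 := by rw [this]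
      rw [e, Real.sqrt_mul (by norm_num), Real.sqrt_sq (by positivity)]
      ring
    rwa [h2] at h1
  -- conclusion
  rcases Nat.eq_zero_or_pos k with hk | hk
  · subst hk
    have h0 : V ≤ 0 := by simpa using hV2
    have h1 : hs a ≤ 0 := hsaV.trans (by nlinarith [sq_nonneg K])
    have h2 : (0 : ℝ) ≤ Real.sqrt 3 * 121 * K ^ 2 * ((0 : ℕ) : ℝ) ^ 2 / D ^ 2 := by positivity
    linarith
  · have hk' : (0 : ℝ) < k := by exact_mod_cast hk
    have e : (k : ℝ) ^ (2 / q) = k / D ^ 2 := by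
      rw [eq_div_iff (by positivity), ← hkD, ← Real.rpow_natCast _ 2, ← Real.rpow_mul hk'.le,
        ← Real.rpow_add hk']
      rw [show 2 / q + (1 / 2 - 1 / q) * ((2 : ℕ) : ℝ) = 1 by push_cast; ring, Real.rpow_one]
    rw [e] at hV2
    calc hs a ≤ K ^ 2 * V := hsaV
      _ ≤ K ^ 2 * (k / D ^ 2 * (Real.sqrt 3 * 121 * k)) :=
          mul_le_mul_of_nonneg_left hV2 (sq_nonneg K)
      _ = Real.sqrt 3 * 121 * K ^ 2 * k ^ 2 / D ^ 2 := by ring

end Pool.Agent.JohnsonSp
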