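import Pool.Agent.JohnsonSp.Defs

set_option autoImplicit false

namespace Pool.Agent.JohnsonSp

theorem HSb : Stmt_HSb := by
  intro m k s q K g b bt hq hK hk hg hadj hb
  have hq0 : (0 : ℝ) < q := by linarith
  have hkpos : (0 : ℝ) < k := by exact_mod_cast hk
  have hsk : 0 < Real.sqrt k := Real.sqrt_pos.2 hkpos
  have hcoord : ∀ (x : Eu m) (i : Fin k), |inner ℝ (g i) x| ≤ vnorm q g x := by
    intro x i
    unfold vnorm
    have h1 : |inner ℝ (g i) x| ^ q ≤ ∑ i, |inner ℝ (g i) x| ^ q :=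
      Finset.single_le_sum (f := fun i => |inner ℝ (g i) x| ^ q)
        (fun j _ => Real.rpow_nonneg (abs_nonneg _) _) (Finset.mem_univ i)
    calc |inner ℝ (g i) x| = (|inner ℝ (g i) x| ^ q) ^ (1 / q) := by
          rw [one_div, Real.rpow_rpow_inv (abs_nonneg _) hq0.ne']
      _ ≤ _ := Real.rpow_le_rpow (Real.rpow_nonneg (abs_nonneg _) _) h1 (by positivity)
  have hj : ∀ j : Fin m, ‖bt (EuclideanSpace.single j 1)‖ ^ 2 ≤ 4 * K ^ 2 / k := by
    intro j
    obtain ⟨i, hi⟩ := hg.1 j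
    set z := bt (EuclideanSpace.single j 1) with hz
    have h1 : Real.sqrt k * ‖z‖ ^ 2 ≤ 2 * K * ‖z‖ := by
      have h2 := (le_abs_self _).trans ((hcoord (b z) i).trans (hb z))
      rw [hi, real_inner_smul_left, ← hadj, ← hz, real_inner_self_eq_norm_sq] at h2
      exact h2
    have h4 : Real.sqrt k * ‖z‖ ≤ 2 * K := by
      rcases eq_or_lt_of_le (norm_nonneg z) with h0 | h0
      · rw [← h0]; simpa using hK
      · nlinarith
    have h5 : (Real.sqrt k * ‖z‖) ^ 2 ≤ (2 * K) ^ 2 :=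
      pow_le_pow_left₀ (by positivity) h4 2
    rw [mul_pow, Real.sq_sqrt hkpos.le] at h5
    rw [le_div_iff₀ hkpos]
    linarith
  calc hs bt ≤ ∑ _j : Fin m, 4 * K ^ 2 / k := Finset.sum_le_sum fun j _ => hj j
    _ = 4 * K ^ 2 * m / k := by simp; ring

end Pool.Agent.JohnsonSp
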