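import Pool.Agent.JohnsonSp.Defs

/-!
Module Hilb: infinite-dimensional closed subspaces of a space isomorphic to `ℓ²` have a basis.
-/

set_option autoImplicit false
open Filter Topology

namespace Pool.Agent.JohnsonSp

section HilbAux

abbrev L2 : Type := lp (fun _ : ℕ => ℝ) 2

/-- orthonormal families in a subspace of `ℓ²` are countable -/
lemma orthonormal_countable (F : Submodule ℝ L2) (w : Set F)
    (hw : Orthonormal ℝ (fun v : w => (v : F))) : w.Countable := by
  have hw' : Orthonormal ℝ (fun v : w => ((v : F) : L2)) := by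
    have := hw.comp_linearIsometry F.subtypeₗᵢ
    exact this
  have h1 : ∀ k : ℕ, {v : w | ((v : F) : L2) k ≠ 0}.Countable := by
    intro k
    have hs := hw'.inner_products_summable (lp.single 2 k (1 : ℝ) : L2)
    have hc := hs.countable_support
    apply hc.mono
    intro v hv
    change ((v : F) : L2) k ≠ 0 at hv
    rw [Function.mem_support]
    rw [lp.inner_single_right]
    simpa using hv
  have h2 : (Set.univ : Set w) = ⋃ k : ℕ, {v : w | ((v : F) : L2) k ≠ 0} := by
    symm
    rw [Set.eq_univ_iff_forall]
    intro v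
    rw [Set.mem_iUnion]
    by_contra hcon
    push Not at hcon
    have h0 : ((v : F) : L2) = 0 := by
      apply lp.ext
      funext k
      have := hcon k
      change ¬ (((v : F) : L2) k ≠ 0) at this
      rw [not_not] at this
      simpa using this
    have h3 := hw'.1 v
    simp only [h0, norm_zero] at h3
    exact zero_ne_one h3
  have h4 : (Set.univ : Set w).Countable := by
    rw [h2]
    exact Set.countable_iUnion h1
  have := Set.countable_univ_iff.1 h4
  exact Set.countable_coe_iff.1 this

lemma hilb_gen (H : Type) [NormedAddCommGroup H] [InnerProductSpace ℝ H] [CompleteSpace H]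
    (hc : ∀ w : Set H, Orthonormal ℝ (fun v : w => (v : H)) → w.Countable)
    (hinf : ¬ FiniteDimensional ℝ H) :
    ∃ e : ℕ → H, ∀ x : H, ∃! a : ℕ → ℝ,
      Tendsto (fun N => ∑ i ∈ Finset.range N, a i • e i) atTop (𝓝 x) := by
  obtain ⟨w, b, hb⟩ := exists_hilbertBasis ℝ H
  have hon : Orthonormal ℝ (fun v : w => (v : H)) := by
    have := b.orthonormal
    rw [hb] at this
    exact this
  have hcount := hc w hon
  have hinfw : Infinite w := by
    by_contra hfin
    rw [not_infinite_iff_finite] at hfin
    have := Fintype.ofFinite w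
    exact hinf (b.toOrthonormalBasis.toBasis.finiteDimensional_of_finite)
  have : Countable w := hcount.to_subtype
  obtain ⟨σ⟩ : Nonempty (ℕ ≃ w) := by
    have : Denumerable w := Classical.choice (nonempty_denumerable w)
    exact ⟨(Denumerable.eqv w).symm⟩
  have hσ : Orthonormal ℝ (fun n => b (σ n)) := b.orthonormal.comp σ σ.injective
  refine ⟨fun n => b (σ n), fun x => ⟨fun n => b.repr x (σ n), ?_, ?_⟩⟩
  · have h1 := b.hasSum_repr x
    have h2 := (σ.hasSum_iff (f := fun i => b.repr x i • b i)).2 h1
    exact h2.tendsto_sum_nat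
  · intro a ha
    funext j
    have h3 : Tendsto (fun N => inner ℝ (b (σ j)) (∑ i ∈ Finset.range N, a i • b (σ i))) atTop
        (𝓝 (inner ℝ (b (σ j)) x)) := (tendsto_const_nhds).inner ha
    have h4 : Tendsto (fun N => inner ℝ (b (σ j)) (∑ i ∈ Finset.range N, a i • b (σ i))) atTop
        (𝓝 (a j)) := by
      apply tendsto_const_nhds.congr'
      filter_upwards [eventually_gt_atTop j] with N hN
      rw [inner_sum]
      rw [Finset.sum_eq_single j]
      · rw [real_inner_smul_right, real_inner_self_eq_norm_sq, hσ.1 j]
        norm_num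
      · intro i _ hij
        rw [real_inner_smul_right, hσ.2 (Ne.symm hij), mul_zero]
      · intro hj
        exact absurd (Finset.mem_range.2 hN) hj
    have h5 := tendsto_nhds_unique h4 h3
    rw [h5, b.repr_apply_apply]

lemma hilb_l2 (F : Submodule ℝ L2) (hF : IsClosed (F : Set L2)) (hinf : ¬ FiniteDimensional ℝ F) :
    ∃ e : ℕ → F, ∀ x : F, ∃! a : ℕ → ℝ,
      Tendsto (fun N => ∑ i ∈ Finset.range N, a i • e i) atTop (𝓝 x) := by
  have : CompleteSpace F := hF.completeSpace_coe
  exact hilb_gen F (fun w hw => orthonormal_countable F w hw) hinf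

end HilbAux

theorem Hilb : Stmt_Hilb := by
  intro X _ _ T E hE hinf
  let F : Submodule ℝ L2 := E.map (T : X →ₗ[ℝ] L2)
  have hFset : (F : Set L2) = T '' (E : Set X) := by
    ext y
    simp [F]
  have hF : IsClosed (F : Set L2) := by
    rw [hFset]
    exact T.toHomeomorph.isClosedMap _ hE
  let τ : E ≃ₗ[ℝ] F := (T.toLinearEquiv).submoduleMap E
  have hτ : ∀ x : E, ((τ x : F) : L2) = T x := fun x => rfl
  have hFinf : ¬ FiniteDimensional ℝ F := by
    intro hfin
    exact hinf (LinearEquiv.finiteDimensional τ.symm)
  obtain ⟨e, he⟩ := hilb_l2 F hF hFinf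
  have hcont : Continuous τ := by
    apply Continuous.subtype_mk
    exact T.continuous.comp continuous_subtype_val
  have hsym : ∀ y : F, ((τ.symm y : E) : X) = T.symm (y : L2) := by
    intro y
    have h1 := hτ (τ.symm y)
    rw [LinearEquiv.apply_symm_apply] at h1
    rw [h1]
    simp
  have hcont' : Continuous τ.symm := by
    rw [continuous_induced_rng]
    have : (Subtype.val ∘ τ.symm) = fun y : F => T.symm (y : L2) := by
      funext y
      exact hsym y
    rw [this]
    exact T.symm.continuous.comp continuous_subtype_val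
  refine ⟨fun n => τ.symm (e n), fun x => ?_⟩
  obtain ⟨a, ha, hu⟩ := he (τ x)
  refine ⟨a, ?_, ?_⟩
  · have h1 := (hcont'.tendsto (τ x)).comp ha
    rw [LinearEquiv.symm_apply_apply] at h1
    refine h1.congr fun N => ?_
    simp [map_sum]
  · intro c hc
    apply hu
    have h1 := (hcont.tendsto x).comp hc
    refine h1.congr fun N => ?_
    simp [map_sum]

end Pool.Agent.JohnsonSp
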