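import Pool.Agent.JohnsonSp.Defs

/-!
Johnson's theorem for the concrete spaces.
-/

set_option autoImplicit false
open Filter Topology

namespace Pool.Agent.JohnsonSp

theorem Johnson (hA : Stmt_A) (hForm : Stmt_Form) (hSep : Stmt_Sep) : Stmt_Johnson := by
  intro k q _ N hq hN h5 hh hn E hE
  have hsep := hSep k q
  have hsc : SecondCountableTopology (XS k q) := UniformSpace.secondCountable_of_separable _
  have hscE : SecondCountableTopology E := inferInstance
  have hsepE : TopologicalSpace.SeparableSpace E := inferInstance
  -- the evaluation map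
  let φ : ∀ n : ℕ, E →ₗ[ℝ] ((l : Fin n) → Fin (k l) → ℝ) := fun n =>
    { toFun := fun x l i => ((x : XS k q) (l : ℕ)) i
      map_add' := fun x y => by
        funext l i
        simp
      map_smul' := fun c x => by
        funext l i
        simp }
  have hφ : ∀ n, LinearMap.ker (φ n) = (tail k q n).comap E.subtype := by
    intro n
    ext x
    rw [LinearMap.mem_ker, Submodule.mem_comap]
    constructor
    · intro h l hl
      have h1 := congrFun h ⟨l, hl⟩
      ext i
      exact congrFun h1 i
    · intro h
      funext l i
      have h1 := h l l.2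
      change ((x : XS k q) (l : ℕ)) i = 0
      rw [show ((x : XS k q) (l : ℕ)) = 0 from h1]
      rfl
  have e : ∀ n, (E ⧸ ((tail k q n).comap E.subtype)) ≃ₗ[ℝ] LinearMap.range (φ n) := fun n =>
    (Submodule.quotEquivOfEq _ _ (hφ n).symm).trans (φ n).quotKerEquivRange
  refine hA E (fun n => (tail k q n).comap E.subtype)
    (fun j => ∑ l ∈ Finset.range j, k l) N ?_ ?_ ?_ ?_ h5 hh hn
  · intro n
    have hcont : Continuous (fun x : XS k q => (x : ∀ i, PiLp (ENNReal.ofReal (q i))
        (fun _ : Fin (k i) => ℝ))) := lp.uniformContinuous_coe.continuous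
    have h1 : IsClosed ((tail k q n : Submodule ℝ (XS k q)) : Set (XS k q)) := by
      have : ((tail k q n : Submodule ℝ (XS k q)) : Set (XS k q)) =
          ⋂ l, ⋂ (_ : l < n), {x : XS k q | x l = 0} := by
        ext x
        simp only [Set.mem_iInter]
        rfl
      rw [this]
      refine isClosed_iInter fun l => isClosed_iInter fun _ => ?_
      exact isClosed_eq ((continuous_apply l).comp hcont) continuous_const
    exact h1.preimage continuous_subtype_val
  · intro n
    exact Module.Finite.equiv (e n).symm
  · intro n
    rw [(e n).finrank_eq]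
    refine (Submodule.finrank_le _).trans ?_
    rw [Module.finrank_pi_fintype]
    simp only [Module.finrank_fintype_fun_eq_card, Fintype.card_fin]
    rw [Finset.sum_range]
  · intro n G hG hGN
    let ι : ((tail k q n).comap E.subtype : Submodule ℝ E) →ₗ[ℝ] XS k q :=
      E.subtype ∘ₗ Submodule.subtype _
    have hinj : Function.Injective ι := by
      intro x y hxy
      exact Subtype.ext (Subtype.ext hxy)
    have hfd : FiniteDimensional ℝ (G.map ι) := Module.Finite.map G ι
    have hle : G.map ι ≤ tail k q n := by
      rintro _ ⟨x, _, rfl⟩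
      exact x.2
    obtain ⟨B, hB⟩ := hForm k q n (N n) hq (hN n) (G.map ι) hle hfd
      ((Submodule.finrank_map_le ι G).trans hGN)
    obtain ⟨h1, h2, h3, h4⟩ := hB
    refine ⟨B.compl₁₂ ι ι, fun x y => h1 _ _, fun x => h2 _, fun x => ?_, fun x hx => ?_⟩
    · exact h3 (ι x)
    · exact h4 (ι x) (Submodule.mem_map_of_mem hx)

end Pool.Agent.JohnsonSp
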