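import Pool.Agent.JohnsonSp.Compl

/-!
Module KerProj of the proof of S06184: projections with prescribed kernel of finite codimension.
-/

set_option autoImplicit false

namespace Pool.Agent.JohnsonSp

theorem KerProj (hLift : Stmt_Lift) : Stmt_KerProj := by
  intro Z _ _ N d hF hdN Y' hcl hfd hfr
  obtain ⟨B', hB'fd, hB'fr, hlift⟩ := hLift Z Y' d hcl hfd hfr
  obtain ⟨β, hβ⟩ := hF B' hB'fd (hB'fr.trans hdN)
  have hUle : B' ⊓ Y' ≤ B' := inf_le_left
  have : FiniteDimensional ℝ (B' ⊓ Y' : Submodule ℝ Z) := Submodule.finiteDimensional_inf_left _ _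
  have hβU : GoodForm (B' ⊓ Y') β :=
    ⟨hβ.1, hβ.2.1, hβ.2.2.1, fun x hx => hβ.2.2.2 x (hUle hx)⟩
  obtain ⟨Q, hQ1, hQ2, hQ3, hQ4⟩ := goodForm_proj (B' ⊓ Y') β hβU
  obtain ⟨hsymm, hpos, hle, hge⟩ := hβ
  choose b hb1 hb2 hb3 using hlift
  -- independence of the choice
  have key : ∀ y b', b' ∈ B' → y - b' ∈ Y' → b y - Q (b y) = b' - Q b' := by
    intro y b' h1 h2
    have h3 : b y - b' ∈ (B' ⊓ Y' : Submodule ℝ Z) := by
      refine ⟨B'.sub_mem (hb1 y) h1, ?_⟩
      have := Y'.sub_mem h2 (hb2 y)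
      have h4 : b y - b' = (y - b') - (y - b y) := by abel
      rw [h4]; exact this
    have h5 := hQ2 _ h3
    rw [map_sub] at h5
    have : b y - Q (b y) - (b' - Q b') = 0 := by
      have h6 : b y - Q (b y) - (b' - Q b') = (b y - b') - (Q (b y) - Q b') := by abel
      rw [h6, h5, sub_self]
    exact sub_eq_zero.mp this
  let P : Z →ₗ[ℝ] Z :=
    { toFun := fun y => b y - Q (b y)
      map_add' := by
        intro x y
        rw [key (x + y) (b x + b y) (B'.add_mem (hb1 x) (hb1 y)) (by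
          have h := Y'.add_mem (hb2 x) (hb2 y)
          have h4 : x + y - (b x + b y) = (x - b x) + (y - b y) := by abel
          rw [h4]; exact h)]
        rw [map_add]; abel
      map_smul' := by
        intro c x
        rw [key (c • x) (c • b x) (B'.smul_mem c (hb1 x)) (by
          rw [← smul_sub]; exact Y'.smul_mem c (hb2 x))]
        rw [map_smul, ← smul_sub]; rfl }
  have hP : ∀ y, P y = b y - Q (b y) := fun y => rfl
  have hPB : ∀ y, P y ∈ B' := fun y => B'.sub_mem (hb1 y) (hUle (hQ1 _))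
  have hPY : ∀ y, y - P y ∈ Y' := by
    intro y
    have h := Y'.add_mem (hb2 y) (inf_le_right (α := Submodule ℝ Z) (hQ1 (b y)))
    have h4 : y - P y = (y - b y) + Q (b y) := by rw [hP]; abel
    rw [h4]; exact h
  have hbd : ∀ y, ‖P y‖ ≤ 5 * ‖y‖ := by
    intro y
    have h1 := hge _ (hPB y)
    have h2 : β (P y) (P y) ≤ β (b y) (b y) := by
      have h3 := hQ3 (b y) _ (hQ1 (b y))
      have h4 : β (Q (b y)) (b y - Q (b y)) = 0 := by rw [hsymm]; exact h3
      have h5 := hpos (Q (b y))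
      have h6 : β (b y) (b y) = β (P y) (P y) + β (b y - Q (b y)) (Q (b y))
          + β (Q (b y)) (b y - Q (b y)) + β (Q (b y)) (Q (b y)) := by
        rw [hP]
        simp only [map_sub, LinearMap.sub_apply]
        ring
      rw [h6, h3, h4]
      linarith
    have h3 := hle (b y)
    have h4 := hb3 y
    have h5 : ‖P y‖ ^ 2 ≤ 18 * ‖y‖ ^ 2 := by
      nlinarith [norm_nonneg (b y), norm_nonneg y]
    nlinarith [norm_nonneg y, norm_nonneg (P y)]
  refine ⟨P.mkContinuous 5 hbd, ?_, ?_, fun x => hbd x⟩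
  · intro x
    change P (P x) = P x
    rw [hP (P x), key (P x) (P x) (hPB x) (by rw [sub_self]; exact Y'.zero_mem)]
    have h1 : Q (P x) = 0 := by
      rw [hP, map_sub, hQ2 _ (hQ1 (b x)), sub_self]
    rw [h1, sub_zero]
  · intro x
    change P x = 0 ↔ x ∈ Y'
    constructor
    · intro h
      have := hPY x
      rwa [h, sub_zero] at this
    · intro h
      rw [hP, key x 0 B'.zero_mem (by rwa [sub_zero])]
      simp

end Pool.Agent.JohnsonSp
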