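import Pool.Agent.JohnsonSp.Defs
import Pool.Agent.JohnsonSp.Net

set_option autoImplicit false
open Filter Topology

namespace Pool.Agent.JohnsonSp

theorem Lift : Stmt_Lift := by
  intro Y _ _ Y0 d hcl hfd hd
  classical
  have := hcl
  have := hfd
  obtain ⟨s, hcard, hs, hnet⟩ := Net (Y ⧸ Y0)
  have hlift : ∀ z : Y ⧸ Y0, ∃ y : Y, (Submodule.Quotient.mk y : Y ⧸ Y0) = z ∧ ‖y‖ < ‖z‖ + 1 / 2 :=
    fun z => Submodule.Quotient.norm_mk_lt z (by norm_num)
  choose g hg hgn using hlift
  refine ⟨Submodule.span ℝ ((s.image g : Finset Y) : Set Y),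
    FiniteDimensional.span_finset ℝ _, ?_, ?_⟩
  · refine (finrank_span_finset_le_card _).trans ?_
    refine Finset.card_image_le.trans (hcard.trans ?_)
    exact Nat.pow_le_pow_right (by norm_num) hd
  · intro y
    obtain ⟨c, hc1, hc2⟩ := hnet (Submodule.Quotient.mk y)
    refine ⟨∑ z ∈ s, c z • g z, ?_, ?_, ?_⟩
    · refine Submodule.sum_mem _ fun z hz => Submodule.smul_mem _ _ (Submodule.subset_span ?_)
      exact Finset.mem_coe.2 (Finset.mem_image_of_mem _ hz)
    · rw [← Submodule.Quotient.eq]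
      rw [← hc2]
      have : (Submodule.Quotient.mk (∑ z ∈ s, c z • g z) : Y ⧸ Y0) = ∑ z ∈ s, c z • z := by
        rw [← Submodule.mkQ_apply, map_sum]
        refine Finset.sum_congr rfl fun z _ => ?_
        rw [map_smul, Submodule.mkQ_apply, hg]
      rw [this]
    · calc ‖∑ z ∈ s, c z • g z‖ ≤ ∑ z ∈ s, ‖c z • g z‖ := norm_sum_le _ _
        _ ≤ ∑ z ∈ s, |c z| * (3 / 2) := by
            refine Finset.sum_le_sum fun z hz => ?_
            rw [norm_smul, Real.norm_eq_abs]
            refine mul_le_mul_of_nonneg_left ?_ (abs_nonneg _)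
            have h1 := hgn z
            have h2 := hs z hz
            linarith
        _ = (∑ z ∈ s, |c z|) * (3 / 2) := by rw [Finset.sum_mul]
        _ ≤ (2 * ‖(Submodule.Quotient.mk y : Y ⧸ Y0)‖) * (3 / 2) :=
            mul_le_mul_of_nonneg_right hc1 (by norm_num)
        _ ≤ 3 * ‖y‖ := by
            have := Submodule.Quotient.norm_mk_le Y0 y
            linarith

end Pool.Agent.JohnsonSp
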