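import Mathlib
import Pool.Agent.JohnsonSp.Defs

set_option autoImplicit false

namespace Pool.Agent.JohnsonSp

theorem near_exists_unit {m : ℕ} (V : Submodule ℝ (Eu m)) (hV : 3 ≤ Module.finrank ℝ V)
    (x y : Eu m) : ∃ z ∈ V, ‖z‖ = 1 ∧ inner ℝ x z = 0 ∧ inner ℝ y z = 0 := by
  let f : V →ₗ[ℝ] (ℝ × ℝ) :=
    ((innerₛₗ ℝ x).comp V.subtype).prod ((innerₛₗ ℝ y).comp V.subtype)
  have hf : LinearMap.ker f ≠ ⊥ := by
    apply LinearMap.ker_ne_bot_of_finrank_lt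
    simp only [Module.finrank_prod, Module.finrank_self]
    omega
  obtain ⟨v, hv, hv0⟩ := Submodule.exists_mem_ne_zero_of_ne_bot hf
  have hv1 : f v = 0 := hv
  have h1 : inner ℝ x (v : Eu m) = 0 := congrArg Prod.fst hv1
  have h2 : inner ℝ y (v : Eu m) = 0 := congrArg Prod.snd hv1
  have hn : ‖(v : Eu m)‖ ≠ 0 := by
    rw [norm_ne_zero_iff]
    intro h
    exact hv0 (Subtype.ext h)
  refine ⟨(‖(v : Eu m)‖⁻¹) • (v : Eu m), V.smul_mem _ v.2, ?_, ?_, ?_⟩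
  · rw [norm_smul, norm_inv, norm_norm, inv_mul_cancel₀ hn]
  · rw [inner_smul_right, h1, mul_zero]
  · rw [inner_smul_right, h2, mul_zero]

theorem Near : Stmt_Near := by
  intro m η S L hη hL h
  set V := Lᗮ with hVdef
  -- homogeneous form
  have hom : ∀ x ∈ V, ∀ y ∈ V,
      |‖x‖ ^ 2 * inner ℝ (S x) y - inner ℝ (S x) x * inner ℝ x y| ≤ η * ‖x‖ ^ 3 * ‖y‖ := by
    intro x hx y hy
    by_cases hx0 : x = 0
    · subst hx0
      simp
    · have hn : ‖x‖ ≠ 0 := norm_ne_zero_iff.mpr hx0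
      have hpos : 0 < ‖x‖ := norm_pos_iff.mpr hx0
      have h1 := h (‖x‖⁻¹ • x) (V.smul_mem _ hx)
        (by rw [norm_smul, norm_inv, norm_norm, inv_mul_cancel₀ hn]) y hy
      simp only [map_smul, inner_smul_left, inner_smul_right, RCLike.conj_to_real] at h1
      have e1 : ‖x‖ ^ 2 * inner ℝ (S x) y - inner ℝ (S x) x * inner ℝ x y
          = ‖x‖ ^ 3 * (‖x‖⁻¹ * inner ℝ (S x) y -
            ‖x‖⁻¹ * (‖x‖⁻¹ * inner ℝ (S x) x) * (‖x‖⁻¹ * inner ℝ x y)) := by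
        field_simp
      rw [e1, abs_mul, abs_of_pos (pow_pos hpos 3)]
      calc ‖x‖ ^ 3 * _ ≤ ‖x‖ ^ 3 * (η * ‖y‖) :=
            mul_le_mul_of_nonneg_left h1 (pow_pos hpos 3).le
        _ = η * ‖x‖ ^ 3 * ‖y‖ := by ring
  -- orthonormal pairs
  have orth : ∀ x ∈ V, ∀ y ∈ V, ‖x‖ = 1 → ‖y‖ = 1 → inner ℝ x y = 0 →
      |inner ℝ (S x) x - inner ℝ (S y) y| ≤ 4 * η := by
    intro x hx y hy hx1 hy1 hxy
    have hyx : inner ℝ y x = 0 := by rw [real_inner_comm]; exact hxy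
    have a1 := h x hx hx1 y hy
    rw [hxy, mul_zero, sub_zero, hy1, mul_one] at a1
    have a2 := h y hy hy1 x hx
    rw [hyx, mul_zero, sub_zero, hx1, mul_one] at a2
    have hz : ‖x + y‖ ^ 2 = 2 := by
      rw [@norm_add_sq_real, hxy, hx1, hy1]; norm_num
    have hw : ‖x - y‖ ^ 2 = 2 := by
      rw [@norm_sub_sq_real, hxy, hx1, hy1]; norm_num
    have a3 := hom (x + y) (V.add_mem hx hy) (x - y) (V.sub_mem hx hy)
    have hin : inner ℝ (x + y) (x - y) = 0 := by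
      rw [inner_add_left, inner_sub_right, inner_sub_right, hxy, hyx,
        real_inner_self_eq_norm_sq, real_inner_self_eq_norm_sq, hx1, hy1]
      norm_num
    have hprod : ‖x + y‖ ^ 3 * ‖x - y‖ = 4 := by
      have : ‖x + y‖ = ‖x - y‖ := by
        have := hz.trans hw.symm
        exact (sq_eq_sq₀ (norm_nonneg _) (norm_nonneg _)).mp this
      calc ‖x + y‖ ^ 3 * ‖x - y‖ = ‖x + y‖ ^ 2 * (‖x + y‖ * ‖x - y‖) := by ring
        _ = ‖x + y‖ ^ 2 * (‖x + y‖ * ‖x + y‖) := by rw [← this]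
        _ = ‖x + y‖ ^ 2 * ‖x + y‖ ^ 2 := by ring
        _ = 4 := by rw [hz]; norm_num
    rw [hin, mul_zero, sub_zero, hz, mul_assoc, hprod, abs_mul] at a3
    have a4 : |inner ℝ (S (x + y)) (x - y)| ≤ 2 * η := by
      have : |(2 : ℝ)| = 2 := abs_of_pos two_pos
      rw [this] at a3
      linarith
    rw [map_add, inner_add_left, inner_sub_right, inner_sub_right] at a4
    rw [abs_le] at a1 a2 a4 ⊢
    constructor <;> linarith [a1.1, a1.2, a2.1, a2.2, a4.1, a4.2]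
  have unit2 : ∀ x ∈ V, ∀ y ∈ V, ‖x‖ = 1 → ‖y‖ = 1 →
      |inner ℝ (S x) x - inner ℝ (S y) y| ≤ 8 * η := by
    intro x hx y hy hx1 hy1
    obtain ⟨z, hz, hz1, hxz, hyz⟩ := near_exists_unit V hL x y
    have b1 := orth x hx z hz hx1 hz1 hxz
    have b2 := orth y hy z hz hy1 hz1 hyz
    rw [abs_le] at b1 b2 ⊢
    constructor <;> linarith [b1.1, b1.2, b2.1, b2.2]
  obtain ⟨x0, hx0, hx01, -, -⟩ := near_exists_unit V hL 0 0
  refine ⟨inner ℝ (S x0) x0, ?_⟩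
  intro x hx y hy
  have key : ∀ x ∈ V, ‖x‖ = 1 → ∀ y ∈ V,
      |inner ℝ (S x) y - inner ℝ (S x0) x0 * inner ℝ x y| ≤ 15 * η * ‖y‖ := by
    intro x hx hx1 y hy
    have c1 := h x hx hx1 y hy
    have c2 := unit2 x hx x0 hx0 hx1 hx01
    have c3 : |inner ℝ x y| ≤ ‖y‖ := by
      have := abs_real_inner_le_norm x y
      rwa [hx1, one_mul] at this
    have e : inner ℝ (S x) y - inner ℝ (S x0) x0 * inner ℝ x y
        = (inner ℝ (S x) y - inner ℝ (S x) x * inner ℝ x y)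
          + (inner ℝ (S x) x - inner ℝ (S x0) x0) * inner ℝ x y := by ring
    rw [e]
    refine (abs_add_le _ _).trans ?_
    rw [abs_mul]
    have c4 : |inner ℝ (S x) x - inner ℝ (S x0) x0| * |inner ℝ x y| ≤ 8 * η * ‖y‖ :=
      mul_le_mul c2 c3 (abs_nonneg _) (by positivity)
    have : 0 ≤ η * ‖y‖ := by positivity
    linarith
  by_cases hxz : x = 0
  · subst hxz
    simp
  · have hn : ‖x‖ ≠ 0 := norm_ne_zero_iff.mpr hxz
    have hpos : 0 < ‖x‖ := norm_pos_iff.mpr hxz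
    have d1 := key (‖x‖⁻¹ • x) (V.smul_mem _ hx)
        (by rw [norm_smul, norm_inv, norm_norm, inv_mul_cancel₀ hn]) y hy
    simp only [map_smul, inner_smul_left, RCLike.conj_to_real] at d1
    have e1 : inner ℝ (S x) y - inner ℝ (S x0) x0 * inner ℝ x y
          = ‖x‖ * (‖x‖⁻¹ * inner ℝ (S x) y -
            inner ℝ (S x0) x0 * (‖x‖⁻¹ * inner ℝ x y)) := by
        field_simp
    rw [e1, abs_mul, abs_of_pos hpos]
    calc ‖x‖ * _ ≤ ‖x‖ * (15 * η * ‖y‖) := mul_le_mul_of_nonneg_left d1 hpos.le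
      _ = 15 * η * ‖x‖ * ‖y‖ := by ring

end Pool.Agent.JohnsonSp
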