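import Mathlib
import Pool.Agent.JohnsonSp.Defs

/-!
Module `NetE` of the proof of S06184: nets inside subsets of Euclidean balls.
-/

set_option autoImplicit false
open Filter Topology MeasureTheory ProbabilityTheory

namespace Pool.Agent.JohnsonSp

/-- Cardinality bound for separated subsets of a Euclidean ball. -/
theorem card_sep_le {ι : Type} [Fintype ι] (R ε : ℝ) (hR : 0 ≤ R) (hε : 0 < ε)
    (s : Finset (EuclideanSpace ℝ ι)) (hs : ∀ x ∈ s, ‖x‖ ≤ R)
    (hsep : ∀ x ∈ s, ∀ y ∈ s, x ≠ y → ε < ‖x - y‖) :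
    (s.card : ℝ) ≤ (1 + 2 * R / ε) ^ Fintype.card ι := by
  classical
  let μ : Measure (EuclideanSpace ℝ ι) := volume
  have hdisj : (s : Set (EuclideanSpace ℝ ι)).PairwiseDisjoint (fun x => Metric.ball x (ε / 2)) := by
    intro x hx y hy hxy
    apply Metric.ball_disjoint_ball
    rw [dist_eq_norm]
    have := hsep x hx y hy hxy
    linarith
  have hsub : (⋃ x ∈ s, Metric.ball x (ε / 2)) ⊆ Metric.ball (0 : EuclideanSpace ℝ ι) (R + ε / 2) := by
    intro z hz
    simp only [Set.mem_iUnion] at hz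
    obtain ⟨x, hx, hz⟩ := hz
    rw [Metric.mem_ball, dist_eq_norm] at hz
    rw [Metric.mem_ball, dist_zero_right]
    calc ‖z‖ = ‖(z - x) + x‖ := by congr 1; abel
      _ ≤ ‖z - x‖ + ‖x‖ := norm_add_le _ _
      _ < ε / 2 + R := by have := hs x hx; linarith
      _ = R + ε / 2 := by ring
  have hfr : Module.finrank ℝ (EuclideanSpace ℝ ι) = Fintype.card ι := finrank_euclideanSpace
  have hpos : (0 : ℝ) < R + ε / 2 := by linarith
  have h1 : μ (⋃ x ∈ s, Metric.ball x (ε / 2)) = ∑ x ∈ s, μ (Metric.ball x (ε / 2)) :=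
    measure_biUnion_finset hdisj (fun x _ => Metric.isOpen_ball.measurableSet)
  have h2 : ∀ x : EuclideanSpace ℝ ι, μ (Metric.ball x (ε / 2)) =
      ENNReal.ofReal ((ε / 2) ^ Fintype.card ι) * μ (Metric.ball (0 : EuclideanSpace ℝ ι) 1) := by
    intro x
    rw [Measure.addHaar_ball_of_pos μ x (by linarith), hfr]
  have h3 : μ (Metric.ball (0 : EuclideanSpace ℝ ι) (R + ε / 2)) =
      ENNReal.ofReal ((R + ε / 2) ^ Fintype.card ι) * μ (Metric.ball (0 : EuclideanSpace ℝ ι) 1) := by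
    rw [Measure.addHaar_ball_of_pos μ _ hpos, hfr]
  have h4 : (s.card : ENNReal) * (ENNReal.ofReal ((ε / 2) ^ Fintype.card ι) *
      μ (Metric.ball (0 : EuclideanSpace ℝ ι) 1)) ≤
      ENNReal.ofReal ((R + ε / 2) ^ Fintype.card ι) * μ (Metric.ball (0 : EuclideanSpace ℝ ι) 1) := by
    rw [← h3]
    calc (s.card : ENNReal) * (ENNReal.ofReal ((ε / 2) ^ Fintype.card ι) *
      μ (Metric.ball (0 : EuclideanSpace ℝ ι) 1)) = ∑ x ∈ s, μ (Metric.ball x (ε / 2)) := by
          rw [Finset.sum_congr rfl (fun x _ => h2 x), Finset.sum_const, nsmul_eq_mul]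
      _ = μ (⋃ x ∈ s, Metric.ball x (ε / 2)) := h1.symm
      _ ≤ μ (Metric.ball (0 : EuclideanSpace ℝ ι) (R + ε / 2)) := measure_mono hsub
  have hb0 : μ (Metric.ball (0 : EuclideanSpace ℝ ι) 1) ≠ 0 := (Metric.measure_ball_pos μ 0 one_pos).ne'
  have hb1 : μ (Metric.ball (0 : EuclideanSpace ℝ ι) 1) ≠ ⊤ := measure_ball_lt_top.ne
  rw [← mul_assoc, ENNReal.mul_le_mul_iff_left hb0 hb1] at h4
  have h5 : (s.card : ENNReal) = ENNReal.ofReal (s.card : ℝ) := by
    rw [ENNReal.ofReal_natCast]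
  rw [h5, ← ENNReal.ofReal_mul (Nat.cast_nonneg _),
    ENNReal.ofReal_le_ofReal_iff (by positivity)] at h4
  have h6 : (s.card : ℝ) ≤ (R + ε / 2) ^ Fintype.card ι / (ε / 2) ^ Fintype.card ι := by
    rw [le_div_iff₀ (by positivity)]; exact h4
  rw [← div_pow] at h6
  have h7 : (R + ε / 2) / (ε / 2) = 1 + 2 * R / ε := by
    field_simp
    ring
  rwa [h7] at h6

theorem NetE : Stmt_NetE := by
  classical
  intro ι _ A R ε hR hε hA
  let P : ℕ → Prop := fun n => ∃ s : Finset (EuclideanSpace ℝ ι),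
    (s : Set (EuclideanSpace ℝ ι)) ⊆ A ∧ (∀ x ∈ s, ∀ y ∈ s, x ≠ y → ε < ‖x - y‖) ∧ s.card = n
  have hbd : ∀ n, P n → (n : ℝ) ≤ (1 + 2 * R / ε) ^ Fintype.card ι := by
    rintro n ⟨s, hsA, hsep, rfl⟩
    exact card_sep_le R ε hR hε s (fun x hx => hA x (hsA hx)) hsep
  set N := ⌊(1 + 2 * R / ε) ^ Fintype.card ι⌋₊ with hN
  have hP0 : P 0 := ⟨∅, by simp, by simp, rfl⟩
  have hle : ∀ n, P n → n ≤ N := fun n hn => Nat.le_floor (hbd n hn)
  have hmax := Nat.findGreatest_spec (P := P) (Nat.zero_le N) hP0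
  obtain ⟨s, hsA, hsep, hcard⟩ := hmax
  refine ⟨s, hsA, ?_, ?_⟩
  · exact card_sep_le R ε hR hε s (fun x hx => hA x (hsA hx)) hsep
  · intro x hx
    by_contra hcon
    push Not at hcon
    have hxs : x ∉ s := by
      intro hxs
      have := hcon x hxs
      rw [sub_self, norm_zero] at this
      linarith
    have hP : P (s.card + 1) := by
      refine ⟨insert x s, ?_, ?_, ?_⟩
      · intro y hy
        rw [Finset.coe_insert] at hy
        rcases hy with rfl | hy
        · exact hx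
        · exact hsA hy
      · intro y hy z hz hyz
        rw [Finset.mem_insert] at hy hz
        rcases hy with rfl | hy
        · rcases hz with rfl | hz
          · exact absurd rfl hyz
          · exact hcon z hz
        · rcases hz with rfl | hz
          · rw [norm_sub_rev]; exact hcon y hy
          · exact hsep y hy z hz hyz
      · exact Finset.card_insert_of_notMem hxs
    have h1 := hle _ hP
    have h2 := Nat.le_findGreatest h1 hP
    omega

end Pool.Agent.JohnsonSp
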