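import Mathlib
import Pool.Agent.JohnsonSp.Defs
import Pool.Agent.JohnsonSp.NetE

/-!
Module `NetHS` of the proof of S06184: nets for sets of operators in Hilbert-Schmidt norm.
-/

set_option autoImplicit false
open Filter Topology MeasureTheory ProbabilityTheory

namespace Pool.Agent.JohnsonSp

/-- Matrix coordinates of an operator. -/
noncomputable def hsCoord {m : ℕ} (S : Eu m →ₗ[ℝ] Eu m) :
    EuclideanSpace ℝ (Fin m × Fin m) :=
  WithLp.toLp 2 (fun p => (S (EuclideanSpace.single p.1 1)) p.2)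

theorem norm_hsCoord_sq {m : ℕ} (S : Eu m →ₗ[ℝ] Eu m) : ‖hsCoord S‖ ^ 2 = hs S := by
  rw [EuclideanSpace.norm_sq_eq, hs, Fintype.sum_prod_type]
  refine Finset.sum_congr rfl fun j _ => ?_
  rw [EuclideanSpace.norm_sq_eq]
  rfl

theorem hsCoord_sub {m : ℕ} (S T : Eu m →ₗ[ℝ] Eu m) :
    hsCoord (S - T) = hsCoord S - hsCoord T := by
  ext p
  simp [hsCoord]

theorem NetHS_of (hNetE : Stmt_NetE) : Stmt_NetHS := by
  classical
  intro m 𝒜 R ε hR hε h𝒜
  obtain ⟨s, hsA, hcard, hnet⟩ := hNetE (Fin m × Fin m) (hsCoord '' 𝒜) R ε hR hε (by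
    rintro x ⟨S, hS, rfl⟩
    have h1 := h𝒜 S hS
    rw [← norm_hsCoord_sq] at h1
    exact (sq_le_sq₀ (norm_nonneg _) hR).1 h1)
  have hch : ∀ x : EuclideanSpace ℝ (Fin m × Fin m), ∃ S : Eu m →ₗ[ℝ] Eu m,
      x ∈ s → S ∈ 𝒜 ∧ hsCoord S = x := by
    intro x
    by_cases hx : x ∈ s
    · obtain ⟨S, hS, hSx⟩ := hsA hx
      exact ⟨S, fun _ => ⟨hS, hSx⟩⟩
    · exact ⟨0, fun h => absurd h hx⟩
  choose F hF using hch
  refine ⟨s.image F, ?_, ?_, ?_⟩
  · intro S hS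
    rw [Finset.coe_image] at hS
    obtain ⟨x, hx, rfl⟩ := hS
    exact (hF x hx).1
  · calc ((s.image F).card : ℝ) ≤ (s.card : ℝ) := by exact_mod_cast Finset.card_image_le
      _ ≤ (1 + 2 * R / ε) ^ Fintype.card (Fin m × Fin m) := hcard
      _ = (1 + 2 * R / ε) ^ (m * m) := by simp
  · intro S hS
    obtain ⟨y, hy, hyd⟩ := hnet (hsCoord S) ⟨S, hS, rfl⟩
    refine ⟨F y, Finset.mem_image_of_mem F hy, ?_⟩
    rw [← norm_hsCoord_sq, hsCoord_sub, (hF y hy).2]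
    exact pow_le_pow_left₀ (norm_nonneg _) hyd 2

theorem NetHS : Stmt_NetHS := NetHS_of NetE

end Pool.Agent.JohnsonSp
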