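import Pool.Agent.JohnsonSp.Defs

/-! Operator norm of a Gaussian matrix. -/

set_option autoImplicit false
open MeasureTheory ProbabilityTheory

namespace Pool.Agent.JohnsonSp

theorem opn_mgf {m : ℕ} (y : Eu m) (t : ℝ) :
    Integrable (fun x => Real.exp (t * inner ℝ y x)) (stdGaussian (Eu m)) ∧
    ∫ x, Real.exp (t * inner ℝ y x) ∂(stdGaussian (Eu m)) = Real.exp (‖y‖ ^ 2 * t ^ 2 / 2) := by
  set L : StrongDual ℝ (Eu m) := innerSL ℝ y with hL
  have hmap : (stdGaussian (Eu m)).map L = gaussianReal 0 (‖y‖ ^ 2).toNNReal := by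
    rw [IsGaussian.map_eq_gaussianReal L, integral_strongDual_stdGaussian, variance_dual_stdGaussian]
    congr 3
    rw [hL, innerSL_apply_norm]
  have hm := mgf_gaussianReal hmap t
  have hi : Integrable (fun x => Real.exp (t * L x)) (stdGaussian (Eu m)) := by
    have := integrable_exp_mul_gaussianReal (μ := 0) (v := (‖y‖ ^ 2).toNNReal) t
    rw [← hmap] at this
    have h2 := (integrable_map_measure (by fun_prop) (by fun_prop)).1 this
    exact h2
  refine ⟨hi, ?_⟩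
  have : (‖y‖ ^ 2).toNNReal = (‖y‖ ^ 2 : ℝ) := Real.coe_toNNReal _ (by positivity)
  rw [this] at hm
  rw [mgf] at hm
  simp only [zero_mul, zero_add] at hm
  exact hm

theorem opn_tail {m n : ℕ} (y : Eu m) (w : Eu n) (hy : ‖y‖ ≤ 1) (hw : ‖w‖ ≤ 1) (t : ℝ)
    (ht : 0 ≤ t) :
    (gm m n) {G | t ≤ inner ℝ y (∑ i, w i • G i)} ≤ ENNReal.ofReal (Real.exp (- t ^ 2 / 2)) := by
  have : IsProbabilityMeasure (gm m n) := by unfold gm; infer_instance
  have hexp : ∀ G : Fin n → Eu m, Real.exp (t * inner ℝ y (∑ i, w i • G i)) =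
      ∏ i, Real.exp ((t * w i) * inner ℝ y (G i)) := by
    intro G
    rw [← Real.exp_sum]
    congr 1
    rw [inner_sum, Finset.mul_sum]
    refine Finset.sum_congr rfl fun i _ => ?_
    rw [inner_smul_right]; ring
  have hint : Integrable (fun G : Fin n → Eu m => Real.exp (t * inner ℝ y (∑ i, w i • G i)))
      (gm m n) := by
    simp_rw [hexp]
    unfold gm
    exact Integrable.fintype_prod_dep (f := fun i x => Real.exp ((t * w i) * inner ℝ y x))
      (fun i => (opn_mgf y (t * w i)).1)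
  have hmgf : mgf (fun G : Fin n → Eu m => inner ℝ y (∑ i, w i • G i)) (gm m n) t ≤
      Real.exp (t ^ 2 / 2) := by
    unfold mgf
    simp_rw [hexp]
    unfold gm
    rw [integral_fintype_prod_eq_prod (f := fun i x => Real.exp ((t * w i) * inner ℝ y x))]
    simp_rw [fun i => (opn_mgf y (t * w i)).2]
    rw [← Real.exp_sum]
    apply Real.exp_le_exp.2
    have hw2 : ∑ i, w i ^ 2 ≤ 1 := by
      have := EuclideanSpace.norm_sq_eq w
      simp only [Real.norm_eq_abs, sq_abs] at this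
      rw [← this]
      have h0 := norm_nonneg w
      nlinarith
    have hy2 : ‖y‖ ^ 2 ≤ 1 := by
      have h0 := norm_nonneg y
      nlinarith
    have : ∑ i, ‖y‖ ^ 2 * (t * w i) ^ 2 / 2 = ‖y‖ ^ 2 * (∑ i, w i ^ 2) * (t ^ 2 / 2) := by
      rw [Finset.mul_sum, Finset.sum_mul]
      refine Finset.sum_congr rfl fun i _ => ?_
      ring
    rw [this]
    have h1 : ‖y‖ ^ 2 * (∑ i, w i ^ 2) ≤ 1 := by
      have h0 : 0 ≤ ∑ i, w i ^ 2 := Finset.sum_nonneg fun i _ => sq_nonneg _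
      calc ‖y‖ ^ 2 * (∑ i, w i ^ 2) ≤ 1 * 1 := by gcongr
        _ = 1 := by ring
    have h2 : 0 ≤ t ^ 2 / 2 := by positivity
    nlinarith
  have hmain := measure_ge_le_exp_mul_mgf (μ := gm m n)
    (X := fun G : Fin n → Eu m => inner ℝ y (∑ i, w i • G i)) t ht hint
  have hfin : (gm m n).real {G | t ≤ inner ℝ y (∑ i, w i • G i)} ≤ Real.exp (- t ^ 2 / 2) := by
    refine hmain.trans ?_
    calc Real.exp (-t * t) * mgf (fun G : Fin n → Eu m => inner ℝ y (∑ i, w i • G i)) (gm m n) t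
        ≤ Real.exp (-t * t) * Real.exp (t ^ 2 / 2) := by gcongr
      _ = Real.exp (- t ^ 2 / 2) := by rw [← Real.exp_add]; congr 1; ring
  rw [Measure.real] at hfin
  exact (ENNReal.le_ofReal_iff_toReal_le (measure_ne_top _ _) (Real.exp_pos _).le).2 hfin

theorem opn_det {m n : ℕ} (hNet : Stmt_Net) :
    ∃ (s : Finset (Eu m)) (s' : Finset (Eu n)), s.card ≤ 5 ^ m ∧ s'.card ≤ 5 ^ n ∧
      (∀ y ∈ s, ‖y‖ ≤ 1) ∧ (∀ w ∈ s', ‖w‖ ≤ 1) ∧ ∀ (t : ℝ) (G : Fin n → Eu m), 0 ≤ t →
        (∀ y ∈ s, ∀ w ∈ s', |inner ℝ y (∑ i, w i • G i)| ≤ t) → OpB G (4 * t) := by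
  obtain ⟨s, hs, hs1, hs2⟩ := hNet (Eu m)
  obtain ⟨s', hs', hs1', hs2'⟩ := hNet (Eu n)
  rw [finrank_euclideanSpace_fin] at hs hs'
  refine ⟨s, s', hs, hs', hs1, hs1', ?_⟩
  intro t G ht hG c
  set z : Eu n := WithLp.toLp 2 c with hz
  have hznorm : ‖z‖ = Real.sqrt (∑ i, c i ^ 2) := by
    rw [EuclideanSpace.norm_eq]
    simp [hz]
  set Γ : Eu n →ₗ[ℝ] Eu m :=
    { toFun := fun w => ∑ i, w i • G i
      map_add' := by
        intro a b
        simp [add_smul, Finset.sum_add_distrib]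
      map_smul' := by
        intro a b
        simp [Finset.smul_sum, mul_smul] } with hΓ
  have hΓa : ∀ w : Eu n, Γ w = ∑ i, w i • G i := fun w => rfl
  have hx : ∑ i, c i • G i = Γ z := rfl
  rw [hx, ← hznorm]
  obtain ⟨e, he1, he2⟩ := hs2 (Γ z)
  obtain ⟨d, hd1, hd2⟩ := hs2' z
  have key : ‖Γ z‖ ^ 2 ≤ (2 * ‖Γ z‖) * (2 * ‖z‖) * t := by
    have h1 : ‖Γ z‖ ^ 2 = ∑ y ∈ s, ∑ w ∈ s', e y * (d w * inner ℝ y (Γ w)) := by
      rw [← real_inner_self_eq_norm_sq]
      have h2 : inner ℝ (Γ z) (Γ z) = inner ℝ (∑ y ∈ s, e y • y) (Γ (∑ w ∈ s', d w • w)) := by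
        rw [he2, hd2]
      rw [h2, map_sum, sum_inner]
      refine Finset.sum_congr rfl fun y _ => ?_
      rw [inner_smul_left, inner_sum, Finset.mul_sum]
      refine Finset.sum_congr rfl fun w _ => ?_
      rw [map_smul, inner_smul_right]
      simp
    calc ‖Γ z‖ ^ 2 = ∑ y ∈ s, ∑ w ∈ s', e y * (d w * inner ℝ y (Γ w)) := h1
      _ ≤ ∑ y ∈ s, ∑ w ∈ s', |e y| * (|d w| * t) := by
          refine Finset.sum_le_sum fun y hy => Finset.sum_le_sum fun w hw => ?_
          refine (le_abs_self _).trans ?_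
          rw [abs_mul, abs_mul]
          have := hG y hy w hw
          rw [← hΓa] at this
          gcongr
      _ = (∑ y ∈ s, |e y|) * (∑ w ∈ s', |d w|) * t := by
          rw [Finset.sum_mul_sum, Finset.sum_mul]
          refine Finset.sum_congr rfl fun y _ => ?_
          rw [Finset.sum_mul]
          refine Finset.sum_congr rfl fun w _ => ?_
          ring
      _ ≤ (2 * ‖Γ z‖) * (2 * ‖z‖) * t := by
          have h0 : 0 ≤ ∑ w ∈ s', |d w| := Finset.sum_nonneg fun _ _ => abs_nonneg _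
          gcongr
  rcases eq_or_lt_of_le (norm_nonneg (Γ z)) with h0 | h0
  · rw [← h0]
    positivity
  · by_contra hcon
    push Not at hcon
    nlinarith [norm_nonneg z]

theorem OpNorm (hNet : Stmt_Net) : Stmt_OpNorm := by
  intro m n hm hn
  obtain ⟨s, s', hs, hs', hs1, hs1', hdet⟩ := opn_det (m := m) (n := n) hNet
  set t : ℝ := 5 / 2 * Real.sqrt (m + n) with ht
  have ht0 : 0 ≤ t := by positivity
  have ht2 : t ^ 2 = 25 / 4 * (m + n) := by
    rw [ht, mul_pow, Real.sq_sqrt (by positivity)]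
    norm_num
  have h10 : 10 * Real.sqrt (m + n) = 4 * t := by rw [ht]; ring
  have hsub : {G : Fin n → Eu m | ¬ OpB G (10 * Real.sqrt (m + n))} ⊆
      ⋃ y ∈ s, ⋃ w ∈ s', ({G : Fin n → Eu m | t ≤ inner ℝ y (∑ i, w i • G i)} ∪
        {G : Fin n → Eu m | t ≤ inner ℝ (-y) (∑ i, w i • G i)}) := by
    intro G hG
    simp only [Set.mem_ofPred_eq] at hG
    by_contra hcon
    apply hG
    rw [h10]
    apply hdet t G ht0
    intro y hy w hw
    simp only [Set.mem_iUnion, not_exists, Set.mem_union, Set.mem_ofPred_eq, not_or, not_le] at hcon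
    have := hcon y hy w hw
    rw [inner_neg_left] at this
    rw [abs_le]
    constructor <;> linarith [this.1, this.2]
  refine (measure_mono hsub).trans ?_
  refine (measure_biUnion_finset_le _ _).trans ?_
  have hb : ∀ y ∈ s, gm m n (⋃ w ∈ s', ({G : Fin n → Eu m | t ≤ inner ℝ y (∑ i, w i • G i)} ∪
        {G : Fin n → Eu m | t ≤ inner ℝ (-y) (∑ i, w i • G i)})) ≤
      s'.card * ENNReal.ofReal (2 * Real.exp (- t ^ 2 / 2)) := by
    intro y hy
    refine (measure_biUnion_finset_le _ _).trans ?_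
    rw [← nsmul_eq_mul]
    refine Finset.sum_le_card_nsmul _ _ _ fun w hw => ?_
    refine (measure_union_le _ _).trans ?_
    rw [two_mul, ENNReal.ofReal_add (Real.exp_pos _).le (Real.exp_pos _).le]
    refine add_le_add (opn_tail y w (hs1 y hy) (hs1' w hw) t ht0) ?_
    exact opn_tail (-y) w (by rw [norm_neg]; exact hs1 y hy) (hs1' w hw) t ht0
  refine (Finset.sum_le_card_nsmul _ _ _ hb).trans ?_
  rw [nsmul_eq_mul]
  have hE : (5 : ℝ) * Real.exp (-(25 / 8)) ≤ 1 / 4 := by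
    have h1 : (20 : ℝ) ≤ Real.exp (25 / 8) := by
      have h3 : Real.exp 3 = Real.exp 1 ^ 3 := by
        rw [← Real.exp_nat_mul]; norm_num
      have h4 : Real.exp 3 ≤ Real.exp (25 / 8) := Real.exp_le_exp.2 (by norm_num)
      have h5 := Real.exp_one_gt_d9
      have h6 : (2.7182818283 : ℝ) ^ 3 ≤ Real.exp 1 ^ 3 := by gcongr
      norm_num at h6
      rw [h3] at h4
      linarith
    rw [Real.exp_neg]
    have h2 : (Real.exp (25 / 8))⁻¹ ≤ 1 / 20 := by
      rw [inv_eq_one_div]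
      apply one_div_le_one_div_of_le (by norm_num) h1
    linarith
  have hfin : ((5 : ℝ) ^ m) * (5 ^ n * (2 * Real.exp (- t ^ 2 / 2))) ≤ 1 / 2 := by
    have h1 : Real.exp (- t ^ 2 / 2) = Real.exp (-(25 / 8)) ^ (m + n) := by
      rw [← Real.exp_nat_mul]
      congr 1
      rw [neg_div, ht2]
      push_cast
      ring
    rw [h1]
    have h2 : ((5 : ℝ) ^ m) * (5 ^ n * (2 * Real.exp (-(25 / 8)) ^ (m + n))) =
        2 * (5 * Real.exp (-(25 / 8))) ^ (m + n) := by
      rw [mul_pow, pow_add, pow_add]; ring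
    rw [h2]
    have h3 : (5 * Real.exp (-(25 / 8))) ^ (m + n) ≤ (1 / 4) ^ (m + n) := by
      gcongr
    have h4 : ((1 : ℝ) / 4) ^ (m + n) ≤ (1 / 4) ^ 1 := by
      apply pow_le_pow_of_le_one (by norm_num) (by norm_num) (by omega)
    linarith
  have hcast : (s.card : ENNReal) * (s'.card * ENNReal.ofReal (2 * Real.exp (- t ^ 2 / 2))) ≤
      ENNReal.ofReal (((5 : ℝ) ^ m) * (5 ^ n * (2 * Real.exp (- t ^ 2 / 2)))) := by
    generalize 2 * Real.exp (- t ^ 2 / 2) = E
    rw [ENNReal.ofReal_mul (by positivity), ENNReal.ofReal_mul (by positivity)]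
    have e1 : (s.card : ENNReal) ≤ ENNReal.ofReal ((5 : ℝ) ^ m) := by
      rw [← ENNReal.ofReal_natCast]
      apply ENNReal.ofReal_le_ofReal
      exact_mod_cast hs
    have e2 : (s'.card : ENNReal) ≤ ENNReal.ofReal ((5 : ℝ) ^ n) := by
      rw [← ENNReal.ofReal_natCast]
      apply ENNReal.ofReal_le_ofReal
      exact_mod_cast hs'
    gcongr
  refine hcast.trans ?_
  refine (ENNReal.ofReal_le_ofReal hfin).trans ?_
  rw [ENNReal.ofReal_div_of_pos (by norm_num)]
  simp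

end Pool.Agent.JohnsonSp
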