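import Pool.Agent.JohnsonSp.ProbEvent

set_option autoImplicit false
open Filter Topology MeasureTheory ProbabilityTheory

namespace Pool.Agent.JohnsonSp

instance gm_isProbabilityMeasure (m n : ℕ) : IsProbabilityMeasure (gm m n) := by
  unfold gm
  infer_instance

lemma beta_le (K δ η D : ℝ) (A m r k : ℕ) (hK : 1 ≤ K) (hδ : 0 < δ) (hη : 0 < η) (hD : 0 < D)
    (hA : 1 ≤ A) (hm : 1 ≤ m) (hk : k = A * m) (hr : δ * m / 2 ≤ r) :
    Real.sqrt (Real.exp 1) * (53 * K * Real.sqrt k / D) / (η * Real.sqrt r) ≤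
      (124 * K * Real.sqrt (A / δ) / η) / D := by
  have hmr : (1 : ℝ) ≤ m := by exact_mod_cast hm
  have hAr : (1 : ℝ) ≤ A := by exact_mod_cast hA
  have hr0 : 0 < (r : ℝ) := lt_of_lt_of_le (by positivity) hr
  have hkr : (k : ℝ) = A * m := by rw [hk]; push_cast; ring
  have h1 : Real.sqrt (Real.exp 1) * 53 * Real.sqrt k ≤ 124 * Real.sqrt (A / δ) * Real.sqrt r := by
    have e1 : Real.sqrt (Real.exp 1) * 53 * Real.sqrt k =
        Real.sqrt (Real.exp 1 * 2809 * k) := by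
      rw [Real.sqrt_mul (by positivity), Real.sqrt_mul (by positivity)]
      congr 2
      rw [show (2809 : ℝ) = 53 ^ 2 by norm_num, Real.sqrt_sq (by norm_num)]
    have e2 : 124 * Real.sqrt (A / δ) * Real.sqrt r = Real.sqrt (15376 * (A / δ) * r) := by
      rw [Real.sqrt_mul (by positivity), Real.sqrt_mul (by positivity)]
      congr 2
      rw [show (15376 : ℝ) = 124 ^ 2 by norm_num, Real.sqrt_sq (by norm_num)]
    rw [e1, e2]
    apply Real.sqrt_le_sqrt
    have h2 : (k : ℝ) ≤ 2 * (A / δ) * r := by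
      rw [hkr]
      have h3 : (m : ℝ) ≤ 2 / δ * r := by
        have := mul_le_mul_of_nonneg_left hr (show (0 : ℝ) ≤ 2 / δ by positivity)
        have e : 2 / δ * (δ * m / 2) = m := by field_simp
        linarith
      calc (A : ℝ) * m ≤ A * (2 / δ * r) := mul_le_mul_of_nonneg_left h3 (by linarith)
        _ = 2 * (A / δ) * r := by ring
    have h4 : Real.exp 1 ≤ 2.7182818286 := Real.exp_one_lt_d9.le
    calc Real.exp 1 * 2809 * k ≤ Real.exp 1 * 2809 * (2 * (A / δ) * r) :=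
          mul_le_mul_of_nonneg_left h2 (by positivity)
      _ = (Real.exp 1 * 5618) * ((A / δ) * r) := by ring
      _ ≤ 15376 * ((A / δ) * r) := by
        apply mul_le_mul_of_nonneg_right _ (by positivity)
        linarith
      _ = 15376 * (A / δ) * r := by ring
  rw [div_div, div_le_div_iff₀ (by positivity) (by positivity)]
  have h2 : Real.sqrt (Real.exp 1) * (53 * K * Real.sqrt k / D) * (η * D) =
      (K * η) * (Real.sqrt (Real.exp 1) * 53 * Real.sqrt k) := by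
    field_simp
  have h3 : 124 * K * Real.sqrt (A / δ) * (η * Real.sqrt r) =
      (K * η) * (124 * Real.sqrt (A / δ) * Real.sqrt r) := by ring
  rw [h2, h3]
  exact mul_le_mul_of_nonneg_left h1 (by positivity)

lemma card_beta (W B1 D x β : ℝ) (r k t w : ℕ) (hW : W = 2 ^ w) (hB1 : 0 ≤ B1) (hD : 1 ≤ D)
    (hD2 : 3 * (W * B1) ^ 4 ≤ D) (hkw : k ≤ w * r) (ht : 4 * t ≤ r)
    (hx : x ≤ 2 ^ k * (3 * D) ^ t) (hβ0 : 0 ≤ β) (hβ : β ≤ B1 / D) :
    x * β ^ r ≤ (1 / Real.sqrt D) ^ r := by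
  obtain ⟨u, hu0, hu⟩ : ∃ u : ℝ, 0 ≤ u ∧ u ^ 4 = 3 * D := by
    refine ⟨Real.sqrt (Real.sqrt (3 * D)), Real.sqrt_nonneg _, ?_⟩
    rw [show (4 : ℕ) = 2 * 2 by norm_num, pow_mul, Real.sq_sqrt (Real.sqrt_nonneg _),
      Real.sq_sqrt (by positivity)]
  have hu1 : 1 ≤ u := by
    by_contra hc
    push Not at hc
    have : u ^ 4 < 1 := pow_lt_one₀ hu0 hc (by norm_num)
    linarith
  have hW0 : 0 ≤ W := by rw [hW]; positivity
  have hW1 : (2 : ℝ) ^ k ≤ W ^ r := by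
    rw [hW, ← pow_mul]
    exact pow_le_pow_right₀ (by norm_num) hkw
  have hut : (3 * D) ^ t ≤ u ^ r := by
    rw [← hu, ← pow_mul]
    exact pow_le_pow_right₀ hu1 ht
  have h1 : x * β ^ r ≤ (W * u * (B1 / D)) ^ r := by
    rw [mul_pow, mul_pow]
    apply mul_le_mul
    · exact hx.trans (mul_le_mul hW1 hut (by positivity) (by positivity))
    · exact pow_le_pow_left₀ hβ0 hβ r
    · positivity
    · positivity
  refine h1.trans ?_
  apply pow_le_pow_left₀ (by positivity)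
  have hsD : 0 < Real.sqrt D := Real.sqrt_pos.mpr (by linarith)
  have h2 : W * u * B1 ≤ Real.sqrt D := by
    have h3 : (W * u * B1) ^ 4 ≤ (Real.sqrt D) ^ 4 := by
      have e1 : (W * u * B1) ^ 4 = D * (3 * (W * B1) ^ 4) := by
        rw [mul_pow, mul_pow, hu]
        ring
      have e2 : (Real.sqrt D) ^ 4 = D * D := by
        rw [show (4 : ℕ) = 2 * 2 by norm_num, pow_mul, Real.sq_sqrt (by linarith)]
        ring
      rw [e1, e2]
      exact mul_le_mul_of_nonneg_left hD2 (by linarith)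
    exact (pow_le_pow_iff_left₀ (by positivity) hsD.le (by norm_num)).mp h3
  rw [← mul_div_assoc, div_le_div_iff₀ (by linarith) hsD, one_mul]
  calc W * u * B1 * Real.sqrt D ≤ Real.sqrt D * Real.sqrt D :=
        mul_le_mul_of_nonneg_right h2 hsD.le
    _ = D := Real.mul_self_sqrt (by linarith)

lemma total_bound (K D : ℝ) (A m n r N0 : ℕ) (x : ℝ) (hK : 1 ≤ K) (hm : 1 ≤ m)
    (hn : n ≤ A * m) (hD1 : 23 * K ≤ D) (hD2 : (2 : ℝ) ^ A ≤ D) (hD3 : 4 ≤ D)
    (hx : x ≤ (1 + 22 * K * D) ^ (m * m)) (hrN : 8 * (m * m) ≤ r * N0) :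
    x * 2 ^ n * ((1 / Real.sqrt D) ^ r) ^ N0 ≤ 1 / 4 := by
  have hD0 : 0 < D := by linarith
  have hsD1 : 1 ≤ Real.sqrt D := by
    rw [show (1 : ℝ) = Real.sqrt 1 by simp]
    exact Real.sqrt_le_sqrt (by linarith)
  have h1 : x ≤ (D ^ 2) ^ (m * m) := by
    refine hx.trans (pow_le_pow_left₀ (by positivity) ?_ _)
    nlinarith [mul_le_mul_of_nonneg_right hD1 hD0.le, mul_le_mul hK (show 1 ≤ D by linarith)
      (by norm_num) (by linarith)]
  have h2 : (2 : ℝ) ^ n ≤ D ^ (m * m) := by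
    calc (2 : ℝ) ^ n ≤ 2 ^ (A * m) := pow_le_pow_right₀ (by norm_num) hn
      _ = (2 ^ A) ^ m := by rw [pow_mul]
      _ ≤ D ^ m := pow_le_pow_left₀ (by positivity) hD2 _
      _ ≤ D ^ (m * m) := pow_le_pow_right₀ (by linarith) (Nat.le_mul_of_pos_left m hm)
  have h3 : ((1 / Real.sqrt D) ^ r) ^ N0 ≤ (1 / D) ^ (4 * (m * m)) := by
    rw [← pow_mul]
    calc (1 / Real.sqrt D) ^ (r * N0) ≤ (1 / Real.sqrt D) ^ (8 * (m * m)) := by
          apply pow_le_pow_of_le_one (by positivity) _ hrN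
          rw [div_le_one (by linarith)]
          exact hsD1
      _ = ((1 / Real.sqrt D) ^ 2) ^ (4 * (m * m)) := by
        rw [← pow_mul]
        congr 1
        ring
      _ = (1 / D) ^ (4 * (m * m)) := by
        rw [div_pow, Real.sq_sqrt hD0.le, one_pow]
  have h4 : x * 2 ^ n * ((1 / Real.sqrt D) ^ r) ^ N0 ≤
      (D ^ 2) ^ (m * m) * D ^ (m * m) * (1 / D) ^ (4 * (m * m)) := by
    apply mul_le_mul _ h3 (by positivity) (by positivity)
    exact mul_le_mul h1 h2 (by positivity) (by positivity)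
  refine h4.trans ?_
  have h5 : (D ^ 2) ^ (m * m) * D ^ (m * m) * (1 / D) ^ (4 * (m * m)) = (1 / D) ^ (m * m) := by
    rw [← pow_mul, ← pow_add, show 4 * (m * m) = (2 * (m * m) + m * m) + m * m by ring,
      pow_add (1 / D), ← mul_assoc, ← mul_pow, mul_one_div_cancel hD0.ne', one_pow, one_mul]
  rw [h5]
  have h6 : 1 / D ≤ 1 / 4 := one_div_le_one_div_of_le (by norm_num) hD3
  have hmm : 1 ≤ m * m := Nat.mul_pos hm hm
  calc (1 / D) ^ (m * m) ≤ (1 / D) ^ 1 := by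
        apply pow_le_pow_of_le_one (by positivity) (by linarith) hmm
    _ = 1 / D := pow_one _
    _ ≤ 1 / 4 := h6

lemma ratio_bound (M a D k t : ℝ) (j : ℕ) (hj : 1 ≤ j) (hM : 0 ≤ M) (ha : 0 ≤ a)
    (hk : M ^ j ≤ k) (hka : k ^ a = D) (hDj : D ≤ 2 ^ j) (ht : k / t ≤ M) (ht0 : 0 ≤ k / t) :
    (k / t) ^ a ≤ 2 := by
  have h1 : (k / t) ^ a ≤ M ^ a := Real.rpow_le_rpow ht0 ht ha
  refine h1.trans ?_
  have h2 : (M ^ a) ^ j ≤ 2 ^ j := by
    rw [← Real.rpow_mul_natCast hM, mul_comm a (j : ℝ), Real.rpow_natCast_mul hM]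
    exact (Real.rpow_le_rpow (by positivity) hk ha).trans (hka.le.trans hDj)
  exact (pow_le_pow_iff_left₀ (Real.rpow_nonneg hM a) (by norm_num) (by omega)).mp h2

theorem Prob_of (hDual : Stmt_Dual) (hNet : Stmt_NetHS) (hCover : Stmt_Cover)
    (hOp : Stmt_OpNorm) (hBall : Stmt_Ball) : Stmt_Prob := by
  intro K δ η hK hδ0 hδ1 hη
  obtain ⟨A, hA2, hA64⟩ : ∃ A : ℕ, 2 ≤ A ∧ 64 / δ ≤ A :=
    ⟨max 2 ⌈64 / δ⌉₊, le_max_left _ _, (Nat.le_ceil _).trans (by
      exact_mod_cast le_max_right 2 ⌈64 / δ⌉₊)⟩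
  refine ⟨A, hA2, ?_⟩
  obtain ⟨w, hw⟩ : ∃ w : ℕ, w = ⌈2 * (A : ℝ) / δ⌉₊ := ⟨_, rfl⟩
  obtain ⟨W, hW⟩ : ∃ W : ℝ, W = 2 ^ w := ⟨_, rfl⟩
  obtain ⟨B1, hB1⟩ : ∃ B1 : ℝ, B1 = 124 * K * Real.sqrt (A / δ) / η := ⟨_, rfl⟩
  have hB10 : 0 ≤ B1 := by rw [hB1]; positivity
  have hA2r : (2 : ℝ) ≤ A := by exact_mod_cast hA2
  refine ⟨23 * K + 2 ^ A + 4 + 3 * (W * B1) ^ 4, ?_, ?_⟩
  · have : (0 : ℝ) ≤ 3 * (W * B1) ^ 4 := by positivity
    have h2 : (0 : ℝ) < 2 ^ A := by positivity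
    linarith
  intro D hD
  have hW4 : (0 : ℝ) ≤ 3 * (W * B1) ^ 4 := by positivity
  have h2A : (0 : ℝ) < 2 ^ A := by positivity
  have hD23 : 23 * K ≤ D := by linarith
  have hD2A : (2 : ℝ) ^ A ≤ D := by linarith
  have hD4 : 4 ≤ D := by linarith
  have hDW : 3 * (W * B1) ^ 4 ≤ D := by linarith
  have hD0 : 0 < D := by linarith
  obtain ⟨j, hj1, hjD⟩ : ∃ j : ℕ, 1 ≤ j ∧ D ≤ 2 ^ j := by
    obtain ⟨j, hj⟩ := pow_unbounded_of_one_lt D (show (1 : ℝ) < 2 by norm_num)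
    exact ⟨j + 1, by omega, hj.le.trans (pow_le_pow_right₀ (by norm_num) (by omega))⟩
  refine ⟨⌈(16 * (A : ℝ) / δ) ^ j⌉₊ + ⌈8 / δ⌉₊ + 1, ?_⟩
  intro m hm q hq2 hq4 hkD
  have hm1 : 1 ≤ m := by omega
  have hmr : (1 : ℝ) ≤ m := by exact_mod_cast hm1
  have hmM : (16 * (A : ℝ) / δ) ^ j ≤ m :=
    (Nat.le_ceil _).trans (Nat.cast_le.mpr (by omega))
  have hm8 : 8 / δ ≤ m :=
    (Nat.le_ceil _).trans (Nat.cast_le.mpr (by omega))
  have hδm : 8 ≤ δ * m := by
    have := mul_le_mul_of_nonneg_left hm8 hδ0.le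
    have e : δ * (8 / δ) = 8 := by field_simp
    linarith
  obtain ⟨r, hr⟩ : ∃ r : ℕ, r = ⌊δ * m⌋₊ := ⟨_, rfl⟩
  have hrle : (r : ℝ) ≤ δ * m := by rw [hr]; exact Nat.floor_le (by positivity)
  have hrlt : δ * m < (r : ℝ) + 1 := by rw [hr]; exact Nat.lt_floor_add_one _
  have hr2 : δ * m / 2 ≤ r := by linarith
  have hr7 : (7 : ℝ) < (r : ℝ) := by linarith
  have hr8 : 8 ≤ r := by exact_mod_cast hr7
  obtain ⟨t, ht⟩ : ∃ t : ℕ, t = r / 4 := ⟨_, rfl⟩
  have ht1 : 1 ≤ t := by omega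
  have ht4 : 4 * t ≤ r := by omega
  have ht8 : r ≤ 8 * t := by omega
  obtain ⟨n, hn⟩ : ∃ n : ℕ, n = (A - 1) * m := ⟨_, rfl⟩
  have hmn : A * m = m + n := by
    rw [hn]
    obtain ⟨B, rfl⟩ : ∃ B, A = B + 1 := ⟨A - 1, by omega⟩
    simp
    ring
  have hmn1 : m ≤ n := by
    rw [hn]
    exact Nat.le_mul_of_pos_left m (by omega)
  rw [← hr]
  have hAm : ((A * m : ℕ) : ℝ) = (A : ℝ) * m := by push_cast; ring
  -- the cardinal `A * m` is `m + n`
  suffices hsuff : ∃ g : Fin (m + n) → Eu m, Cols g ∧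
      ¬ ∃ S : Eu m →ₗ[ℝ] Eu m, Tri r η S ∧ BadS K q g S by
    rw [hmn]
    exact hsuff
  have hkD' : ((m + n : ℕ) : ℝ) ^ (1 / 2 - 1 / q) = D := by rw [← hmn]; exact hkD
  have hkr : ((m + n : ℕ) : ℝ) = (A : ℝ) * m := by rw [← hmn]; exact hAm
  have hkr2 : ((m : ℝ) + n) = (A : ℝ) * m := by rw [← hkr]; push_cast; ring
  have ha : 0 ≤ 1 / 2 - 1 / q := by
    have : 1 / q ≤ 1 / 2 := one_div_le_one_div_of_le (by norm_num) hq2.le
    linarith
  have hqq : 1 / q + 1 / (1 / (1 - 1 / q)) = 1 := by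
    rw [one_div_one_div]
    ring
  have htr : (t : ℝ) ≥ δ * m / 16 := by
    have : (r : ℝ) ≤ 8 * t := by exact_mod_cast ht8
    linarith
  have ht0 : (0 : ℝ) < t := by
    have : 0 < δ * m / 16 := by positivity
    linarith
  have hratio : (((m + n : ℕ) : ℝ) / t) ^ (1 / 2 - 1 / q) ≤ 2 := by
    apply ratio_bound (16 * (A : ℝ) / δ) _ D _ _ j hj1 (by positivity) ha _ hkD' hjD
    · rw [div_le_iff₀ ht0, hkr]
      calc (A : ℝ) * m = 16 * A / δ * (δ * m / 16) := by field_simp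
        _ ≤ 16 * A / δ * t := mul_le_mul_of_nonneg_left htr (by positivity)
    · positivity
    · refine hmM.trans ?_
      push_cast
      linarith [Nat.cast_nonneg (α := ℝ) n]
  have htk : t ≤ m + n := by
    have h1 : (t : ℝ) ≤ m := by
      have h2 : 4 * (t : ℝ) ≤ r := by exact_mod_cast ht4
      have h3 : δ * m ≤ 1 * m := mul_le_mul_of_nonneg_right (by linarith) (by linarith)
      linarith
    have h2 : t ≤ m := by exact_mod_cast h1
    omega
  obtain ⟨Nc, hNc1, hNc2⟩ := hCover (m + n) t q (1 / (1 - 1 / q)) D ht1 htk hq2.le hqq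
    (by linarith) hkD' hratio
  have hsm : 0 < Real.sqrt (m : ℝ) := Real.sqrt_pos.mpr (by linarith)
  obtain ⟨s, hsA, hsc, hsn⟩ := hNet m {S | Tri r η S ∧ hs S ≤ (11 * K) ^ 2 * m}
    (11 * K * Real.sqrt m) (Real.sqrt m / D) (by positivity) (by positivity)
    (by
      rintro S ⟨_, hS⟩
      rw [mul_pow, Real.sq_sqrt (by positivity)]
      exact hS)
  have hscard : (s.card : ℝ) ≤ (1 + 22 * K * D) ^ (m * m) := by
    refine hsc.trans (le_of_eq ?_)
    congr 1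
    field_simp
    ring
  -- the bad event
  have hbadm : gm m n {G | ∃ S' ∈ s, ∃ I : Finset (Fin n), (n : ℝ) / 2 ≤ (I.card : ℝ) ∧
      ∃ c ∈ Fintype.piFinset (fun i => if i ∈ I then Nc else {0}),
        G ∈ Ev K (53 * K * Real.sqrt (m + n) / D) S' I c} ≤ ENNReal.ofReal (1 / 4) := by
    refine (union_bound hBall K η (53 * K * Real.sqrt (m + n) / D) r (by omega) hη
      (by positivity) s (fun S hS => (hsA hS).1) Nc ((1 / Real.sqrt D) ^ r) (by positivity) ?_ ?_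
      ((n + 1) / 2) ?_).trans ?_
    · apply pow_le_one₀ (by positivity)
      rw [div_le_one (by positivity)]
      rw [show (1 : ℝ) = Real.sqrt 1 by simp]
      exact Real.sqrt_le_sqrt (by linarith)
    · refine card_beta W B1 D (Nc.card : ℝ) _ r (m + n) t w hW hB10 (by linarith) hDW ?_ ht4
        hNc1 (by positivity) ?_
      · have h1 : ((m + n : ℕ) : ℝ) ≤ (w : ℝ) * r := by
          rw [hkr]
          have h2 : 2 * (A : ℝ) / δ ≤ w := by rw [hw]; exact Nat.le_ceil _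
          calc (A : ℝ) * m = 2 * A / δ * (δ * m / 2) := by field_simp
            _ ≤ w * r := mul_le_mul h2 hr2 (by positivity) (by positivity)
        exact_mod_cast h1
      · rw [hB1]
        have hb := beta_le K δ η D A m r (m + n) hK hδ0 hη hD0 (by omega) hm1 hmn.symm hr2
        push_cast at hb
        exact hb
    · intro j' hj'
      have h1 : (n : ℝ) ≤ 2 * j' := by linarith
      have h2 : n ≤ 2 * j' := by exact_mod_cast h1
      omega
    · apply ENNReal.ofReal_le_ofReal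
      refine total_bound K D A m n r ((n + 1) / 2) (s.card : ℝ) hK hm1 (by omega) hD23 hD2A hD4
        hscard ?_
      have h1 : (n : ℝ) / 2 ≤ (((n + 1) / 2 : ℕ) : ℝ) := by
        have h2 : n ≤ 2 * ((n + 1) / 2) := by omega
        have h3 : (n : ℝ) ≤ 2 * (((n + 1) / 2 : ℕ) : ℝ) := by exact_mod_cast h2
        linarith
      have h2 : (A : ℝ) * m / 2 ≤ n := by
        have : (m : ℝ) ≤ n := by exact_mod_cast hmn1
        linarith
      have h3 : 8 * ((m : ℝ) * m) ≤ (r : ℝ) * (((n + 1) / 2 : ℕ) : ℝ) := by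
        have h4 : (δ * m / 2) * ((A : ℝ) * m / 4) ≤ (r : ℝ) * (((n + 1) / 2 : ℕ) : ℝ) :=
          mul_le_mul hr2 (by linarith) (by positivity) (by positivity)
        have h5 : 64 ≤ δ * A := by
          have := mul_le_mul_of_nonneg_left hA64 hδ0.le
          have e : δ * (64 / δ) = 64 := by field_simp
          linarith
        have h6 : 64 * ((m : ℝ) * m) ≤ δ * A * ((m : ℝ) * m) :=
          mul_le_mul_of_nonneg_right h5 (by positivity)
        have h7 : (δ * m / 2) * ((A : ℝ) * m / 4) = δ * A * ((m : ℝ) * m) / 8 := by ring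
        linarith
      exact_mod_cast h3
  -- choice of a good matrix
  have hgood : ∃ G : Fin n → Eu m, OpB G (10 * Real.sqrt (m + n)) ∧
      ¬ ∃ S : Eu m →ₗ[ℝ] Eu m, Tri r η S ∧ BadS K q (colsG G) S := by
    by_contra hcon
    push Not at hcon
    have huniv : (Set.univ : Set (Fin n → Eu m)) ⊆
        {G | ¬ OpB G (10 * Real.sqrt (m + n))} ∪
        {G | ∃ S' ∈ s, ∃ I : Finset (Fin n), (n : ℝ) / 2 ≤ (I.card : ℝ) ∧
          ∃ c ∈ Fintype.piFinset (fun i => if i ∈ I then Nc else {0}),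
          G ∈ Ev K (53 * K * Real.sqrt (m + n) / D) S' I c} := by
      intro G _
      by_cases hG : OpB G (10 * Real.sqrt (m + n))
      · right
        exact bad_subset hDual K q (1 / (1 - 1 / q)) D η r hm1 hK hq2.le hqq hD0 hmn1 s
          (fun S h1 h2 => hsn S ⟨h1, h2⟩) Nc hNc2 G hG (hcon G hG)
      · left
        exact hG
    have h1 : (1 : ENNReal) ≤ 1 / 2 + ENNReal.ofReal (1 / 4) := by
      calc (1 : ENNReal) = gm m n Set.univ := measure_univ.symm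
        _ ≤ _ := measure_mono huniv
        _ ≤ _ := measure_union_le _ _
        _ ≤ 1 / 2 + ENNReal.ofReal (1 / 4) := add_le_add (hOp m n hm1 (by omega)) hbadm
    have h2 : (1 / 2 + ENNReal.ofReal (1 / 4) : ENNReal) = ENNReal.ofReal (3 / 4) := by
      have : (1 / 2 : ENNReal) = ENNReal.ofReal (1 / 2) := by
        rw [ENNReal.ofReal_div_of_pos (by norm_num)]
        simp
      rw [this, ← ENNReal.ofReal_add (by norm_num) (by norm_num)]
      norm_num
    rw [h2] at h1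
    have h3 : (1 : ENNReal) = ENNReal.ofReal 1 := by simp
    rw [h3, ENNReal.ofReal_le_ofReal_iff (by norm_num)] at h1
    norm_num at h1
  obtain ⟨G, hG1, hG2⟩ := hgood
  exact ⟨colsG G, cols_colsG G hG1, hG2⟩

end Pool.Agent.JohnsonSp
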