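import Pool.Agent.JohnsonSp.ProbLin

set_option autoImplicit false
open Filter Topology MeasureTheory ProbabilityTheory

namespace Pool.Agent.JohnsonSp

/-- The deterministic part. -/
noncomputable def zvec {m n : ℕ} (K : ℝ) (c : Fin (m + n) → ℝ) : Eu m :=
  ∑ j : Fin m, (K * c (Fin.castAdd n j)) • Real.sqrt ((m + n : ℕ) : ℝ) •
    EuclideanSpace.single j (1 : ℝ)

lemma smul_sum_colsG {m n : ℕ} (K : ℝ) (c : Fin (m + n) → ℝ) (G : Fin n → Eu m) :
    K • ∑ j, c j • colsG G j = (∑ j, (K * c (Fin.natAdd m j)) • G j) + zvec K c := by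
  rw [Fin.sum_univ_add, smul_add, Finset.smul_sum, Finset.smul_sum, zvec, add_comm]
  congr 1
  · refine Finset.sum_congr rfl fun j _ => ?_
    rw [colsG_right, smul_smul]
  · refine Finset.sum_congr rfl fun j _ => ?_
    rw [colsG_left, smul_smul]

/-- The event attached to an operator, a set of indices and a matrix of coefficients. -/
def Ev {m n : ℕ} (K ρ : ℝ) (S : Eu m →ₗ[ℝ] Eu m) (I : Finset (Fin n))
    (c : Fin n → Fin (m + n) → ℝ) : Set (Fin n → Eu m) :=
  {G | ∀ i ∈ I, ‖S (G i) - (∑ j, (K * c i (Fin.natAdd m j)) • G j) - zvec K (c i)‖ ≤ ρ}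

lemma bad_subset (hDual : Stmt_Dual) {m n : ℕ} (K q q' D η : ℝ) (r : ℕ) (hm : 1 ≤ m)
    (hK : 1 ≤ K) (hq : 2 ≤ q) (hqq : 1 / q + 1 / q' = 1) (hD : 0 < D) (hmn : m ≤ n)
    (s : Finset (Eu m →ₗ[ℝ] Eu m))
    (hs1 : ∀ S : Eu m →ₗ[ℝ] Eu m, Tri r η S → hs S ≤ (11 * K) ^ 2 * m →
      ∃ S' ∈ s, hs (S - S') ≤ (Real.sqrt m / D) ^ 2)
    (Nc : Finset (Fin (m + n) → ℝ))
    (hNc : ∀ c : Fin (m + n) → ℝ, (∑ i, |c i| ^ q') ≤ 1 →
      ∃ c' ∈ Nc, Real.sqrt (∑ i, (c i - c' i) ^ 2) ≤ 3 / D)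
    (G : Fin n → Eu m) (hG : OpB G (10 * Real.sqrt (m + n)))
    (hbad : ∃ S : Eu m →ₗ[ℝ] Eu m, Tri r η S ∧ BadS K q (colsG G) S) :
    ∃ S' ∈ s, ∃ I : Finset (Fin n), (n : ℝ) / 2 ≤ (I.card : ℝ) ∧
      ∃ c ∈ Fintype.piFinset (fun i => if i ∈ I then Nc else {0}),
        G ∈ Ev K (53 * K * Real.sqrt (m + n) / D) S' I c := by
  classical
  obtain ⟨S, hTri, hS1, hS2⟩ := hbad
  obtain ⟨S', hS', hSS⟩ := hs1 S hTri hS1
  have hcols := cols_colsG G hG
  have hk : ((m + n : ℕ) : ℝ) = (m : ℝ) + n := by push_cast; ring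
  have hm1 : (1 : ℝ) ≤ m := by exact_mod_cast hm
  have hmn' : (m : ℝ) ≤ n := by exact_mod_cast hmn
  have hn1 : (1 : ℝ) ≤ n := hm1.trans hmn'
  have hc : ∀ i : Fin n, ∃ c' ∈ Nc,
      ‖S (G i) - K • ∑ j, c' j • colsG G j‖ ≤ 33 * K * Real.sqrt (m + n) / D := by
    intro i
    obtain ⟨c, hc1, hc2⟩ := hDual m (m + n) q q' K (colsG G) (S (G i)) hq hqq (by linarith)
      (fun x => by
        have := hS2 (Fin.natAdd m i) x
        rwa [colsG_right] at this)
    obtain ⟨c', hc', hcc⟩ := hNc c hc1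
    refine ⟨c', hc', ?_⟩
    rw [hc2, ← smul_sub, ← Finset.sum_sub_distrib]
    simp only [← sub_smul]
    rw [norm_smul, Real.norm_eq_abs, abs_of_nonneg (by linarith : (0 : ℝ) ≤ K)]
    have h1 := hcols.2 (fun j => c j - c' j)
    rw [hk] at h1
    calc K * ‖∑ j, (c j - c' j) • colsG G j‖ ≤
          K * (11 * Real.sqrt (m + n) * Real.sqrt (∑ j, (c j - c' j) ^ 2)) :=
        mul_le_mul_of_nonneg_left h1 (by linarith)
      _ ≤ K * (11 * Real.sqrt (m + n) * (3 / D)) := by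
        apply mul_le_mul_of_nonneg_left _ (by linarith)
        exact mul_le_mul_of_nonneg_left hcc (by positivity)
      _ = 33 * K * Real.sqrt (m + n) / D := by ring
  choose c hcN hcn using hc
  set I : Finset (Fin n) :=
    Finset.univ.filter fun i : Fin n => ‖(S - S') (G i)‖ ≤ 20 * Real.sqrt m / D with hI
  refine ⟨S', hS', I, ?_, fun i => if i ∈ I then c i else 0, ?_, ?_⟩
  · exact half_card G (S - S') ((m : ℝ) + n) D (by linarith) (by linarith) hD hm hG hSS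
  · rw [Fintype.mem_piFinset]
    intro i
    by_cases hi : i ∈ I
    · simp only [hi, if_true]
      exact hcN i
    · simp [hi]
  · intro i hi
    have h1 : ‖(S - S') (G i)‖ ≤ 20 * Real.sqrt m / D := (Finset.mem_filter.mp hi).2
    have h2 := hcn i
    simp only [hi, if_true]
    have e : S' (G i) - (∑ j, (K * c i (Fin.natAdd m j)) • G j) - zvec K (c i) =
        (S (G i) - K • ∑ j, c i j • colsG G j) - (S - S') (G i) := by
      rw [smul_sum_colsG, LinearMap.sub_apply]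
      abel
    rw [e]
    refine (norm_sub_le _ _).trans ((add_le_add h2 h1).trans ?_)
    have h3 : 20 * Real.sqrt m / D ≤ 20 * K * Real.sqrt (m + n) / D := by
      apply div_le_div_of_nonneg_right _ hD.le
      have h4 : Real.sqrt m ≤ Real.sqrt (m + n) := Real.sqrt_le_sqrt (by linarith)
      have h5 : Real.sqrt m ≤ K * Real.sqrt (m + n) := by
        have h6 : 0 ≤ Real.sqrt ((m : ℝ) + n) := Real.sqrt_nonneg _
        nlinarith
      linarith
    calc 33 * K * Real.sqrt (m + n) / D + 20 * Real.sqrt m / D ≤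
          33 * K * Real.sqrt (m + n) / D + 20 * K * Real.sqrt (m + n) / D := by linarith
      _ = 53 * K * Real.sqrt (m + n) / D := by ring

lemma card_piF {n : ℕ} {α : Type} [DecidableEq α] [Zero α] (Nc : Finset α) (I : Finset (Fin n)) :
    (Fintype.piFinset (fun i : Fin n => if i ∈ I then Nc else {0})).card = Nc.card ^ I.card := by
  classical
  rw [Fintype.card_piFinset]
  have : ∀ i : Fin n, (if i ∈ I then Nc else {0}).card = if i ∈ I then Nc.card else 1 := by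
    intro i
    split_ifs <;> simp
  simp only [this]
  rw [Finset.prod_ite]
  simp

lemma union_bound (hBall : Stmt_Ball) {m n : ℕ} (K η ρ : ℝ) (r : ℕ) (hr : 1 ≤ r) (hη : 0 < η)
    (hρ : 0 < ρ) (s : Finset (Eu m →ₗ[ℝ] Eu m)) (hs1 : ∀ S ∈ s, Tri r η S)
    (Nc : Finset (Fin (m + n) → ℝ)) (y : ℝ) (hy0 : 0 ≤ y) (hy1 : y ≤ 1)
    (hy : (Nc.card : ℝ) * (Real.sqrt (Real.exp 1) * ρ / (η * Real.sqrt r)) ^ r ≤ y) (N0 : ℕ)
    (hN0 : ∀ j : ℕ, (n : ℝ) / 2 ≤ j → N0 ≤ j) :
    gm m n {G | ∃ S' ∈ s, ∃ I : Finset (Fin n), (n : ℝ) / 2 ≤ (I.card : ℝ) ∧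
      ∃ c ∈ Fintype.piFinset (fun i => if i ∈ I then Nc else {0}), G ∈ Ev K ρ S' I c} ≤
      ENNReal.ofReal (s.card * 2 ^ n * y ^ N0) := by
  classical
  set β : ℝ := Real.sqrt (Real.exp 1) * ρ / (η * Real.sqrt r) with hβ
  have hβ0 : 0 ≤ β := by positivity
  have hsub : {G | ∃ S' ∈ s, ∃ I : Finset (Fin n), (n : ℝ) / 2 ≤ (I.card : ℝ) ∧
      ∃ c ∈ Fintype.piFinset (fun i => if i ∈ I then Nc else {0}), G ∈ Ev K ρ S' I c} ⊆
      ⋃ S' ∈ s, ⋃ I ∈ (Finset.univ : Finset (Finset (Fin n))).filter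
        (fun I => (n : ℝ) / 2 ≤ (I.card : ℝ)),
        ⋃ c ∈ Fintype.piFinset (fun i => if i ∈ I then Nc else {0}), Ev K ρ S' I c := by
    rintro G ⟨S', hS', I, hI, c, hc, hG⟩
    simp only [Set.mem_iUnion]
    exact ⟨S', hS', I, by simpa using hI, c, hc, hG⟩
  refine (measure_mono hsub).trans ?_
  refine (measure_biUnion_finset_le _ _).trans ?_
  have hinner : ∀ S' ∈ s, gm m n (⋃ I ∈ (Finset.univ : Finset (Finset (Fin n))).filter
        (fun I => (n : ℝ) / 2 ≤ (I.card : ℝ)),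
        ⋃ c ∈ Fintype.piFinset (fun i => if i ∈ I then Nc else {0}), Ev K ρ S' I c) ≤
        ENNReal.ofReal (2 ^ n * y ^ N0) := by
    intro S' hS'
    refine (measure_biUnion_finset_le _ _).trans ?_
    have hI : ∀ I ∈ (Finset.univ : Finset (Finset (Fin n))).filter
        (fun I => (n : ℝ) / 2 ≤ (I.card : ℝ)),
        gm m n (⋃ c ∈ Fintype.piFinset (fun i => if i ∈ I then Nc else {0}), Ev K ρ S' I c) ≤
        ENNReal.ofReal (y ^ N0) := by
      intro I hI
      have hI' : (n : ℝ) / 2 ≤ (I.card : ℝ) := (Finset.mem_filter.mp hI).2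
      refine (measure_biUnion_finset_le _ _).trans ?_
      have hc : ∀ c ∈ Fintype.piFinset (fun i => if i ∈ I then Nc else {0}),
          gm m n (Ev K ρ S' I c) ≤ ENNReal.ofReal (β ^ (r * I.card)) := by
        intro c _
        exact hBall m n r η ρ S' I (fun i j => K * c i (Fin.natAdd m j))
          (fun i => zvec K (c i)) hr hη hρ (hs1 S' hS')
      refine (Finset.sum_le_sum hc).trans ?_
      rw [Finset.sum_const, nsmul_eq_mul, card_piF]
      have e : ((Nc.card ^ I.card : ℕ) : ENNReal) * ENNReal.ofReal (β ^ (r * I.card)) =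
          ENNReal.ofReal (((Nc.card : ℝ) * β ^ r) ^ I.card) := by
        rw [mul_pow, ← pow_mul, ENNReal.ofReal_mul (by positivity)]
        congr 1
        rw [← Nat.cast_pow, ENNReal.ofReal_natCast]
      rw [e]
      apply ENNReal.ofReal_le_ofReal
      calc ((Nc.card : ℝ) * β ^ r) ^ I.card ≤ y ^ I.card :=
            pow_le_pow_left₀ (by positivity) hy _
        _ ≤ y ^ N0 := pow_le_pow_of_le_one hy0 hy1 (hN0 _ hI')
    refine (Finset.sum_le_sum hI).trans ?_
    rw [Finset.sum_const, nsmul_eq_mul, ENNReal.ofReal_mul (by positivity)]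
    apply mul_le_mul_left
    have h1 : ((Finset.univ : Finset (Finset (Fin n))).filter
        (fun I => (n : ℝ) / 2 ≤ (I.card : ℝ))).card ≤ 2 ^ n := by
      refine (Finset.card_filter_le _ _).trans ?_
      simp
    have h2 : ENNReal.ofReal (2 ^ n) = ((2 ^ n : ℕ) : ENNReal) := by
      rw [← ENNReal.ofReal_natCast]
      push_cast
      rfl
    rw [h2]
    exact_mod_cast h1
  refine (Finset.sum_le_sum hinner).trans ?_
  rw [Finset.sum_const, nsmul_eq_mul, mul_assoc,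
    ENNReal.ofReal_mul (p := (s.card : ℝ)) (by positivity), ENNReal.ofReal_natCast]

end Pool.Agent.JohnsonSp
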