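import Pool.Agent.JohnsonSp.Defs

set_option autoImplicit false
open Filter Topology

namespace Pool.Agent.JohnsonSp

/-- The columns `√k e_j` followed by `G`. -/
noncomputable def colsG {m n : ℕ} (G : Fin n → Eu m) : Fin (m + n) → Eu m :=
  Fin.append (fun j => Real.sqrt ((m + n : ℕ) : ℝ) • EuclideanSpace.single j (1 : ℝ)) G

lemma colsG_left {m n : ℕ} (G : Fin n → Eu m) (j : Fin m) :
    colsG G (Fin.castAdd n j) = Real.sqrt ((m + n : ℕ) : ℝ) • EuclideanSpace.single j (1 : ℝ) :=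
  Fin.append_left _ _ _

lemma colsG_right {m n : ℕ} (G : Fin n → Eu m) (i : Fin n) :
    colsG G (Fin.natAdd m i) = G i :=
  Fin.append_right _ _ _

lemma norm_sum_single {m : ℕ} (c : Fin m → ℝ) :
    ‖∑ j, c j • (EuclideanSpace.single j (1 : ℝ) : Eu m)‖ = Real.sqrt (∑ j, c j ^ 2) := by
  rw [EuclideanSpace.norm_eq]
  congr 1
  refine Finset.sum_congr rfl fun a _ => ?_
  have : (∑ j, c j • (EuclideanSpace.single j (1 : ℝ) : Eu m)).ofLp a = c a := by
    simp [Finset.sum_apply, Pi.single_apply]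
  rw [this, Real.norm_eq_abs, sq_abs]

lemma cols_colsG {m n : ℕ} (G : Fin n → Eu m) (h : OpB G (10 * Real.sqrt (m + n))) :
    Cols (colsG G) := by
  refine ⟨fun j => ⟨Fin.castAdd n j, colsG_left G j⟩, ?_⟩
  intro c
  have hk : ((m + n : ℕ) : ℝ) = (m : ℝ) + n := by push_cast; ring
  rw [Fin.sum_univ_add]
  simp only [colsG_left, colsG_right]
  rw [hk]
  have hs1 : (∑ i : Fin m, c (Fin.castAdd n i) ^ 2) ≤ ∑ i, c i ^ 2 := by
    rw [Fin.sum_univ_add (fun i => c i ^ 2)]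
    have : 0 ≤ ∑ i : Fin n, c (Fin.natAdd m i) ^ 2 := Finset.sum_nonneg fun i _ => sq_nonneg _
    linarith
  have hs2 : (∑ i : Fin n, c (Fin.natAdd m i) ^ 2) ≤ ∑ i, c i ^ 2 := by
    rw [Fin.sum_univ_add (fun i => c i ^ 2)]
    have : 0 ≤ ∑ i : Fin m, c (Fin.castAdd n i) ^ 2 := Finset.sum_nonneg fun i _ => sq_nonneg _
    linarith
  have h1 : ‖∑ i : Fin m, c (Fin.castAdd n i) • Real.sqrt ((m : ℝ) + n) •
      (EuclideanSpace.single i (1 : ℝ) : Eu m)‖ ≤
      Real.sqrt ((m : ℝ) + n) * Real.sqrt (∑ i, c i ^ 2) := by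
    have e : ∑ i : Fin m, c (Fin.castAdd n i) • Real.sqrt ((m : ℝ) + n) •
        (EuclideanSpace.single i (1 : ℝ) : Eu m) =
        Real.sqrt ((m : ℝ) + n) • ∑ i : Fin m, c (Fin.castAdd n i) •
          (EuclideanSpace.single i (1 : ℝ) : Eu m) := by
      rw [Finset.smul_sum]
      refine Finset.sum_congr rfl fun i _ => ?_
      rw [smul_comm]
    rw [e, norm_smul, norm_sum_single, Real.norm_eq_abs, abs_of_nonneg (Real.sqrt_nonneg _)]
    exact mul_le_mul_of_nonneg_left (Real.sqrt_le_sqrt hs1) (Real.sqrt_nonneg _)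
  have h2 : ‖∑ i : Fin n, c (Fin.natAdd m i) • G i‖ ≤
      10 * Real.sqrt ((m : ℝ) + n) * Real.sqrt (∑ i, c i ^ 2) := by
    refine (h (fun i => c (Fin.natAdd m i))).trans ?_
    exact mul_le_mul_of_nonneg_left (Real.sqrt_le_sqrt hs2) (by positivity)
  refine (norm_add_le _ _).trans ?_
  linarith

lemma sum_inner_sq_le {m n : ℕ} (G : Fin n → Eu m) (R : ℝ) (hR : 0 ≤ R) (h : OpB G R)
    (x : Eu m) : ∑ i, (inner ℝ (G i) x) ^ 2 ≤ R ^ 2 * ‖x‖ ^ 2 := by
  set Q : ℝ := ∑ i, (inner ℝ (G i) x) ^ 2 with hQ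
  have hQ0 : 0 ≤ Q := Finset.sum_nonneg fun i _ => sq_nonneg _
  have h1 : Q = inner ℝ (∑ i, (inner ℝ (G i) x) • G i) x := by
    rw [sum_inner, hQ]
    refine Finset.sum_congr rfl fun i _ => ?_
    rw [inner_smul_left]
    simp [sq]
  have h2 : Q ≤ (R * Real.sqrt Q) * ‖x‖ := by
    calc Q = inner ℝ (∑ i, (inner ℝ (G i) x) • G i) x := h1
      _ ≤ ‖∑ i, (inner ℝ (G i) x) • G i‖ * ‖x‖ := real_inner_le_norm _ _
      _ ≤ (R * Real.sqrt Q) * ‖x‖ :=
        mul_le_mul_of_nonneg_right (h fun i => inner ℝ (G i) x) (norm_nonneg _)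
  have h3 : Real.sqrt Q ≤ R * ‖x‖ := by
    by_contra hc
    push Not at hc
    have hpos : 0 < Real.sqrt Q := lt_of_le_of_lt (by positivity) hc
    have h4 : Q = Real.sqrt Q * Real.sqrt Q := (Real.mul_self_sqrt hQ0).symm
    have h5 : Real.sqrt Q * (R * ‖x‖) < Real.sqrt Q * Real.sqrt Q :=
      mul_lt_mul_of_pos_left hc hpos
    nlinarith
  calc Q = Real.sqrt Q ^ 2 := (Real.sq_sqrt hQ0).symm
    _ ≤ (R * ‖x‖) ^ 2 := pow_le_pow_left₀ (Real.sqrt_nonneg _) h3 2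
    _ = R ^ 2 * ‖x‖ ^ 2 := by ring

lemma coord_eq {m : ℕ} (y : Eu m) (a : Fin m) :
    y.ofLp a = inner ℝ (EuclideanSpace.single a (1 : ℝ) : Eu m) y := by
  rw [EuclideanSpace.inner_single_left]
  simp

lemma sum_norm_sq_le {m n s : ℕ} (G : Fin n → Eu m) (R : ℝ) (hR : 0 ≤ R) (h : OpB G R)
    (U : Eu m →ₗ[ℝ] Eu s) : ∑ i, ‖U (G i)‖ ^ 2 ≤ R ^ 2 * hs U := by
  have h1 : ∀ i, ‖U (G i)‖ ^ 2 = ∑ a, (inner ℝ (G i)
      (LinearMap.adjoint U (EuclideanSpace.single a (1 : ℝ)))) ^ 2 := by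
    intro i
    rw [EuclideanSpace.real_norm_sq_eq]
    refine Finset.sum_congr rfl fun a _ => ?_
    rw [coord_eq, LinearMap.adjoint_inner_right, real_inner_comm]
  have h2 : hs U = ∑ a, ‖LinearMap.adjoint U (EuclideanSpace.single a (1 : ℝ))‖ ^ 2 := by
    have h3 : ∀ a, ‖LinearMap.adjoint U (EuclideanSpace.single a (1 : ℝ))‖ ^ 2 =
        ∑ j, (inner ℝ (EuclideanSpace.single a (1 : ℝ)) (U (EuclideanSpace.single j 1))) ^ 2 := by
      intro a
      rw [EuclideanSpace.real_norm_sq_eq]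
      refine Finset.sum_congr rfl fun j _ => ?_
      rw [coord_eq, LinearMap.adjoint_inner_right, real_inner_comm]
    have h4 : ∀ j, ‖U (EuclideanSpace.single j (1 : ℝ))‖ ^ 2 =
        ∑ a, (inner ℝ (EuclideanSpace.single a (1 : ℝ)) (U (EuclideanSpace.single j 1))) ^ 2 := by
      intro j
      rw [EuclideanSpace.real_norm_sq_eq]
      refine Finset.sum_congr rfl fun a _ => ?_
      rw [coord_eq]
    unfold hs
    simp only [h3, h4]
    exact Finset.sum_comm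
  simp only [h1]
  rw [Finset.sum_comm, h2, Finset.mul_sum]
  exact Finset.sum_le_sum fun a _ => sum_inner_sq_le G R hR h _

/-- At least half of the indices are good. -/
lemma half_card {m n : ℕ} (G : Fin n → Eu m) (U : Eu m →ₗ[ℝ] Eu m) (k D : ℝ) (hk : k ≤ 2 * n)
    (hk0 : 0 < k) (hD : 0 < D) (hm : 1 ≤ m)
    (h : OpB G (10 * Real.sqrt k)) (hU : hs U ≤ (Real.sqrt m / D) ^ 2) :
    (n : ℝ) / 2 ≤ ((Finset.univ.filter fun i : Fin n => ‖U (G i)‖ ≤ 20 * Real.sqrt m / D).card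
      : ℝ) := by
  classical
  have hmr : (1 : ℝ) ≤ m := by exact_mod_cast hm
  have h1 : ∑ i, ‖U (G i)‖ ^ 2 ≤ 100 * k * (m / D ^ 2) := by
    refine (sum_norm_sq_le G _ (by positivity) h U).trans ?_
    rw [mul_pow, Real.sq_sqrt hk0.le]
    have : (Real.sqrt m / D) ^ 2 = m / D ^ 2 := by rw [div_pow, Real.sq_sqrt (by positivity)]
    rw [this] at hU
    calc 10 ^ 2 * k * hs U ≤ 10 ^ 2 * k * (m / D ^ 2) :=
          mul_le_mul_of_nonneg_left hU (by positivity)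
      _ = 100 * k * (m / D ^ 2) := by ring
  set B := Finset.univ.filter fun i : Fin n => ¬ ‖U (G i)‖ ≤ 20 * Real.sqrt m / D with hB
  have h2 : (B.card : ℝ) * (400 * (m / D ^ 2)) ≤ ∑ i, ‖U (G i)‖ ^ 2 := by
    have h3 : ∀ i ∈ B, 400 * (m / D ^ 2) ≤ ‖U (G i)‖ ^ 2 := by
      intro i hi
      have hi' := (Finset.mem_filter.mp hi).2
      push Not at hi'
      have e : 400 * ((m : ℝ) / D ^ 2) = (20 * Real.sqrt m / D) ^ 2 := by
        rw [div_pow, mul_pow, Real.sq_sqrt (by positivity)]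
        ring
      rw [e]
      exact pow_le_pow_left₀ (by positivity) hi'.le 2
    calc (B.card : ℝ) * (400 * (m / D ^ 2)) = ∑ i ∈ B, 400 * ((m : ℝ) / D ^ 2) := by
          rw [Finset.sum_const, nsmul_eq_mul]
      _ ≤ ∑ i ∈ B, ‖U (G i)‖ ^ 2 := Finset.sum_le_sum h3
      _ ≤ ∑ i, ‖U (G i)‖ ^ 2 :=
        Finset.sum_le_sum_of_subset_of_nonneg (Finset.subset_univ _) fun _ _ _ => sq_nonneg _
  have h4 : (B.card : ℝ) ≤ k / 4 := by
    have hpos : 0 < (m : ℝ) / D ^ 2 := by positivity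
    have : (B.card : ℝ) * (400 * (m / D ^ 2)) ≤ (k / 4) * (400 * (m / D ^ 2)) := by
      refine (h2.trans h1).trans (le_of_eq ?_)
      ring
    exact le_of_mul_le_mul_right this (by positivity)
  have h5 : (Finset.univ.filter fun i : Fin n => ‖U (G i)‖ ≤ 20 * Real.sqrt m / D).card + B.card
      = n := by
    rw [hB, Finset.card_filter_add_card_filter_not]
    simp
  have h6 : ((Finset.univ.filter fun i : Fin n => ‖U (G i)‖ ≤ 20 * Real.sqrt m / D).card : ℝ) +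
      (B.card : ℝ) = n := by exact_mod_cast h5
  linarith

end Pool.Agent.JohnsonSp
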