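import Pool.Agent.JohnsonSp.Defs

set_option autoImplicit false
open Filter Topology MeasureTheory ProbabilityTheory

namespace Pool.Agent.JohnsonSp
namespace RedAux

theorem exists_iso (V : Type) [AddCommGroup V] [Module ℝ V] [FiniteDimensional ℝ V]
    (B : V →ₗ[ℝ] V →ₗ[ℝ] ℝ) (hs : ∀ x y, B x y = B y x) (hp : ∀ x, x ≠ 0 → 0 < B x x) :
    ∃ ψ : V ≃ₗ[ℝ] EuclideanSpace ℝ (Fin (Module.finrank ℝ V)), ∀ x, ‖ψ x‖ ^ 2 = B x x := by
  let c : InnerProductSpace.Core ℝ V :=
    { inner := fun x y => B x y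
      conj_inner_symm := fun x y => by simp [hs x y]
      re_inner_nonneg := fun x => by
        by_cases h : x = 0
        · simp [h]
        · exact (hp x h).le
      add_left := fun x y z => by simp
      smul_left := fun x y r => by simp
      definite := fun x hx => by
        by_contra h
        exact (hp x h).ne' hx }
  let _ : NormedAddCommGroup V := c.toNormedAddCommGroup
  let _ : InnerProductSpace ℝ V := InnerProductSpace.ofCore c.toCore
  refine ⟨(stdOrthonormalBasis ℝ V).repr.toLinearEquiv, fun x => ?_⟩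
  have h1 : ‖(stdOrthonormalBasis ℝ V).repr.toLinearEquiv x‖ = ‖x‖ :=
    (stdOrthonormalBasis ℝ V).repr.norm_map x
  rw [h1]
  have h2 : inner ℝ x x = ‖x‖ ^ 2 := real_inner_self_eq_norm_sq x
  rw [← h2]
  rfl

theorem trace_eq (m : ℕ) (T : Eu m →ₗ[ℝ] Eu m) :
    LinearMap.trace ℝ (Eu m) T = ∑ i, (T (EuclideanSpace.single i 1)) i := by
  rw [LinearMap.trace_eq_matrix_trace ℝ (EuclideanSpace.basisFun (Fin m) ℝ).toBasis]
  simp [Matrix.trace, LinearMap.toMatrix_apply]

section Blocks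

variable (k m : ℕ → ℕ) (q : ℕ → ℝ) [∀ n, Fact (1 ≤ ENNReal.ofReal (q n))]
  (g : ∀ n, Fin (k n) → Eu (m n))

/-- coordinates -/
noncomputable def J (l : ℕ) : Eu (m l) →ₗ[ℝ] (Fin (k l) → ℝ) :=
  LinearMap.pi fun i => (innerₛₗ ℝ (g l i) : Eu (m l) →ₗ[ℝ] ℝ)

theorem J_apply (l : ℕ) (y : Eu (m l)) (i : Fin (k l)) : J k m g l y i = inner ℝ (g l i) y := rfl

/-- block -/
noncomputable def Bl (l : ℕ) :
    Eu (m l) →ₗ[ℝ] PiLp (ENNReal.ofReal (q l)) (fun _ : Fin (k l) => ℝ) :=
  (WithLp.linearEquiv (ENNReal.ofReal (q l)) ℝ (Fin (k l) → ℝ)).symm.toLinearMap ∘ₗ J k m g l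

theorem Bl_apply (l : ℕ) (y : Eu (m l)) (i : Fin (k l)) :
    Bl k m q g l y i = inner ℝ (g l i) y := rfl

theorem norm_Bl (l : ℕ) (hq : 2 ≤ q l) (y : Eu (m l)) :
    ‖Bl k m q g l y‖ = vnorm (q l) (g l) y := by
  have h0 : (ENNReal.ofReal (q l)).toReal = q l := ENNReal.toReal_ofReal (by linarith)
  rw [PiLp.norm_eq_sum (by rw [h0]; linarith), h0]
  rfl

/-- embedding of a block -/
noncomputable def sg (l : ℕ) : PiLp (ENNReal.ofReal (q l)) (fun _ : Fin (k l) => ℝ) →ₗ[ℝ] XS k q :=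
  lp.lsingle (E := fun n : ℕ => PiLp (ENNReal.ofReal (q n)) (fun _ : Fin (k n) => ℝ)) (𝕜 := ℝ) 2 l

theorem sg_self (l : ℕ) (y : PiLp (ENNReal.ofReal (q l)) (fun _ : Fin (k l) => ℝ)) :
    (sg k q l y) l = y :=
  lp.single_apply_self (E := fun n : ℕ => PiLp (ENNReal.ofReal (q n)) (fun _ : Fin (k n) => ℝ))
    2 l y

theorem sg_ne (l n : ℕ) (h : n ≠ l) (y : PiLp (ENNReal.ofReal (q l)) (fun _ : Fin (k l) => ℝ)) :
    (sg k q l y) n = 0 :=
  lp.single_apply_ne (E := fun n : ℕ => PiLp (ENNReal.ofReal (q n)) (fun _ : Fin (k n) => ℝ))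
    2 l y h

theorem norm_sg (l : ℕ) (y : PiLp (ENNReal.ofReal (q l)) (fun _ : Fin (k l) => ℝ)) :
    ‖sg k q l y‖ = ‖y‖ :=
  lp.norm_single (E := fun n : ℕ => PiLp (ENNReal.ofReal (q n)) (fun _ : Fin (k n) => ℝ))
    (by norm_num) l y

/-- embedding of a block into `E` -/
noncomputable def iota (l : ℕ) : Eu (m l) →ₗ[ℝ] ESub k m q g :=
  LinearMap.codRestrict _ (sg k q l ∘ₗ Bl k m q g l) (by
      intro y n
      by_cases h : n = l
      · subst h
        refine ⟨y, fun i => ?_⟩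
        rw [LinearMap.comp_apply, sg_self]
        rfl
      · refine ⟨0, fun i => ?_⟩
        rw [LinearMap.comp_apply, sg_ne k q l n h]
        simp)

theorem iota_coe (l : ℕ) (y : Eu (m l)) :
    ((iota k m q g l y : ESub k m q g) : XS k q) = sg k q l (Bl k m q g l y) := rfl

theorem norm_iota (l : ℕ) (hq : 2 ≤ q l) (y : Eu (m l)) :
    ‖iota k m q g l y‖ = vnorm (q l) (g l) y := by
  rw [← norm_Bl k m q g l hq, ← norm_sg k q l, ← iota_coe]
  rfl

/-- coordinates of a block of an element of `E` -/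
noncomputable def C (l : ℕ) : ESub k m q g →ₗ[ℝ] (Fin (k l) → ℝ) where
  toFun x := fun i => ((x : XS k q) l) i
  map_add' x y := by
    funext i
    simp
  map_smul' c x := by
    funext i
    simp

theorem C_apply (l : ℕ) (x : ESub k m q g) (i : Fin (k l)) :
    C k m q g l x i = ((x : XS k q) l) i := rfl

/-- the coordinates of a block of an element of `E` -/
noncomputable def rho (L : ∀ l, (Fin (k l) → ℝ) →ₗ[ℝ] Eu (m l)) (l : ℕ) :
    ESub k m q g →ₗ[ℝ] Eu (m l) := L l ∘ₗ C k m q g l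

variable (L : ∀ l, (Fin (k l) → ℝ) →ₗ[ℝ] Eu (m l)) (hL : ∀ l y, L l (J k m g l y) = y)

include hL in
theorem Bl_rho (l : ℕ) (x : ESub k m q g) :
    Bl k m q g l (rho k m q g L l x) = (x : XS k q) l := by
  obtain ⟨y, hy⟩ := x.2 l
  have h1 : C k m q g l x = J k m g l y := by
    funext i
    exact hy i
  have h2 : rho k m q g L l x = y := by
    unfold rho
    rw [LinearMap.comp_apply, h1, hL]
  rw [h2]
  ext i
  rw [hy i]
  rfl

include hL in
theorem rho_iota (l : ℕ) (y : Eu (m l)) : rho k m q g L l (iota k m q g l y) = y := by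
  have h1 : C k m q g l (iota k m q g l y) = J k m g l y := by
    funext i
    rw [C_apply, iota_coe, sg_self]
    rfl
  unfold rho
  rw [LinearMap.comp_apply, h1, hL]

include hL in
theorem vnorm_rho (l : ℕ) (hq : 2 ≤ q l) (x : ESub k m q g) :
    vnorm (q l) (g l) (rho k m q g L l x) ≤ ‖x‖ := by
  rw [← norm_Bl k m q g l hq, Bl_rho k m q g L hL]
  exact lp.norm_apply_le_norm (by norm_num) _ _

theorem C_tendsto (l : ℕ) (x : ℕ → ESub k m q g) (y : ESub k m q g)
    (h : Tendsto x atTop (𝓝 y)) :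
    Tendsto (fun n => C k m q g l (x n)) atTop (𝓝 (C k m q g l y)) := by
  rw [tendsto_pi_nhds]
  intro i
  rw [tendsto_iff_norm_sub_tendsto_zero] at h ⊢
  refine squeeze_zero (fun n => norm_nonneg _) (fun n => ?_) h
  have h1 : C k m q g l (x n) i - C k m q g l y i = ((x n - y : ESub k m q g) : XS k q) l i := by
    simp [C_apply]
  rw [h1]
  calc ‖((x n - y : ESub k m q g) : XS k q) l i‖ ≤ ‖((x n - y : ESub k m q g) : XS k q) l‖ :=
        PiLp.norm_apply_le _ _
    _ ≤ ‖((x n - y : ESub k m q g) : XS k q)‖ := lp.norm_apply_le_norm (by norm_num) _ _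

theorem rho_tendsto (l : ℕ) (x : ℕ → ESub k m q g) (y : ESub k m q g)
    (h : Tendsto x atTop (𝓝 y)) :
    Tendsto (fun n => rho k m q g L l (x n)) atTop (𝓝 (rho k m q g L l y)) := by
  have h1 : Continuous (L l) := LinearMap.continuous_of_finiteDimensional _
  exact (h1.tendsto _).comp (C_tendsto k m q g l x y h)

/-- the tail operator -/
noncomputable def U (n : ℕ) : ESub k m q g →ₗ[ℝ] ESub k m q g :=
  LinearMap.id - ∑ l ∈ Finset.range (n + 1), iota k m q g l ∘ₗ rho k m q g L l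

include hL in
theorem U_apply (n : ℕ) (x : ESub k m q g) (j : ℕ) :
    ((U k m q g L n x : ESub k m q g) : XS k q) j = if j ≤ n then 0 else (x : XS k q) j := by
  have h1 : ((U k m q g L n x : ESub k m q g) : XS k q) =
      (x : XS k q) - ∑ l ∈ Finset.range (n + 1), sg k q l ((x : XS k q) l) := by
    unfold U
    simp only [LinearMap.sub_apply, LinearMap.id_apply, LinearMap.sum_apply, LinearMap.comp_apply,
      Submodule.coe_sub, Submodule.coe_sum, iota_coe, Bl_rho k m q g L hL]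
  rw [h1, lp.coeFn_sub, Pi.sub_apply, lp.coeFn_sum, Finset.sum_apply]
  by_cases hj : j ≤ n
  · rw [if_pos hj, Finset.sum_eq_single j, sg_self, sub_self]
    · intro b _ hb
      exact sg_ne k q b j hb.symm _
    · intro h
      exact absurd (Finset.mem_range.2 (by omega)) h
  · rw [if_neg hj, Finset.sum_eq_zero, sub_zero]
    intro b hb
    apply sg_ne k q b j
    have := Finset.mem_range.1 hb
    omega

include hL in
theorem norm_U (n : ℕ) (x : ESub k m q g) : ‖U k m q g L n x‖ ≤ ‖x‖ := by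
  change ‖((U k m q g L n x : ESub k m q g) : XS k q)‖ ≤ ‖(x : XS k q)‖
  refine lp.norm_mono (by norm_num) fun j => ?_
  rw [U_apply k m q g L hL]
  split_ifs
  · simp
  · exact le_rfl

end Blocks

end RedAux

open RedAux in
theorem Red : Stmt_Red := by
  intro k m q _ g n d K hK hq hinj hform hd P hP
  obtain ⟨hPn, hP0, hPP, hP1, hPt⟩ := hP
  have hL' : ∀ l, ∃ L : (Fin (k l) → ℝ) →ₗ[ℝ] Eu (m l), L ∘ₗ J k m g l = LinearMap.id := by
    intro l
    apply LinearMap.exists_leftInverse_of_injective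
    rw [LinearMap.ker_eq_bot']
    intro x hx
    exact hinj l x (fun i => congrFun hx i)
  choose L hL0 using hL'
  have hL : ∀ l y, L l (J k m g l y) = y := fun l y => LinearMap.congr_fun (hL0 l) y
  let T : ℕ → Eu (m n) →ₗ[ℝ] Eu (m n) := fun j =>
    rho k m q g L n ∘ₗ (P j : ESub k m q g →ₗ[ℝ] ESub k m q g) ∘ₗ iota k m q g n
  have hTa : ∀ j x, T j x = rho k m q g L n (P j (iota k m q g n x)) := fun _ _ => rfl
  have hTv : ∀ j x, vnorm (q n) (g n) (T j x) ≤ K * vnorm (q n) (g n) x := by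
    intro j x
    rw [hTa, ← norm_iota k m q g n (hq n) x]
    exact (vnorm_rho k m q g L hL n (hq n) _).trans (hPn j _)
  -- traces
  have htr0 : LinearMap.trace ℝ (Eu (m n)) (T 0) = 0 := by
    have : T 0 = 0 := by
      ext1 x
      rw [hTa, hP0]
      simp
    rw [this, map_zero]
  have hinc : ∀ j, LinearMap.trace ℝ (Eu (m n)) (T (j + 1)) ≤
      LinearMap.trace ℝ (Eu (m n)) (T j) + 2 * K := by
    intro j
    obtain ⟨f, u, hfu⟩ := hP1 j
    have h1 : T (j + 1) = T j +
        ((f : ESub k m q g →ₗ[ℝ] ℝ) ∘ₗ iota k m q g n).smulRight (rho k m q g L n u) := by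
      ext1 x
      rw [LinearMap.add_apply, hTa, hTa, hfu, map_add, map_smul]
      rfl
    rw [h1, map_add, LinearMap.trace_smulRight]
    have h2 : ‖f (iota k m q g n (rho k m q g L n u)) • u‖ ≤
        2 * K * ‖iota k m q g n (rho k m q g L n u)‖ := by
      set x := iota k m q g n (rho k m q g L n u)
      have h3 : f x • u = P (j + 1) x - P j x := by rw [hfu]; abel
      rw [h3]
      calc ‖P (j + 1) x - P j x‖ ≤ ‖P (j + 1) x‖ + ‖P j x‖ := norm_sub_le _ _
        _ ≤ K * ‖x‖ + K * ‖x‖ := add_le_add (hPn _ _) (hPn _ _)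
        _ = 2 * K * ‖x‖ := by ring
    have h4 : ‖iota k m q g n (rho k m q g L n u)‖ ≤ ‖u‖ := by
      rw [norm_iota k m q g n (hq n)]
      exact vnorm_rho k m q g L hL n (hq n) u
    rw [norm_smul, Real.norm_eq_abs] at h2
    have h5 : |f (iota k m q g n (rho k m q g L n u))| * ‖u‖ ≤ 2 * K * ‖u‖ :=
      h2.trans (mul_le_mul_of_nonneg_left h4 (by positivity))
    by_cases hu : u = 0
    · subst hu
      simp
      exact hK
    · have h6 : |f (iota k m q g n (rho k m q g L n u))| ≤ 2 * K :=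
        le_of_mul_le_mul_right h5 (norm_pos_iff.2 hu)
      have h7 : f (iota k m q g n (rho k m q g L n u)) ≤ 2 * K := (le_abs_self _).trans h6
      simpa using h7
  have hlim : Tendsto (fun j => LinearMap.trace ℝ (Eu (m n)) (T j)) atTop (𝓝 (m n : ℝ)) := by
    have h1 : (m n : ℝ) = ∑ i : Fin (m n), ((EuclideanSpace.single i (1 : ℝ) : Eu (m n))) i := by
      simp
    rw [h1]
    have h2 : (fun j => LinearMap.trace ℝ (Eu (m n)) (T j)) =
        fun j => ∑ i : Fin (m n), (T j (EuclideanSpace.single i 1)) i := by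
      funext j
      exact trace_eq _ _
    rw [h2]
    refine tendsto_finsetSum _ fun i _ => ?_
    have h3 : Tendsto (fun j => T j (EuclideanSpace.single i 1)) atTop
        (𝓝 (EuclideanSpace.single i (1 : ℝ) : Eu (m n))) := by
      have h4 := rho_tendsto k m q g L n _ _ (hPt (iota k m q g n (EuclideanSpace.single i 1)))
      rw [rho_iota k m q g L hL] at h4
      exact h4
    have h5 : Continuous fun y : Eu (m n) => y i := by fun_prop
    exact (h5.tendsto _).comp h3
  have hex : ∃ j, (m n : ℝ) / 2 ≤ LinearMap.trace ℝ (Eu (m n)) (T j) := by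
    rcases Nat.eq_zero_or_pos (m n) with h0 | h0
    · refine ⟨0, ?_⟩
      rw [htr0, h0]
      simp
    · have h1 : (m n : ℝ) / 2 < m n := by
        have : (0 : ℝ) < m n := by exact_mod_cast h0
        linarith
      obtain ⟨j, hj⟩ := (hlim.eventually (lt_mem_nhds h1)).exists
      exact ⟨j, hj.le⟩
  obtain ⟨j, hj⟩ : ∃ j, |LinearMap.trace ℝ (Eu (m n)) (T j) - m n / 2| ≤ 2 * K := by
    classical
    refine ⟨Nat.find hex, ?_⟩
    have h1 := Nat.find_spec hex
    rw [abs_of_nonneg (by linarith)]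
    rcases Nat.eq_zero_or_pos (Nat.find hex) with h0 | h0
    · rw [h0, htr0]
      have : (0 : ℝ) ≤ m n := Nat.cast_nonneg _
      linarith
    · obtain ⟨i, hi⟩ : ∃ i, Nat.find hex = i + 1 := ⟨Nat.find hex - 1, by omega⟩
      have h2 := Nat.find_min hex (m := i) (by omega)
      have h3 := hinc i
      rw [hi]
      rw [not_le] at h2
      linarith
  -- the tail part
  let D : Eu (m n) →ₗ[ℝ] ESub k m q g :=
    U k m q g L n ∘ₗ (P j : ESub k m q g →ₗ[ℝ] ESub k m q g) ∘ₗ iota k m q g n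
  have hD : ∀ x, ‖D x‖ ≤ K * vnorm (q n) (g n) x := by
    intro x
    rw [← norm_iota k m q g n (hq n) x]
    exact (norm_U k m q g L hL n _).trans (hPn j _)
  let GE : Submodule ℝ (ESub k m q g) := LinearMap.range D
  let G : Submodule ℝ (XS k q) := GE.map (ESub k m q g).subtype
  have hGt : G ≤ tail k q (n + 1) := by
    rintro _ ⟨_, ⟨x, rfl⟩, rfl⟩ l hl
    have h1 := U_apply k m q g L hL n (P j (iota k m q g n x)) l
    rw [if_pos (by omega)] at h1
    exact h1
  have hGEf : FiniteDimensional ℝ GE := inferInstanceAs (FiniteDimensional ℝ (LinearMap.range D))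
  have hGf : FiniteDimensional ℝ G := inferInstance
  have hGd : Module.finrank ℝ G ≤ m n := by
    calc Module.finrank ℝ G ≤ Module.finrank ℝ GE := Submodule.finrank_map_le _ _
      _ ≤ Module.finrank ℝ (Eu (m n)) := LinearMap.finrank_range_le D
      _ = m n := by simp
  obtain ⟨B, hBs, hBn, hBu, hBl⟩ := hform G hGt hGf hGd
  let inc : GE →ₗ[ℝ] XS k q := (ESub k m q g).subtype ∘ₗ GE.subtype
  have hincG : ∀ z, inc z ∈ G := fun z => ⟨_, z.2, rfl⟩
  let B' : GE →ₗ[ℝ] GE →ₗ[ℝ] ℝ := B.compl₁₂ inc inc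
  have hB' : ∀ x y, B' x y = B (inc x) (inc y) := fun x y => rfl
  have hpos : ∀ x : GE, x ≠ 0 → 0 < B' x x := by
    intro x hx
    have h1 := hBl (inc x) (hincG x)
    have h2 : inc x ≠ 0 := by
      intro h
      apply hx
      apply Subtype.ext
      apply Subtype.ext
      exact h
    have h3 : 0 < ‖inc x‖ ^ 2 := by
      have := norm_pos_iff.2 h2
      positivity
    rw [hB']
    linarith
  obtain ⟨ψ, hψ⟩ := exists_iso GE B' (fun x y => by rw [hB', hB', hBs]) hpos
  let a : Eu (m n) →ₗ[ℝ] Eu (Module.finrank ℝ GE) := ψ.toLinearMap ∘ₗ D.rangeRestrict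
  let b : Eu (Module.finrank ℝ GE) →ₗ[ℝ] Eu (m n) :=
    rho k m q g L n ∘ₗ (P j : ESub k m q g →ₗ[ℝ] ESub k m q g) ∘ₗ GE.subtype ∘ₗ ψ.symm.toLinearMap
  let R : Eu (m n) →ₗ[ℝ] Eu (m n) := ∑ l ∈ Finset.range n,
    (rho k m q g L n ∘ₗ (P j : ESub k m q g →ₗ[ℝ] ESub k m q g) ∘ₗ iota k m q g l) ∘ₗ
      (rho k m q g L l ∘ₗ (P j : ESub k m q g →ₗ[ℝ] ESub k m q g) ∘ₗ iota k m q g n)
  refine ⟨Module.finrank ℝ GE, T j, R, a, b, hTv j, hj, ?_, ?_, ?_, ?_⟩
  · intro x
    have h1 : b (a x) = rho k m q g L n (P j (D x)) := by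
      change rho k m q g L n (P j (GE.subtype (ψ.symm (ψ (D.rangeRestrict x))))) = _
      rw [LinearEquiv.symm_apply_apply]
      rfl
    have h2 : D x = P j (iota k m q g n x) - ∑ l ∈ Finset.range (n + 1),
        iota k m q g l (rho k m q g L l (P j (iota k m q g n x))) := by
      change U k m q g L n (P j (iota k m q g n x)) = _
      unfold U
      simp only [LinearMap.sub_apply, LinearMap.id_apply, LinearMap.sum_apply,
        LinearMap.comp_apply]
    have h3 : R x = ∑ l ∈ Finset.range n, rho k m q g L n (P j (iota k m q g l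
        (rho k m q g L l (P j (iota k m q g n x))))) := by
      simp only [R, LinearMap.sum_apply, LinearMap.comp_apply]
      rfl
    rw [h1, h2, h3, Finset.sum_range_succ, map_sub, map_add, map_sum, map_sub, map_add, map_sum,
      hPP, hTa, hTa]
    abel
  · have h1 : ∀ l, LinearMap.rank ((rho k m q g L n ∘ₗ (P j : ESub k m q g →ₗ[ℝ] ESub k m q g) ∘ₗ
        iota k m q g l) ∘ₗ (rho k m q g L l ∘ₗ (P j : ESub k m q g →ₗ[ℝ] ESub k m q g) ∘ₗ
        iota k m q g n)) ≤ (m l : Cardinal) := by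
      intro l
      refine (LinearMap.rank_comp_le_left _ _).trans ((LinearMap.rank_le_domain _).trans ?_)
      rw [← Module.finrank_eq_rank]
      simp
    have h2 : LinearMap.rank R ≤ ∑ l ∈ Finset.range n, (m l : Cardinal) :=
      (LinearMap.rank_finsetSum_le _ _).trans (Finset.sum_le_sum fun l _ => h1 l)
    have h3 : (Module.finrank ℝ (LinearMap.range R) : Cardinal) ≤
        ((∑ l ∈ Finset.range n, m l : ℕ) : Cardinal) := by
      rw [Module.finrank_eq_rank]
      push_cast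
      exact h2
    exact (Nat.cast_le.1 h3).trans hd
  · intro x
    have h1 : ‖a x‖ ^ 2 ≤ ‖D x‖ ^ 2 := by
      have h2 : ‖a x‖ ^ 2 = B' (D.rangeRestrict x) (D.rangeRestrict x) := hψ _
      rw [h2, hB']
      exact hBu _
    exact (abs_le_of_sq_le_sq' h1 (norm_nonneg _)).2.trans (hD x)
  · intro z
    have h1 : vnorm (q n) (g n) (b z) ≤ K * ‖GE.subtype (ψ.symm z)‖ :=
      (vnorm_rho k m q g L hL n (hq n) _).trans (hPn j _)
    have h2 : ‖GE.subtype (ψ.symm z)‖ ^ 2 ≤ 2 * ‖z‖ ^ 2 := by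
      have h3 := hBl (inc (ψ.symm z)) (hincG _)
      have h4 := hψ (ψ.symm z)
      rw [LinearEquiv.apply_symm_apply, hB'] at h4
      rw [h4]
      exact h3
    have h5 : ‖GE.subtype (ψ.symm z)‖ ≤ 2 * ‖z‖ := by
      have h6 : ‖GE.subtype (ψ.symm z)‖ ^ 2 ≤ (2 * ‖z‖) ^ 2 := by
        nlinarith [sq_nonneg ‖z‖]
      exact (abs_le_of_sq_le_sq' h6 (by positivity)).2
    calc vnorm (q n) (g n) (b z) ≤ K * ‖GE.subtype (ψ.symm z)‖ := h1
      _ ≤ K * (2 * ‖z‖) := mul_le_mul_of_nonneg_left h5 hK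
      _ = 2 * K * ‖z‖ := by ring

end Pool.Agent.JohnsonSp
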