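import Pool.Agent.JohnsonSp.Defs

/-!
Separability of the concrete spaces.
-/

set_option autoImplicit false
open Filter Topology

namespace Pool.Agent.JohnsonSp

theorem Sep : Stmt_Sep := by
  intro k q _
  rw [← TopologicalSpace.isSeparable_univ_iff]
  have h1 : TopologicalSpace.IsSeparable
      (⋃ n, Set.range (lp.single (E := fun n : ℕ =>
        PiLp (ENNReal.ofReal (q n)) (fun _ : Fin (k n) => ℝ)) 2 n)) := by
    refine TopologicalSpace.IsSeparable.iUnion fun n => ?_
    exact TopologicalSpace.isSeparable_range (lp.isometry_single n).continuous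
  have h2 := (TopologicalSpace.IsSeparable.span (R := ℝ) h1).closure
  refine h2.mono fun f _ => ?_
  have h3 := lp.hasSum_single (by simp : (2 : ENNReal) ≠ ⊤) f
  refine mem_closure_of_tendsto h3 (Eventually.of_forall fun s => ?_)
  refine Submodule.sum_mem _ fun i _ => Submodule.subset_span ?_
  exact Set.mem_iUnion.2 ⟨i, ⟨_, rfl⟩⟩

end Pool.Agent.JohnsonSp
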