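import Pool.Agent.JohnsonSp.Defs

/-!
The choice of the parameters.
-/

set_option autoImplicit false
open Filter Topology

namespace Pool.Agent.JohnsonSp

/-- The bound `N` in terms of the state (sum of the `m`, sum of the `k`, previous and current
value of `hseq`). -/
def seqN (n : ℕ) (s : ℕ × ℕ × ℕ × ℕ) : ℕ := 5 ^ s.2.2.1 + s.2.2.2 + n + 5 ^ s.2.1 + s.2.1

/-- The recursion for the state. -/
def seqSt (A : ℕ → ℕ) (M : ℕ → ℕ → ℕ → ℕ) : ℕ → ℕ × ℕ × ℕ × ℕ
  | 0 => (0, 0, 0, 0)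
  | n + 1 =>
    ((seqSt A M n).1 + M n (seqSt A M n).1 (seqN n (seqSt A M n)),
      (seqSt A M n).2.1 + A n * M n (seqSt A M n).1 (seqN n (seqSt A M n)),
      (seqSt A M n).2.2.2,
      2 * (seqSt A M n).2.2.2 +
        5 ^ ((seqSt A M n).2.1 + A n * M n (seqSt A M n).1 (seqN n (seqSt A M n))) + 1)

theorem seq_thm (hF : Stmt_Fin) : Stmt_Seq := by
  have hF' : ∀ n : ℕ, ∃ (A : ℕ) (D : ℝ), 2 ≤ A ∧ 1 < D ∧ ∀ d : ℕ, ∃ m0 : ℕ, ∀ m ≥ m0, ∀ q : ℝ,
      2 < q → q ≤ 4 → ((A * m : ℕ) : ℝ) ^ (1 / 2 - 1 / q) = D →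
      ∃ g : Fin (A * m) → Eu m, (∀ x, (∀ i, inner ℝ (g i) x = 0) → x = 0) ∧
        ¬ Bad ((n : ℝ) + 1) d q g := fun n => hF ((n : ℝ) + 1) (by
          have := Nat.cast_nonneg (α := ℝ) n
          linarith)
  choose A D hA hD m0 hm0 using hF'
  have hlogD : ∀ n, 0 < Real.log (D n) := fun n => Real.log_pos (hD n)
  have hM : ∀ n d N : ℕ, ∃ m : ℕ, n + 1 ≤ m ∧ m0 n d ≤ m ∧
      2 * Real.log (D n) * (8 * 25 ^ N) ≤ Real.log ((A n * m : ℕ) : ℝ) := by
    intro n d N
    have h1 : Tendsto (fun m : ℕ => Real.log ((A n * m : ℕ) : ℝ)) atTop atTop := by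
      refine Real.tendsto_log_atTop.comp (tendsto_natCast_atTop_atTop.comp ?_)
      exact tendsto_atTop_mono (fun m => Nat.le_mul_of_pos_left m (by have := hA n; omega)) tendsto_id
    obtain ⟨m, hm1, hm2, hm3⟩ := ((eventually_ge_atTop (n + 1)).and ((eventually_ge_atTop (m0 n d)).and
      (h1.eventually_ge_atTop (2 * Real.log (D n) * (8 * 25 ^ N))))).exists
    exact ⟨m, hm1, hm2, hm3⟩
  choose M hM1 hM2 hM3 using hM
  set st := seqSt A M with hst
  set m : ℕ → ℕ := fun n => M n (st n).1 (seqN n (st n)) with hm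
  set k : ℕ → ℕ := fun n => A n * m n with hk
  set N : ℕ → ℕ := fun n => seqN n (st n) with hN
  set θ : ℕ → ℝ := fun n => 2 * Real.log (D n) / Real.log ((k n : ℕ) : ℝ) with hθ
  set q : ℕ → ℝ := fun n => 2 / (1 - θ n) with hq
  -- the state
  have hs1 : ∀ n, (st (n + 1)).1 = (st n).1 + m n := fun n => rfl
  have hs2 : ∀ n, (st (n + 1)).2.1 = (st n).2.1 + k n := fun n => rfl
  have hs3 : ∀ n, (st (n + 1)).2.2.1 = (st n).2.2.2 := fun n => rfl
  have hs4 : ∀ n, (st (n + 1)).2.2.2 = 2 * (st n).2.2.2 + 5 ^ ((st n).2.1 + k n) + 1 := fun n => rfl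
  have e1 : ∀ n, (st n).1 = ∑ l ∈ Finset.range n, m l := by
    intro n
    induction n with
    | zero => rfl
    | succ n ih => rw [hs1, Finset.sum_range_succ, ih]
  have e2 : ∀ n, (st n).2.1 = ∑ l ∈ Finset.range n, k l := by
    intro n
    induction n with
    | zero => rfl
    | succ n ih => rw [hs2, Finset.sum_range_succ, ih]
  have e4 : ∀ n, (st n).2.2.2 = hseq (fun j => ∑ l ∈ Finset.range j, k l) n := by
    intro n
    induction n with
    | zero => rfl
    | succ n ih =>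
      rw [hs4, hseq, ih, e2, Finset.sum_range_succ]
  have h5 : ∀ j : ℕ, 1 ≤ 5 ^ j := fun j => Nat.one_le_pow _ _ (by norm_num)
  have hNmono : Monotone N := by
    refine monotone_nat_of_le_succ fun n => ?_
    have h1 : (st n).2.2.1 ≤ (st n).2.2.2 := by
      cases n with
      | zero => exact le_rfl
      | succ n =>
        rw [hs3, hs4]
        have := h5 ((st n).2.1 + k n)
        omega
    have h2 : (5 : ℕ) ^ (st n).2.2.1 ≤ 5 ^ (st (n + 1)).2.2.1 := by
      rw [hs3]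
      exact Nat.pow_le_pow_right (by norm_num) h1
    have h3 : (st n).2.2.2 ≤ (st (n + 1)).2.2.2 := by
      rw [hs4]
      have := h5 ((st n).2.1 + k n)
      omega
    have h4 : (st n).2.1 ≤ (st (n + 1)).2.1 := by rw [hs2]; omega
    have h6 : (5 : ℕ) ^ (st n).2.1 ≤ 5 ^ (st (n + 1)).2.1 := Nat.pow_le_pow_right (by norm_num) h4
    simp only [hN, seqN]
    omega
  have hNn : ∀ n, n ≤ N n := by
    intro n
    simp only [hN, seqN]
    have := h5 (st n).2.2.1
    have := h5 (st n).2.1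
    omega
  have hm1 : ∀ n, n + 1 ≤ m n := fun n => hM1 _ _ _
  have hkm : ∀ n, m n ≤ k n := fun n => Nat.le_mul_of_pos_left _ (by have := hA n; omega)
  have hk2 : ∀ n, 2 ≤ k n := fun n => by
    calc 2 = 2 * 1 := rfl
      _ ≤ A n * m n := Nat.mul_le_mul (hA n) (by have := hm1 n; omega)
  have hlogk : ∀ n, 0 < Real.log (k n : ℝ) := fun n => Real.log_pos (by
    have := hk2 n
    have h2 : (2 : ℝ) ≤ k n := by exact_mod_cast this
    linarith)
  have hθpos : ∀ n, 0 < θ n := fun n => div_pos (by have := hlogD n; positivity) (hlogk n)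
  have hθN : ∀ n, θ n * (8 * 25 ^ N n) ≤ 1 := by
    intro n
    have h1 : 2 * Real.log (D n) * (8 * 25 ^ N n) ≤ Real.log (k n : ℝ) := hM3 _ _ _
    simp only [hθ]
    rw [div_mul_eq_mul_div, div_le_one (hlogk n)]
    exact h1
  have hθ8 : ∀ n, θ n ≤ 1 / 8 * (1 / 25) ^ n := by
    intro n
    have h1 := hθN n
    have h2 : (8 : ℝ) * 25 ^ n ≤ 8 * 25 ^ N n := by
      gcongr
      · norm_num
      · exact hNn n
    have h3 : θ n * (8 * 25 ^ n) ≤ 1 := (mul_le_mul_of_nonneg_left h2 (hθpos n).le).trans h1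
    have h4 : (0 : ℝ) < 8 * 25 ^ n := by positivity
    have h5 : (1 / 8 : ℝ) * (1 / 25) ^ n = 1 / (8 * 25 ^ n) := by
      rw [div_pow, one_pow]
      field_simp
    rw [h5, le_div_iff₀ h4]
    exact h3
  have hθ1 : ∀ n, θ n ≤ 1 / 8 := fun n => (hθ8 n).trans (by
    have : (1 / 25 : ℝ) ^ n ≤ 1 := pow_le_one₀ (by norm_num) (by norm_num)
    linarith)
  have hθq : ∀ n, 1 - 2 / q n = θ n := by
    intro n
    simp only [hq]
    have h1 : 1 - θ n ≠ 0 := by have := hθ1 n; linarith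
    field_simp
    ring
  have hq2 : ∀ n, 2 < q n := by
    intro n
    simp only [hq]
    have h1 : 0 < 1 - θ n := by have := hθ1 n; linarith
    rw [lt_div_iff₀ h1]
    have := hθpos n
    linarith
  have hq4 : ∀ n, q n ≤ 4 := by
    intro n
    simp only [hq]
    have h1 : 0 < 1 - θ n := by have := hθ1 n; linarith
    rw [div_le_iff₀ h1]
    have := hθ1 n
    linarith
  have hDq : ∀ n, ((A n * m n : ℕ) : ℝ) ^ (1 / 2 - 1 / q n) = D n := by
    intro n
    have h1 : (1 : ℝ) / 2 - 1 / q n = Real.log (D n) / Real.log (k n : ℝ) := by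
      have h2 : (1 : ℝ) / 2 - 1 / q n = (1 - 2 / q n) / 2 := by ring
      rw [h2, hθq]
      simp only [hθ]
      ring
    have hkpos : (0 : ℝ) < (k n : ℝ) := by
      have := hk2 n
      exact_mod_cast (by omega : 0 < k n)
    rw [h1, show ((A n * m n : ℕ) : ℝ) = (k n : ℝ) from rfl, Real.rpow_def_of_pos hkpos,
      mul_div_cancel₀ _ (hlogk n).ne', Real.exp_log (by linarith [hD n])]
  have hg : ∀ n, ∃ g : Fin (k n) → Eu (m n), (∀ x, (∀ i, inner ℝ (g i) x = 0) → x = 0) ∧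
      ¬ Bad ((n : ℝ) + 1) (∑ l ∈ Finset.range n, m l) (q n) g := by
    intro n
    have h1 := hm0 n (st n).1 (m n) (hM2 _ _ _) (q n) (hq2 n) (hq4 n) (hDq n)
    rw [e1 n] at h1
    exact h1
  choose g hg1 hg2 using hg
  refine ⟨k, m, N, q, g, ?_, ?_, fun n => (hq2 n).le, fun n => by have := hm1 n; omega, ?_, ?_, ?_,
    ?_, ?_, hg1, hg2⟩
  · exact tendsto_atTop_mono (fun n => ((Nat.le_succ n).trans (hm1 n)).trans (hkm n)) tendsto_id
  · have h1 : Tendsto θ atTop (𝓝 0) := by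
      refine squeeze_zero (fun n => (hθpos n).le) hθ8 ?_
      have h2 := (tendsto_pow_atTop_nhds_zero_of_lt_one (by norm_num : (0 : ℝ) ≤ 1 / 25)
        (by norm_num)).const_mul (1 / 8 : ℝ)
      simpa using h2
    have h2 : Tendsto (fun n => 2 / (1 - θ n)) atTop (𝓝 (2 / (1 - 0))) :=
      tendsto_const_nhds.div (tendsto_const_nhds.sub h1) (by norm_num)
    simpa using h2
  · intro n l hnl
    rw [hθq]
    refine le_trans ?_ (hθN l)
    have h1 : N n ≤ N l := hNmono hnl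
    have h2 := (hθpos l).le
    gcongr
    norm_num
  · intro n
    rw [← e4]
    simp only [hN, seqN]
    rw [hs3]
    have := h5 (st (n + 1)).2.1
    omega
  · intro n
    rw [← e4]
    simp only [hN, seqN]
    have := h5 (st (n + 1)).2.1
    have := h5 (st (n + 1)).2.2.1
    omega
  · intro n
    rw [← e2]
    simp only [hN, seqN]
    have := h5 (st n).2.2.1
    omega
  · intro n
    have h1 := hkm n
    have h7 := hs2 n
    have := h5 (st (n + 1)).2.1
    have := h5 (st (n + 1)).2.2.1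
    simp only [hN, seqN]
    omega

end Pool.Agent.JohnsonSp
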