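import Mathlib
import Pool.Agent.JohnsonSp.Defs

set_option autoImplicit false

namespace Pool.Agent.JohnsonSp

theorem Step (hLift : Stmt_Lift) (hCompl : Stmt_Compl) (hKer : Stmt_KerProj) : Stmt_Step := by
  intro Y _ _ T Y1 h K N x0 hTT hTfd hTr hY1c hY1fd hY1r hHF h5 hN
  -- the kernel of T on Y1
  let g : Y1 →ₗ[ℝ] Y := (T : Y →ₗ[ℝ] Y).comp Y1.subtype
  let Y' : Submodule ℝ Y1 := LinearMap.ker g
  have hY'mem : ∀ z : Y1, z ∈ Y' ↔ T (z : Y) = 0 := fun z => Iff.rfl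
  have hgr : LinearMap.range g ≤ LinearMap.range (T : Y →ₗ[ℝ] Y) := by
    rintro _ ⟨z, rfl⟩
    exact ⟨(z : Y), rfl⟩
  have : FiniteDimensional ℝ (LinearMap.range g) := Submodule.finiteDimensional_of_le hgr
  have hY'cl : IsClosed (Y' : Set Y1) := by
    have : (Y' : Set Y1) = (fun z : Y1 => T (z : Y)) ⁻¹' {0} := by
      ext z; exact Iff.rfl
    rw [this]
    exact isClosed_singleton.preimage (T.continuous.comp continuous_subtype_val)
  have hqe := LinearMap.quotKerEquivRange g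
  have hY'fd : FiniteDimensional ℝ (Y1 ⧸ Y') := Module.Finite.equiv hqe.symm
  have hY'r : Module.finrank ℝ (Y1 ⧸ Y') ≤ h := by
    rw [LinearEquiv.finrank_eq hqe]
    exact (Submodule.finrank_mono hgr).trans hTr
  obtain ⟨P, hPP, hPk, hPn⟩ := hKer Y1 N h hHF h5 Y' hY'cl hY'fd hY'r
  obtain ⟨B, hBfd, hBr, hB⟩ := hLift Y Y1 K hY1c hY1fd hY1r
  -- range of P
  have hPker : LinearMap.ker (P : Y1 →ₗ[ℝ] Y1) = Y' := by
    ext x; exact hPk x
  have hPe := LinearMap.quotKerEquivRange (P : Y1 →ₗ[ℝ] Y1)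
  let V : Submodule ℝ Y1 := LinearMap.range (P : Y1 →ₗ[ℝ] Y1)
  have hfdq : FiniteDimensional ℝ (Y1 ⧸ LinearMap.ker (P : Y1 →ₗ[ℝ] Y1)) := by
    rw [hPker]; exact hY'fd
  have hVfd : FiniteDimensional ℝ V := Module.Finite.equiv hPe
  have hVr : Module.finrank ℝ V ≤ h := by
    have h1 : Module.finrank ℝ V = Module.finrank ℝ (Y1 ⧸ LinearMap.ker (P : Y1 →ₗ[ℝ] Y1)) :=
      (LinearEquiv.finrank_eq hPe).symm
    rw [h1, hPker]
    exact hY'r
  let V' : Submodule ℝ Y := V.map Y1.subtype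
  have hV'fd : FiniteDimensional ℝ V' := inferInstanceAs (FiniteDimensional ℝ (V.map Y1.subtype))
  have hV'r : Module.finrank ℝ V' ≤ h := (Submodule.finrank_map_le _ _).trans hVr
  -- the space H
  let H : Submodule ℝ Y := ((LinearMap.range (T : Y →ₗ[ℝ] Y) ⊔ B) ⊔ V') ⊔ Submodule.span ℝ {x0}
  have hHfd : FiniteDimensional ℝ H := by
    have : FiniteDimensional ℝ (Submodule.span ℝ {x0}) :=
      FiniteDimensional.span_of_finite ℝ (Set.finite_singleton x0)
    exact inferInstanceAs (FiniteDimensional ℝ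
      (((LinearMap.range (T : Y →ₗ[ℝ] Y) ⊔ B) ⊔ V') ⊔ Submodule.span ℝ {x0} : Submodule ℝ Y))
  have hHr : Module.finrank ℝ H ≤ 2 * h + 5 ^ K + 1 := by
    have h1 := Submodule.finrank_add_le_finrank_add_finrank
      ((LinearMap.range (T : Y →ₗ[ℝ] Y) ⊔ B) ⊔ V') (Submodule.span ℝ {x0})
    have h2 := Submodule.finrank_add_le_finrank_add_finrank
      (LinearMap.range (T : Y →ₗ[ℝ] Y) ⊔ B) V'
    have h3 := Submodule.finrank_add_le_finrank_add_finrank
      (LinearMap.range (T : Y →ₗ[ℝ] Y)) B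
    have h4 : Module.finrank ℝ (Submodule.span ℝ {x0}) ≤ 1 := by
      have := finrank_span_finset_le_card (R := ℝ) ({x0} : Finset Y)
      rw [Finset.coe_singleton, Finset.card_singleton] at this
      exact this
    change Module.finrank ℝ (((LinearMap.range (T : Y →ₗ[ℝ] Y) ⊔ B) ⊔ V') ⊔
      Submodule.span ℝ {x0} : Submodule ℝ Y) ≤ _
    omega
  have hTH : ∀ y, T y ∈ H := fun y =>
    Submodule.mem_sup_left (Submodule.mem_sup_left (Submodule.mem_sup_left ⟨y, rfl⟩))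
  have hBH : ∀ b ∈ B, b ∈ H := fun b hb =>
    Submodule.mem_sup_left (Submodule.mem_sup_left (Submodule.mem_sup_right hb))
  have hPH : ∀ z : Y1, ((P z : Y1) : Y) ∈ H := fun z =>
    Submodule.mem_sup_left (Submodule.mem_sup_right ⟨P z, ⟨z, rfl⟩, rfl⟩)
  have hxH : x0 ∈ H := Submodule.mem_sup_right (Submodule.mem_span_singleton_self x0)
  let W : Submodule ℝ Y1 := H.comap Y1.subtype
  have hWmem : ∀ z : Y1, z ∈ W ↔ (z : Y) ∈ H := fun z => Iff.rfl
  have hWinj : Function.Injective (Y1.subtype.restrict (p := W) (q := H) fun z hz => hz) := by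
    intro a b hab
    have := congrArg Subtype.val hab
    exact Subtype.ext (Subtype.ext this)
  have hWfd : FiniteDimensional ℝ W := Module.Finite.of_injective _ hWinj
  have hWr : Module.finrank ℝ W ≤ N :=
    ((LinearMap.finrank_le_finrank_of_injective hWinj).trans hHr).trans hN
  let W' : Submodule ℝ Y1 := W ⊓ Y'
  have hW'fd : FiniteDimensional ℝ W' := Submodule.finiteDimensional_of_le inf_le_left
  have hW'r : Module.finrank ℝ W' ≤ N := (Submodule.finrank_mono inf_le_left).trans hWr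
  obtain ⟨Q, hQ1, hQ2, hQn⟩ := hCompl Y1 N hHF W' hW'fd hW'r
  let R : Y1 → Y1 := fun z => P z + Q (z - P z)
  have hRW : ∀ z, R z ∈ W := fun z => W.add_mem (hPH z) (hQ1 _).1
  have hRadd : ∀ a b, R (a + b) = R a + R b := by
    intro a b
    simp only [R, map_add, map_sub]
    abel
  have hRsub : ∀ a b, R (a - b) = R a - R b := by
    intro a b
    simp only [R, map_sub]
    abel
  have hRsmul : ∀ (c : ℝ) a, R (c • a) = c • R a := by
    intro c a
    simp only [R, map_smul, map_sub, smul_add, smul_sub]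
  have hRfix : ∀ w ∈ W, R w = w := by
    intro w hw
    have h1 : w - P w ∈ W' := by
      refine ⟨W.sub_mem hw (hPH w), ?_⟩
      apply (hPk _).mp
      rw [map_sub, hPP, sub_self]
    change P w + Q (w - P w) = w
    rw [hQ2 _ h1]
    abel
  have hRn : ∀ z, ‖R z‖ ≤ 17 * ‖z‖ := by
    intro z
    have h1 := hPn z
    have h2 := hQn (z - P z)
    have h3 : ‖z - P z‖ ≤ ‖z‖ + ‖P z‖ := norm_sub_le _ _
    have h4 : ‖R z‖ ≤ ‖P z‖ + ‖Q (z - P z)‖ := norm_add_le _ _
    linarith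
  have hR0 : ∀ z, R z = 0 → T (z : Y) = 0 := by
    intro z hz
    have h1 : P z = - Q (z - P z) := eq_neg_of_add_eq_zero_left hz
    have h2 : P z ∈ Y' := by
      rw [h1]
      exact Y'.neg_mem (hQ1 _).2
    have h3 : P (P z) = 0 := (hPk _).mpr h2
    rw [hPP] at h3
    exact (hPk z).mp h3
  -- definition of T'
  choose b hbB hbY hbn using hB
  let t : Y → Y := fun y => b y + (R ⟨y - b y, hbY y⟩ : Y1)
  have ht : ∀ y c, c ∈ B → ∀ hc : y - c ∈ Y1, t y = c + (R ⟨y - c, hc⟩ : Y1) := by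
    intro y c hcB hc
    have h1 : c - b y ∈ Y1 := by
      have : c - b y = (y - b y) - (y - c) := by abel
      rw [this]
      exact Y1.sub_mem (hbY y) hc
    have h2 : (⟨c - b y, h1⟩ : Y1) ∈ W := by
      rw [hWmem]
      exact H.sub_mem (hBH c hcB) (hBH _ (hbB y))
    have h3 : (⟨y - b y, hbY y⟩ : Y1) = ⟨y - c, hc⟩ + ⟨c - b y, h1⟩ := by
      apply Subtype.ext
      simp
    change b y + ((R ⟨y - b y, hbY y⟩ : Y1) : Y) = _
    rw [h3, hRadd, hRfix _ h2]
    simp only [Submodule.coe_add]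
    abel
  have htadd : ∀ x y, t (x + y) = t x + t y := by
    intro x y
    have h1 : x + y - (b x + b y) ∈ Y1 := by
      have : x + y - (b x + b y) = (x - b x) + (y - b y) := by abel
      rw [this]
      exact Y1.add_mem (hbY x) (hbY y)
    rw [ht (x + y) (b x + b y) (B.add_mem (hbB x) (hbB y)) h1]
    have h2 : (⟨x + y - (b x + b y), h1⟩ : Y1) = ⟨x - b x, hbY x⟩ + ⟨y - b y, hbY y⟩ := by
      apply Subtype.ext
      simp only [Submodule.coe_add]
      abel
    rw [h2, hRadd, Submodule.coe_add]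
    change _ = (b x + ((R ⟨x - b x, hbY x⟩ : Y1) : Y)) + (b y + ((R ⟨y - b y, hbY y⟩ : Y1) : Y))
    abel
  have htsmul : ∀ (c : ℝ) x, t (c • x) = c • t x := by
    intro c x
    have h1 : c • x - c • b x ∈ Y1 := by
      rw [← smul_sub]
      exact Y1.smul_mem c (hbY x)
    rw [ht (c • x) (c • b x) (B.smul_mem c (hbB x)) h1]
    have h2 : (⟨c • x - c • b x, h1⟩ : Y1) = c • ⟨x - b x, hbY x⟩ := by
      apply Subtype.ext
      simp only [Submodule.coe_smul, smul_sub]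
    rw [h2, hRsmul, Submodule.coe_smul]
    change _ = c • (b x + ((R ⟨x - b x, hbY x⟩ : Y1) : Y))
    rw [smul_add]
  have htn : ∀ y, ‖t y‖ ≤ 100 * ‖y‖ := by
    intro y
    have h1 : ‖t y‖ ≤ ‖b y‖ + ‖((R ⟨y - b y, hbY y⟩ : Y1) : Y)‖ := norm_add_le _ _
    have h2 : ‖((R ⟨y - b y, hbY y⟩ : Y1) : Y)‖ ≤ 17 * ‖y - b y‖ := hRn ⟨y - b y, hbY y⟩
    have h3 : ‖y - b y‖ ≤ ‖y‖ + ‖b y‖ := norm_sub_le _ _
    have h4 := hbn y
    have h5 := norm_nonneg y
    linarith
  have htH : ∀ y, t y ∈ H := fun y => H.add_mem (hBH _ (hbB y)) (hRW _)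
  have htfix : ∀ y ∈ H, t y = y := by
    intro y hy
    have h1 : (⟨y - b y, hbY y⟩ : Y1) ∈ W := by
      rw [hWmem]
      exact H.sub_mem hy (hBH _ (hbB y))
    change b y + ((R ⟨y - b y, hbY y⟩ : Y1) : Y) = y
    rw [hRfix _ h1]
    exact add_sub_cancel _ _
  let T' : Y →L[ℝ] Y := LinearMap.mkContinuous
    { toFun := t, map_add' := htadd, map_smul' := htsmul } 100 htn
  have hT'r : LinearMap.range (T' : Y →ₗ[ℝ] Y) ≤ H := by
    rintro _ ⟨y, rfl⟩
    exact htH y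
  refine ⟨T', fun y => htfix _ (htH y), ?_, ?_, fun y => htfix _ (hTH y), ?_,
    htfix _ hxH, htn⟩
  · exact Submodule.finiteDimensional_of_le hT'r
  · exact (Submodule.finrank_mono hT'r).trans hHr
  · intro y
    have h1 : R (⟨y - b y, hbY y⟩ - R ⟨y - b y, hbY y⟩) = 0 := by
      rw [hRsub, hRfix _ (hRW _), sub_self]
    have h2 := hR0 _ h1
    have h3 : ((⟨y - b y, hbY y⟩ - R ⟨y - b y, hbY y⟩ : Y1) : Y) = y - t y := by
      change (y - b y) - ((R ⟨y - b y, hbY y⟩ : Y1) : Y) = y - (b y + ((R ⟨y - b y, hbY y⟩ : Y1) : Y))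
      abel
    rw [h3, map_sub, sub_eq_zero] at h2
    exact h2.symm

end Pool.Agent.JohnsonSp
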