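import Mathlib
import Pool.Agent.JohnsonSp.Defs

set_option autoImplicit false

namespace Pool.Agent.JohnsonSp

/-- orthonormal family of a submodule as vectors of the big space -/
theorem tr_onb_sub {m : ℕ} (M : Submodule ℝ (Eu m)) :
    ∃ f : Fin (Module.finrank ℝ M) → Eu m, Orthonormal ℝ f ∧ ∀ i, f i ∈ M := by
  let b := stdOrthonormalBasis ℝ M
  refine ⟨fun i => (b i : Eu m), ?_, fun i => (b i).2⟩
  exact b.orthonormal.comp_linearIsometry M.subtypeₗᵢ

theorem tr_split {m : ℕ} (L : Submodule ℝ (Eu m)) (f : Fin (Module.finrank ℝ (Lᗮ : Submodule ℝ (Eu m))) → Eu m)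
    (g : Fin (Module.finrank ℝ L) → Eu m) (hf : Orthonormal ℝ f) (hg : Orthonormal ℝ g)
    (hfm : ∀ i, f i ∈ Lᗮ) (hgm : ∀ i, g i ∈ L) (S : Eu m →ₗ[ℝ] Eu m) :
    LinearMap.trace ℝ (Eu m) S = ∑ i, inner ℝ (f i) (S (f i)) + ∑ i, inner ℝ (g i) (S (g i)) := by
  have hon : Orthonormal ℝ (Sum.elim f g) := by
    rw [orthonormal_iff_ite]
    intro i j
    have hf' := orthonormal_iff_ite.mp hf
    have hg' := orthonormal_iff_ite.mp hg
    rcases i with i | i <;> rcases j with j | j
    · simpa using hf' i j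
    · have : inner ℝ (f i) (g j) = 0 :=
        (Submodule.mem_orthogonal' L (f i)).mp (hfm i) (g j) (hgm j)
      simpa using this
    · have : inner ℝ (g i) (f j) = 0 :=
        (Submodule.mem_orthogonal L (f j)).mp (hfm j) (g i) (hgm i)
      simpa using this
    · simpa using hg' i j
  have hcard : Fintype.card (Fin (Module.finrank ℝ (Lᗮ : Submodule ℝ (Eu m))) ⊕
      Fin (Module.finrank ℝ L)) = Module.finrank ℝ (Eu m) := by
    rw [Fintype.card_sum, Fintype.card_fin, Fintype.card_fin, add_comm]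
    exact L.finrank_add_finrank_orthogonal
  have hspan := hon.linearIndependent.span_eq_top_of_card_eq_finrank' hcard
  let b := OrthonormalBasis.mk hon hspan.ge
  rw [LinearMap.trace_eq_sum_inner S b, Fintype.sum_sum_type]
  simp [b]

theorem tr_split' {m : ℕ} (L : Submodule ℝ (Eu m)) : ∃ (a b : ℕ) (u : Fin a → Eu m)
    (g : Fin b → Eu m), b = Module.finrank ℝ L ∧ a + b = m ∧ Orthonormal ℝ u ∧ Orthonormal ℝ g ∧
      (∀ i, u i ∈ Lᗮ) ∧ ∀ S : Eu m →ₗ[ℝ] Eu m, LinearMap.trace ℝ (Eu m) S =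
        ∑ i, inner ℝ (u i) (S (u i)) + ∑ i, inner ℝ (g i) (S (g i)) := by
  obtain ⟨u, hu1, hu2⟩ := tr_onb_sub (Lᗮ : Submodule ℝ (Eu m))
  obtain ⟨g, hg1, hg2⟩ := tr_onb_sub L
  refine ⟨_, _, u, g, rfl, ?_, hu1, hg1, hu2, tr_split L u g hu1 hg1 hu2 hg2⟩
  have := L.finrank_add_finrank_orthogonal
  have h3 : Module.finrank ℝ (Eu m) = m := by simp
  omega

theorem tr_finrank {m : ℕ} (L : Submodule ℝ (Eu m)) (S R1 : Eu m →ₗ[ℝ] Eu m) :
    ∃ M : Submodule ℝ (Eu m), (∀ x ∈ M, x ∈ Lᗮ ∧ S x ∈ Lᗮ ∧ R1 x = 0) ∧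
      m ≤ Module.finrank ℝ M + (2 * Module.finrank ℝ L + Module.finrank ℝ (LinearMap.range R1)) := by
  let PL : Eu m →ₗ[ℝ] L := (L.orthogonalProjectionOnto : Eu m →ₗ[ℝ] L)
  let F : Eu m →ₗ[ℝ] (L × L × LinearMap.range R1) :=
    PL.prod ((PL.comp S).prod R1.rangeRestrict)
  refine ⟨LinearMap.ker F, ?_, ?_⟩
  · intro x hx
    have h0 : F x = 0 := hx
    have h1 : PL x = 0 := congrArg Prod.fst h0
    have h2 : PL (S x) = 0 := congrArg (fun z => z.2.1) h0
    have h3 : R1.rangeRestrict x = 0 := congrArg (fun z => z.2.2) h0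
    refine ⟨?_, ?_, ?_⟩
    · exact Submodule.orthogonalProjectionOnto_eq_zero_iff.mp h1
    · exact Submodule.orthogonalProjectionOnto_eq_zero_iff.mp h2
    · have := congrArg Subtype.val h3
      simpa using this
  · have h1 := F.finrank_range_add_finrank_ker
    have h2 : Module.finrank ℝ (LinearMap.range F) ≤
        Module.finrank ℝ (L × L × LinearMap.range R1) := Submodule.finrank_le _
    rw [Module.finrank_prod, Module.finrank_prod] at h2
    have h3 : Module.finrank ℝ (Eu m) = m := by simp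
    omega

theorem Trace (hHS : Stmt_HS) : Stmt_Trace := by
  intro m l d η lam R τ S R1 W L hη hη1 hR hm hLl hld hhs hnear hSW hR1 hW
  have hε0 : 0 < 15 * η := by positivity
  set ε := 15 * η with hε
  obtain ⟨M, hM, hMdim⟩ := tr_finrank L S R1
  set p := Module.finrank ℝ M with hp
  have hp2 : m ≤ 2 * p := by omega
  have hp1 : 1 ≤ p := by omega
  have hmR : (1 : ℝ) ≤ m := by exact_mod_cast hm
  have hpR : (m : ℝ) ≤ 2 * p := by exact_mod_cast hp2
  have hpR1 : (1 : ℝ) ≤ p := by exact_mod_cast hp1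
  obtain ⟨f, hf, hfM⟩ := tr_onb_sub M
  -- basic estimate on M
  have hu : ∀ x ∈ M, ‖S x - lam • x‖ ≤ ε * ‖x‖ := by
    intro x hx
    obtain ⟨hx1, hx2, -⟩ := hM x hx
    have hu' : S x - lam • x ∈ Lᗮ := Submodule.sub_mem _ hx2 (Submodule.smul_mem _ _ hx1)
    have h1 := hnear x hx1 _ hu'
    have h2 : inner ℝ (S x) (S x - lam • x) - lam * inner ℝ x (S x - lam • x)
        = ‖S x - lam • x‖ ^ 2 := by
      rw [← real_inner_self_eq_norm_sq, inner_sub_left, inner_smul_left]
      simp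
    rw [h2, abs_of_nonneg (by positivity)] at h1
    by_cases h0 : ‖S x - lam • x‖ = 0
    · rw [h0]; positivity
    · have hpos : 0 < ‖S x - lam • x‖ := lt_of_le_of_ne (norm_nonneg _) (Ne.symm h0)
      nlinarith [h1]
  have hfn : ∀ i, ‖f i‖ = 1 := hf.1
  -- bound for lam
  have hlam : |lam| ≤ 3 / 2 * R + 1 := by
    have h1 := hHS m m p S f hf
    have h2 : ∃ i, ‖S (f i)‖ ^ 2 ≤ 2 * R ^ 2 := by
      by_contra hcon
      push Not at hcon
      have h3 : ∑ _i : Fin p, (2 * R ^ 2) < ∑ i, ‖S (f i)‖ ^ 2 := by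
        apply Finset.sum_lt_sum_of_nonempty
        · exact ⟨⟨0, hp1⟩, Finset.mem_univ _⟩
        · intro i _
          exact hcon i
      rw [Finset.sum_const, Finset.card_univ, Fintype.card_fin, nsmul_eq_mul] at h3
      have h4 : R ^ 2 * m ≤ p * (2 * R ^ 2) := by nlinarith [sq_nonneg R]
      linarith
    obtain ⟨i, hi⟩ := h2
    have h5 : ‖S (f i)‖ ≤ 3 / 2 * R := by
      apply le_of_sq_le_sq _ (by positivity)
      nlinarith [sq_nonneg R]
    have h6 := hu (f i) (hfM i)
    rw [hfn i, mul_one] at h6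
    have h7 : ‖lam • f i‖ ≤ ‖S (f i)‖ + ‖S (f i) - lam • f i‖ := by
      have : lam • f i = S (f i) - (S (f i) - lam • f i) := by abel
      calc ‖lam • f i‖ = ‖S (f i) - (S (f i) - lam • f i)‖ := by rw [← this]
        _ ≤ _ := norm_sub_le _ _
    rw [norm_smul, hfn i, mul_one, Real.norm_eq_abs] at h7
    linarith
  have hWi : ∀ i, |inner ℝ (W (f i)) (f i) - (lam - lam ^ 2)| ≤ ε * (2 + 2 * |lam|) := by
    intro i
    obtain ⟨hx1, hx2, hx3⟩ := hM (f i) (hfM i)
    have hSW' := hSW (f i)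
    rw [hx3, zero_add] at hSW'
    have e1 := hnear (f i) hx1 (f i) hx1
    have e2 := hnear (S (f i)) hx2 (f i) hx1
    rw [real_inner_self_eq_norm_sq, hfn i] at e1
    rw [hfn i] at e2
    have hSn : ‖S (f i)‖ ≤ |lam| + ε := by
      have h6 := hu (f i) (hfM i)
      rw [hfn i, mul_one] at h6
      have : S (f i) = lam • f i + (S (f i) - lam • f i) := by abel
      calc ‖S (f i)‖ = ‖lam • f i + (S (f i) - lam • f i)‖ := by rw [← this]
        _ ≤ ‖lam • f i‖ + ‖S (f i) - lam • f i‖ := norm_add_le _ _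
        _ ≤ |lam| + ε := by
          rw [norm_smul, hfn i, mul_one, Real.norm_eq_abs]
          linarith
    rw [← hSW', inner_sub_left]
    set a := inner ℝ (S (f i)) (f i) with ha
    set c := inner ℝ (S (S (f i))) (f i) with hc
    have e1' : |a - lam| ≤ ε := by
      have : a - lam * 1 ^ 2 = a - lam := by ring
      rw [this] at e1
      linarith
    have e2' : |c - lam * a| ≤ ε * (|lam| + ε) := by
      refine e2.trans ?_
      rw [mul_one]
      exact mul_le_mul_of_nonneg_left hSn hε0.le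
    have e3 : a - c - (lam - lam ^ 2) = (a - lam) * (1 - lam) - (c - lam * a) := by ring
    rw [e3]
    have e4 : |(a - lam) * (1 - lam)| ≤ ε * (1 + |lam|) := by
      rw [abs_mul]
      apply mul_le_mul e1' _ (abs_nonneg _) hε0.le
      calc |1 - lam| ≤ |(1 : ℝ)| + |lam| := abs_sub _ _
        _ = 1 + |lam| := by rw [abs_one]
    have e5 : ε * (|lam| + ε) ≤ ε * (|lam| + 1) :=
      mul_le_mul_of_nonneg_left (by linarith) hε0.le
    calc |(a - lam) * (1 - lam) - (c - lam * a)|
        ≤ |(a - lam) * (1 - lam)| + |c - lam * a| := abs_sub _ _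
      _ ≤ ε * (1 + |lam|) + ε * (|lam| + 1) := by linarith
      _ = ε * (2 + 2 * |lam|) := by ring
  have hW' := hW p f hf
  have hτ : 0 ≤ τ := by
    have h0 := hW 0 (fun i => i.elim0) (by
      constructor
      · intro i; exact i.elim0
      · intro i; exact i.elim0)
    simp at h0
    by_contra hneg
    push Not at hneg
    nlinarith
  constructor
  · -- |lam - lam^2|
    have hsum : |∑ i, inner ℝ (W (f i)) (f i) - p * (lam - lam ^ 2)| ≤ p * (ε * (2 + 2 * |lam|)) := by
      have e : ∑ i, inner ℝ (W (f i)) (f i) - p * (lam - lam ^ 2)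
          = ∑ i, (inner ℝ (W (f i)) (f i) - (lam - lam ^ 2)) := by
        rw [Finset.sum_sub_distrib, Finset.sum_const, Finset.card_univ, Fintype.card_fin,
          nsmul_eq_mul]
      rw [e]
      refine (Finset.abs_sum_le_sum_abs _ _).trans ?_
      calc ∑ i, |inner ℝ (W (f i)) (f i) - (lam - lam ^ 2)|
          ≤ ∑ _i : Fin p, ε * (2 + 2 * |lam|) := Finset.sum_le_sum fun i _ => hWi i
        _ = p * (ε * (2 + 2 * |lam|)) := by
          rw [Finset.sum_const, Finset.card_univ, Fintype.card_fin, nsmul_eq_mul]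
    have h1 : p * |lam - lam ^ 2| ≤ τ * m + p * (ε * (2 + 2 * |lam|)) := by
      have : (p : ℝ) * |lam - lam ^ 2| = |(p : ℝ) * (lam - lam ^ 2)| := by
        rw [abs_mul, abs_of_nonneg (by positivity : (0 : ℝ) ≤ p)]
      rw [this]
      have e : (p : ℝ) * (lam - lam ^ 2) = (∑ i, inner ℝ (W (f i)) (f i))
        - (∑ i, inner ℝ (W (f i)) (f i) - p * (lam - lam ^ 2)) := by ring
      rw [e]
      exact (abs_sub _ _).trans (by linarith)
    have h2 : τ * m ≤ p * (2 * τ) := by nlinarith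
    have h3 : ε * (2 + 2 * |lam|) ≤ ε * (4 * R + 4) :=
      mul_le_mul_of_nonneg_left (by linarith) hε0.le
    have h4 : (p : ℝ) * |lam - lam ^ 2| ≤ p * (2 * τ + ε * (4 * R + 4)) := by
      nlinarith
    exact le_of_mul_le_mul_left h4 (by linarith)
  · -- trace
    obtain ⟨a, b, u, g, hb, hab, hu1, hg1, hu2, htr⟩ := tr_split' L
    rw [htr S]
    rw [← hb] at hLl
    have habR : (a : ℝ) + b = m := by exact_mod_cast hab
    have hblR : (b : ℝ) ≤ l := by exact_mod_cast hLl
    have t1 : |∑ i, inner ℝ (u i) (S (u i)) - lam * a| ≤ ε * a := by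
      have e : ∑ i, inner ℝ (u i) (S (u i)) - lam * a = ∑ i, (inner ℝ (u i) (S (u i)) - lam) := by
        rw [Finset.sum_sub_distrib, Finset.sum_const, Finset.card_univ, Fintype.card_fin,
          nsmul_eq_mul, mul_comm]
      rw [e]
      refine (Finset.abs_sum_le_sum_abs _ _).trans ?_
      calc ∑ i, |inner ℝ (u i) (S (u i)) - lam| ≤ ∑ _i : Fin a, ε := by
            apply Finset.sum_le_sum
            intro i _
            have h1 := hnear (u i) (hu2 i) (u i) (hu2 i)
            rw [real_inner_self_eq_norm_sq, hu1.1 i] at h1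
            rw [real_inner_comm]
            have : inner ℝ (S (u i)) (u i) - lam * 1 ^ 2 = inner ℝ (S (u i)) (u i) - lam := by ring
            rw [this] at h1
            linarith
        _ = ε * a := by
          rw [Finset.sum_const, Finset.card_univ, Fintype.card_fin, nsmul_eq_mul, mul_comm]
    have t2 : |∑ i, inner ℝ (g i) (S (g i))| ≤ R * Real.sqrt (l * m) := by
      have h1 : |∑ i, inner ℝ (g i) (S (g i))| ≤ ∑ i, ‖S (g i)‖ := by
        refine (Finset.abs_sum_le_sum_abs _ _).trans ?_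
        apply Finset.sum_le_sum
        intro i _
        have := abs_real_inner_le_norm (g i) (S (g i))
        rwa [hg1.1 i, one_mul] at this
      have h2 : (∑ i, ‖S (g i)‖) ^ 2 ≤ b * ∑ i, ‖S (g i)‖ ^ 2 := by
        have := sq_sum_le_card_mul_sum_sq (s := Finset.univ) (f := fun i : Fin b => ‖S (g i)‖)
        simpa using this
      have h3 := hHS m m b S g hg1
      have h4 : (∑ i, ‖S (g i)‖) ^ 2 ≤ (R * Real.sqrt (l * m)) ^ 2 := by
        rw [mul_pow, Real.sq_sqrt (by positivity)]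
        calc (∑ i, ‖S (g i)‖) ^ 2 ≤ b * ∑ i, ‖S (g i)‖ ^ 2 := h2
          _ ≤ l * (R ^ 2 * m) := by
            apply mul_le_mul hblR (h3.trans hhs) _ (by positivity)
            exact Finset.sum_nonneg fun i _ => by positivity
          _ = R ^ 2 * (l * m) := by ring
      have h5 : ∑ i, ‖S (g i)‖ ≤ R * Real.sqrt (l * m) :=
        le_of_sq_le_sq h4 (by positivity)
      exact h1.trans h5
    have e : ∑ i, inner ℝ (u i) (S (u i)) + ∑ i, inner ℝ (g i) (S (g i)) - lam * m
        = (∑ i, inner ℝ (u i) (S (u i)) - lam * a) + (∑ i, inner ℝ (g i) (S (g i)) - lam * b) := by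
      rw [← habR]; ring
    rw [e]
    refine (abs_add_le _ _).trans ?_
    have t3 : |∑ i, inner ℝ (g i) (S (g i)) - lam * b| ≤ R * Real.sqrt (l * m) + |lam| * l := by
      refine (abs_sub _ _).trans ?_
      rw [abs_mul, abs_of_nonneg (by positivity : (0 : ℝ) ≤ b)]
      have := mul_le_mul_of_nonneg_left hblR (abs_nonneg lam)
      linarith
    have t4 : ε * a ≤ ε * m := mul_le_mul_of_nonneg_left (by
      have : (0 : ℝ) ≤ b := by positivity
      linarith) hε0.le
    linarith

end Pool.Agent.JohnsonSp
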